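import Pool.Agent.Run7.h762.EQ.H

/-!
# Strict sequences of special points
-/

set_option autoImplicit false
set_option linter.style.haveILetI false
set_option linter.deprecated false

open MeasureTheory Filter Topology
open scoped UpperHalfPlane MatrixGroups ENNReal

namespace Pool.Agent.Run7.h762.EQ

lemma exists_ne_proj (Γ : Subgroup SL(2, ℤ)) (z : ℍ) : ∃ w : ℍ, proj Γ w ≠ proj Γ z := by
  by_contra hcon
  push Not at hcon
  have h1 : Function.Surjective (fun γ : SL(2, ℤ) => γ • z) := by
    intro w
    obtain ⟨γ, -, h⟩ := (proj_eq_iff Γ w z).1 (hcon w)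
    exact ⟨γ, h.symm⟩
  haveI : Countable (Matrix (Fin 2) (Fin 2) ℤ) := inferInstanceAs (Countable (Fin 2 → Fin 2 → ℤ))
  haveI : Countable SL(2, ℤ) := Subtype.countable
  have h2 : Countable ℍ := h1.countable
  have h3 : Function.Injective (fun t : ℝ => (⟨(t : ℂ) + Complex.I, by simp⟩ : ℍ)) := by
    intro t s h
    have h4 := congrArg (fun w : ℍ => (w : ℂ).re) h
    simpa using h4
  have h5 : Countable ℝ := h3.countable
  exact Cardinal.not_countable_real (Set.countable_univ_iff.2 h5)

lemma proj_surjective (Γ : Subgroup SL(2, ℤ)) : Function.Surjective (proj Γ) := (proj_open Γ).surjective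

variable {n : ℕ} {Γ : Fin n → Subgroup SL(2, ℤ)}

/-- fixing one coordinate gives a proper special subvariety -/
lemma coord_special (j : Fin n) (c : CMPoint (Γ j)) : IsSpecialSub Γ {y | y j = c.pt} ∧ ({y | y j = c.pt} : Set (∀ j, Curve (Γ j))) ≠ Set.univ := by
  classical
  obtain ⟨z, hz⟩ := proj_surjective (Γ j) c.pt
  constructor
  · refine ⟨fun l => if l = j then none else some l, fun _ => z, fun _ => 1, ?_, ?_⟩
    · intro l hl
      have hlj : l = j := by
        by_contra h
        have hl' : (if l = j then none else some l : Option (Fin n)) = none := hl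
        rw [if_neg h] at hl'
        exact absurd hl' (by simp)
      subst hlj
      rw [hz]
      exact c.2
    · ext y
      rw [Set.mem_setOf_eq, Set.mem_setOf_eq]
      constructor
      · intro hy
        choose t ht using fun l => proj_surjective (Γ l) (y l)
        refine ⟨t, fun l => ⟨fun hl => ?_, fun k hk => ?_⟩⟩
        · have hlj : l = j := by
            by_contra h
            have hl' : (if l = j then none else some l : Option (Fin n)) = none := hl
            rw [if_neg h] at hl'
            exact absurd hl' (by simp)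
          subst hlj
          rw [hz, hy]
        · have hk' : (if l = j then none else some l : Option (Fin n)) = some k := hk
          have hkl : k = l := by
            by_cases h : l = j
            · rw [if_pos h] at hk'
              exact absurd hk' (by simp)
            · rw [if_neg h] at hk'
              exact (Option.some.inj hk').symm
          subst hkl
          rw [OneMemClass.coe_one, map_one, one_smul, ht k]
      · rintro ⟨t, ht⟩
        rw [(ht j).1 (if_pos rfl), hz]
  · intro h
    obtain ⟨w, hw⟩ := exists_ne_proj (Γ j) z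
    have h1 : (fun l => if h : l = j then h ▸ proj (Γ j) w else proj (Γ l) w) ∈ ({y | y j = c.pt} : Set (∀ j, Curve (Γ j))) := by
      rw [h]
      exact Set.mem_univ _
    rw [Set.mem_setOf_eq] at h1
    simp only [dite_true] at h1
    exact hw (h1.trans hz.symm)

/-- the discriminants of the coordinates of a strict sequence tend to infinity -/
lemma Strict.disc_tendsto {x : ℕ → ∀ j, CMPoint (Γ j)} (hx : Strict x) (hfin : ∀ j, ∀ D : ℤ, {y : CMPoint (Γ j) | disc y = D}.Finite)
    (j : Fin n) (R : ℝ) : ∀ᶠ i in atTop, R ≤ |(disc (x i j) : ℝ)| := by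
  have hP : {p : CMPoint (Γ j) | |(disc p : ℝ)| < R}.Finite := by
    have h1 : {p : CMPoint (Γ j) | |(disc p : ℝ)| < R} ⊆ ⋃ D ∈ Set.Icc (-⌈R⌉) ⌈R⌉, {p : CMPoint (Γ j) | disc p = D} := by
      intro p hp
      rw [Set.mem_setOf_eq, abs_lt] at hp
      rw [Set.mem_iUnion₂]
      refine ⟨disc p, ⟨?_, ?_⟩, rfl⟩
      · have : (-⌈R⌉ : ℝ) ≤ (disc p : ℝ) := by
          have := Int.le_ceil R
          linarith
        exact_mod_cast this
      · have : (disc p : ℝ) ≤ (⌈R⌉ : ℝ) := hp.2.le.trans (Int.le_ceil R)
        exact_mod_cast this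
    exact ((Set.finite_Icc _ _).biUnion (fun D _ => hfin j D)).subset h1
  have h2 : {i | ¬ R ≤ |(disc (x i j) : ℝ)|}.Finite := by
    have h3 : {i | ¬ R ≤ |(disc (x i j) : ℝ)|} ⊆ ⋃ p ∈ {p : CMPoint (Γ j) | |(disc p : ℝ)| < R}, {i | x i j = p} := by
      intro i hi
      rw [Set.mem_setOf_eq, not_le] at hi
      rw [Set.mem_iUnion₂]
      exact ⟨x i j, hi, rfl⟩
    refine (hP.biUnion (fun p _ => ?_)).subset h3
    obtain ⟨h4, h5⟩ := coord_special j p
    apply (hx _ h4 h5).subset
    intro i hi
    have hi' : x i j = p := hi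
    show (x i j).pt = p.pt
    rw [hi']
  rw [← Nat.cofinite_eq_atTop]
  exact h2

lemma finrank_rat_ne_zero (K : Type) [Field K] [NumberField K] (A : Module ℚ K) : @Module.finrank ℚ K _ _ A ≠ 0 := by
  have h1 : Subsingleton (Module ℚ K) := subsingleton_rat_module K
  have h : A = @Algebra.toModule ℚ K _ _ DivisionRing.toRatAlgebra := Subsingleton.elim _ _
  subst h
  exact Module.finrank_pos.ne'

lemma index_of_numberField {Qb : Type} [Field Qb] [Algebra ℚ Qb] [IsAlgClosure ℚ Qb] (F : IntermediateField ℚ Qb) [NumberField F] :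
    F.fixingSubgroup.index ≠ 0 := by
  rw [← IntermediateField.finrank_eq_fixingSubgroup_index]
  exact finrank_rat_ne_zero F _

end Pool.Agent.Run7.h762.EQ
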