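import Pool.Agent.Run7.h762.EQ.A

/-!
# Convergence on tensor products implies convergence for all functions with compact support
-/

set_option autoImplicit false

open Finset Filter Topology MeasureTheory

namespace Pool.Agent.Run7.h762.EQ

section SW

variable {ι : Type*} [Fintype ι] {Z : ι → Type*} [∀ j, TopologicalSpace (Z j)] [∀ j, CompactSpace (Z j)] [∀ j, T2Space (Z j)]

/-- the coordinate functions -/
def co (j : ι) (g : C(Z j, ℝ)) : C((∀ j, Z j), ℝ) := g.comp ⟨fun z => z j, continuous_apply j⟩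

/-- the tensor products -/
def tens : Submonoid C((∀ j, Z j), ℝ) where
  carrier := {F | ∃ g : ∀ j, C(Z j, ℝ), F = ∏ j, co j (g j)}
  one_mem' := ⟨fun _ => 1, by symm; apply prod_eq_one; intro j _; rfl⟩
  mul_mem' := by
    rintro F F' ⟨g, rfl⟩ ⟨g', rfl⟩
    refine ⟨fun j => g j * g' j, ?_⟩
    rw [← prod_mul_distrib]
    rfl

lemma tens_dense : Dense ((Submodule.span ℝ (tens (Z := Z) : Set C((∀ j, Z j), ℝ)) : Submodule ℝ C((∀ j, Z j), ℝ)) : Set C((∀ j, Z j), ℝ)) := by
  classical
  have h1 : (Algebra.adjoin ℝ (tens (Z := Z) : Set C((∀ j, Z j), ℝ))).topologicalClosure = ⊤ := by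
    apply ContinuousMap.subalgebra_topologicalClosure_eq_top_of_separatesPoints
    intro p q hpq
    obtain ⟨j, hj⟩ := Function.ne_iff.1 hpq
    obtain ⟨g, hg0, hg1, -⟩ := exists_continuous_zero_one_of_isClosed (isClosed_singleton (x := p j)) (isClosed_singleton (x := q j))
      (by simpa using hj)
    refine ⟨_, ⟨∏ l, co l (if h : l = j then h ▸ g else 1), Algebra.subset_adjoin ⟨_, rfl⟩, rfl⟩, ?_⟩
    have e : ∀ z : ∀ j, Z j, (∏ l, co l (if h : l = j then h ▸ g else 1)) z = g (z j) := by
      intro z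
      rw [ContinuousMap.prod_apply, prod_eq_single j]
      · simp [co]
      · intro l _ hl
        simp [co, hl]
      · simp
    show (∏ l, co l (if h : l = j then h ▸ g else 1)) p ≠ (∏ l, co l (if h : l = j then h ▸ g else 1)) q
    rw [e, e, hg0 (Set.mem_singleton _), hg1 (Set.mem_singleton _)]
    norm_num
  have h2 : ((Algebra.adjoin ℝ (tens (Z := Z) : Set C((∀ j, Z j), ℝ))) : Set C((∀ j, Z j), ℝ)) =
      (Submodule.span ℝ (tens (Z := Z) : Set C((∀ j, Z j), ℝ)) : Submodule ℝ C((∀ j, Z j), ℝ)) := by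
    have := Algebra.adjoin_eq_span ℝ (tens (Z := Z) : Set C((∀ j, Z j), ℝ))
    rw [Submonoid.closure_eq] at this
    rw [← this]
    rfl
  rw [← h2, dense_iff_closure_eq]
  have h3 := congrArg (fun A : Subalgebra ℝ C((∀ j, Z j), ℝ) => (A : Set C((∀ j, Z j), ℝ))) h1
  simpa using h3

/-- convergence of functionals on tensor products implies convergence -/
lemma tendsto_of_tens (L : ℕ → (C((∀ j, Z j), ℝ) →ₗ[ℝ] ℝ)) (L0 : C((∀ j, Z j), ℝ) →ₗ[ℝ] ℝ)
    (hL : ∀ i F, |L i F| ≤ ‖F‖) (hL0 : ∀ F, |L0 F| ≤ ‖F‖)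
    (h : ∀ g : ∀ j, C(Z j, ℝ), Tendsto (fun i => L i (∏ j, co j (g j))) atTop (𝓝 (L0 (∏ j, co j (g j)))))
    (F : C((∀ j, Z j), ℝ)) : Tendsto (fun i => L i F) atTop (𝓝 (L0 F)) := by
  have h1 : ∀ G ∈ Submodule.span ℝ (tens (Z := Z) : Set C((∀ j, Z j), ℝ)), Tendsto (fun i => L i G) atTop (𝓝 (L0 G)) := by
    intro G hG
    induction hG using Submodule.span_induction with
    | mem G hG =>
      obtain ⟨g, rfl⟩ := hG
      exact h g
    | zero => simp
    | add G G' _ _ h1 h2 =>
      simp only [map_add]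
      exact h1.add h2
    | smul c G _ h1 =>
      simp only [map_smul]
      exact h1.const_smul c
  rw [Metric.tendsto_atTop]
  intro ε hε
  obtain ⟨G, hG, hFG⟩ := Metric.dense_iff.1 (tens_dense (Z := Z)) F (ε / 3) (by linarith)
  rw [Metric.mem_ball, dist_eq_norm] at hG
  obtain ⟨N, hN⟩ := Metric.tendsto_atTop.1 (h1 G hFG) (ε / 3) (by linarith)
  refine ⟨N, fun i hi => ?_⟩
  have a1 := hN i hi
  rw [Real.dist_eq] at a1 ⊢
  have a2 := hL i (G - F)
  have a3 := hL0 (G - F)
  rw [map_sub] at a2 a3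
  have a4 : L i F - L0 F = -(L i G - L i F) + (L i G - L0 G) + (L0 G - L0 F) := by ring
  rw [a4]
  calc |-(L i G - L i F) + (L i G - L0 G) + (L0 G - L0 F)| ≤ |-(L i G - L i F)| + |L i G - L0 G| + |L0 G - L0 F| := abs_add_three _ _ _
    _ < ε := by rw [abs_neg]; linarith

end SW

lemma continuous_extend {α β : Type*} [TopologicalSpace α] [TopologicalSpace β] [T2Space β] {g : α → β}
    (hg : IsOpenEmbedding g) {f : α → ℝ} (cont : Continuous f) (supp : HasCompactSupport f) : Continuous (g.extend f 0) := by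
  apply continuous_of_tsupport
  intro x h
  obtain ⟨y, -, rfl⟩ := supp.tsupport_extend_zero_subset hg.continuous h
  rw [← hg.continuousAt_iff, Function.extend_comp hg.injective]
  exact cont.continuousAt

lemma mean_add {α : Type*} {s : Set α} (hs : s.Finite) (f g : α → ℝ) : mean s (fun y => f y + g y) = mean s f + mean s g := by
  rw [mean_eq hs, mean_eq hs, mean_eq hs, sum_add_distrib, add_div]

lemma mean_smul {α : Type*} {s : Set α} (hs : s.Finite) (c : ℝ) (f : α → ℝ) : mean s (fun y => c * f y) = c * mean s f := by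
  rw [mean_eq hs, mean_eq hs, ← mul_sum, mul_div_assoc]

lemma mean_abs_le {α : Type*} {s : Set α} (hs : s.Finite) (f : α → ℝ) (B : ℝ) (hB : 0 ≤ B) (h : ∀ y ∈ s, |f y| ≤ B) : |mean s f| ≤ B := by
  rw [mean_eq hs, abs_div, abs_of_nonneg (Nat.cast_nonneg (α := ℝ) hs.toFinset.card)]
  by_cases h0 : hs.toFinset.card = 0
  · simp [h0, hB]
  · have h1 : (0 : ℝ) < hs.toFinset.card := by exact_mod_cast Nat.pos_of_ne_zero h0
    rw [div_le_iff₀ h1]
    calc |∑ y ∈ hs.toFinset, f y| ≤ ∑ y ∈ hs.toFinset, |f y| := abs_sum_le_sum_abs _ _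
      _ ≤ ∑ _y ∈ hs.toFinset, B := sum_le_sum (fun y hy => h y (by simpa using hy))
      _ = B * hs.toFinset.card := by rw [sum_const, nsmul_eq_mul]; ring

lemma mean_const {α : Type*} {s : Set α} (hs : s.Finite) (hne : s.Nonempty) (c : ℝ) : mean s (fun _ => c) = c := by
  rw [mean_eq hs, sum_const, nsmul_eq_mul]
  have : (0 : ℝ) < hs.toFinset.card := by
    exact_mod_cast card_pos.2 (by simpa using hne)
  field_simp

section top

variable {ι : Type*} [Fintype ι] {Y : ι → Type*} [∀ j, TopologicalSpace (Y j)] [∀ j, T2Space (Y j)] [∀ j, LocallyCompactSpace (Y j)]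
  [∀ j, SecondCountableTopology (Y j)] [∀ j, MeasurableSpace (Y j)] [∀ j, BorelSpace (Y j)]

/-- convergence of the means over finite sets: tensor products of functions continuous at infinity are enough -/
theorem tendsto_mean (m : ∀ j, Measure (Y j)) [∀ j, IsProbabilityMeasure (m j)] (P : ℕ → Set (∀ j, Y j)) (hP : ∀ i, (P i).Finite)
    (h : ∀ g : ∀ j, C(OnePoint (Y j), ℝ), Tendsto (fun i => mean (P i) (fun y => ∏ j, g j (y j))) atTop
      (𝓝 (∏ j, ∫ y, g j (y : OnePoint (Y j)) ∂(m j))))
    (f : (∀ j, Y j) → ℝ) (hf : Continuous f) (hfs : HasCompactSupport f) :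
    Tendsto (fun i => mean (P i) f) atTop (𝓝 (∫ y, f y ∂(Measure.pi m))) := by
  classical
  obtain ⟨e, he⟩ : ∃ e : (∀ j, Y j) → (∀ j, OnePoint (Y j)), e = Pi.map (fun j => ((↑) : Y j → OnePoint (Y j))) := ⟨_, rfl⟩
  have hemb : IsOpenEmbedding e := by
    rw [he]
    exact Topology.IsOpenEmbedding.piMap (fun j => OnePoint.isOpenEmbedding_coe)
  have hint : ∀ F : C((∀ j, OnePoint (Y j)), ℝ), Integrable (fun y => F (e y)) (Measure.pi m) := by
    intro F
    apply Integrable.of_bound (C := ‖F‖) ((F.continuous.comp hemb.continuous).aestronglyMeasurable)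
    exact Eventually.of_forall (fun y => F.norm_coe_le_norm (e y))
  let L : ℕ → (C((∀ j, OnePoint (Y j)), ℝ) →ₗ[ℝ] ℝ) := fun i =>
    { toFun := fun F => mean (P i) (fun y => F (e y))
      map_add' := fun F G => mean_add (hP i) _ _
      map_smul' := fun c F => mean_smul (hP i) c _ }
  let L0 : C((∀ j, OnePoint (Y j)), ℝ) →ₗ[ℝ] ℝ :=
    { toFun := fun F => ∫ y, F (e y) ∂(Measure.pi m)
      map_add' := fun F G => integral_add (hint F) (hint G)
      map_smul' := fun c F => integral_const_mul c _ }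
  have hF : Continuous (e.extend f 0) := continuous_extend hemb hf hfs
  have key := tendsto_of_tens L L0 (fun i F => mean_abs_le (hP i) _ _ (norm_nonneg F) (fun y _ => F.norm_coe_le_norm (e y)))
    (fun F => by
      have h1 := norm_integral_le_of_norm_le_const (μ := Measure.pi m) (C := ‖F‖) (f := fun y => F (e y))
        (Eventually.of_forall (fun y => F.norm_coe_le_norm (e y)))
      have h2 : |∫ y, F (e y) ∂(Measure.pi m)| ≤ ‖F‖ := by simpa using h1
      exact h2)
    (fun g => by
      have h1 := h g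
      have h2 : ∀ y : ∀ j, Y j, (∏ j, co j (g j)) (e y) = ∏ j, g j (y j) := by
        intro y
        rw [ContinuousMap.prod_apply, he]
        rfl
      show Tendsto (fun i => mean (P i) (fun y => (∏ j, co j (g j)) (e y))) atTop (𝓝 (∫ y, (∏ j, co j (g j)) (e y) ∂(Measure.pi m)))
      simp_rw [h2]
      rw [integral_fintype_prod_eq_prod (fun j => fun y : Y j => g j (y : OnePoint (Y j)))]
      exact h1) ⟨e.extend f 0, hF⟩
  have h3 : ∀ y, e.extend f 0 (e y) = f y := fun y => hemb.injective.extend_apply _ _ _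
  have h4 : Tendsto (fun i => mean (P i) (fun y => e.extend f 0 (e y))) atTop (𝓝 (∫ y, e.extend f 0 (e y) ∂(Measure.pi m))) := key
  simp_rw [h3] at h4
  exact h4

end top

/-- a function continuous at infinity is uniformly close to a constant plus a function with compact support -/
lemma exists_compact_approx {Y : Type*} [TopologicalSpace Y] [T2Space Y] [LocallyCompactSpace Y] (g : C(OnePoint Y, ℝ)) (ε : ℝ) (hε : 0 < ε) :
    ∃ f : Y → ℝ, Continuous f ∧ HasCompactSupport f ∧ ∀ y : Y, |g (y : OnePoint Y) - g OnePoint.infty - f y| ≤ ε := by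
  obtain ⟨u, hu⟩ : ∃ u : Y → ℝ, u = fun y : Y => g (y : OnePoint Y) - g OnePoint.infty := ⟨_, rfl⟩
  have huc : Continuous u := by
    rw [hu]
    exact (g.continuous.comp OnePoint.continuous_coe).sub continuous_const
  refine ⟨fun y => max (u y - ε) 0 + min (u y + ε) 0, ((huc.sub continuous_const).max continuous_const).add
    ((huc.add continuous_const).min continuous_const), ?_, ?_⟩
  · have hopen : IsOpen {z : OnePoint Y | |g z - g OnePoint.infty| < ε} :=
      isOpen_lt ((g.continuous.sub continuous_const).abs) continuous_const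
    have hcl : IsClosed {z : OnePoint Y | |g z - g OnePoint.infty| < ε}ᶜ := hopen.isClosed_compl
    have hinf : OnePoint.infty ∉ ({z : OnePoint Y | |g z - g OnePoint.infty| < ε}ᶜ) := by
      simp [hε]
    have hcomp : IsCompact (((↑) : Y → OnePoint Y) ⁻¹' ({z : OnePoint Y | |g z - g OnePoint.infty| < ε}ᶜ)) := by
      have := (OnePoint.isOpen_iff_of_mem (s := {z : OnePoint Y | |g z - g OnePoint.infty| < ε}) (by simp [hε])).1 hopen
      have h2 := this.2
      rw [Set.preimage_compl]
      exact h2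
    apply HasCompactSupport.intro hcomp
    intro y hy
    simp only [Set.mem_preimage, Set.mem_compl_iff, Set.mem_ofPred_eq, not_not] at hy
    have h1 : |u y| < ε := by rw [hu]; exact hy
    rw [abs_lt] at h1
    rw [max_eq_right (by linarith), min_eq_right (by linarith)]
    norm_num
  · intro y
    have e1 : g (y : OnePoint Y) - g OnePoint.infty = u y := by rw [hu]
    rw [e1, abs_le]
    show -ε ≤ u y - (max (u y - ε) 0 + min (u y + ε) 0) ∧ u y - (max (u y - ε) 0 + min (u y + ε) 0) ≤ ε
    rcases le_total (u y - ε) 0 with h1 | h1 <;> rcases le_total (u y + ε) 0 with h2 | h2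
    · rw [max_eq_right h1, min_eq_left h2]; constructor <;> linarith
    · rw [max_eq_right h1, min_eq_right h2]; constructor <;> linarith
    · rw [max_eq_left h1, min_eq_left h2]; constructor <;> linarith
    · rw [max_eq_left h1, min_eq_right h2]; constructor <;> linarith

end Pool.Agent.Run7.h762.EQ
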