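import Pool.Agent.Run7.h762.EQ.B
import Pool.Agent.Run7.h762.EQ.D

/-!
# The orbits of a subgroup on a product are unions of product sets
-/

set_option autoImplicit false

open Finset

namespace Pool.Agent.Run7.h762.EQ

section group

variable {G : Type*} [Group G] {ι : Type*} [Fintype ι] [DecidableEq ι] {S : ι → Type*}
variable {H E : Subgroup G} {K : ι → Subgroup G} {a : ∀ j, G → S j → S j} {O : ∀ j, Set (S j)}

lemma mem_EK {σ : G} (hσ : σ ∈ E ⊓ ⨅ l, K l) (j : ι) : σ ∈ E ⊓ K j :=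
  ⟨(Subgroup.mem_inf.1 hσ).1, Subgroup.mem_iInf.1 (Subgroup.mem_inf.1 hσ).2 j⟩

/-- the elements of `M` which move only the coordinate `j` of `y`, by a power -/
def Sys.isoSub (h : Sys H E K a O) (M : Subgroup G) (j : ι) (y : ∀ l, S l) (hy : ∀ l, y l ∈ O l) : Subgroup G where
  carrier := {σ | (σ ∈ M ∧ σ ∈ E ⊓ ⨅ l, K l) ∧ σ ∈ h.powSub j (y j) (hy j) (2 ^ Fintype.card ι) ∧ ∀ l, l ≠ j → a l σ (y l) = y l}
  one_mem' := ⟨⟨M.one_mem, Subgroup.one_mem _⟩, Subgroup.one_mem _, fun l _ => h.one l _⟩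
  mul_mem' := by
    rintro σ ρ ⟨⟨h1, h2⟩, h3, h4⟩ ⟨⟨k1, k2⟩, k3, k4⟩
    refine ⟨⟨M.mul_mem h1 k1, Subgroup.mul_mem _ h2 k2⟩, Subgroup.mul_mem _ h3 k3, fun l hl => ?_⟩
    rw [h.mul l _ (h.EH h2.1) _ (h.EH k2.1), k4 l hl, h4 l hl]
  inv_mem' := by
    rintro σ ⟨⟨h1, h2⟩, h3, h4⟩
    refine ⟨⟨M.inv_mem h1, Subgroup.inv_mem _ h2⟩, Subgroup.inv_mem _ h3, fun l hl => ?_⟩
    have := h.inv_act l (h.EH h2.1) (y l)
    rw [h4 l hl] at this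
    exact this

lemma Sys.mem_isoSub (h : Sys H E K a O) (M : Subgroup G) (j : ι) (y : ∀ l, S l) (hy : ∀ l, y l ∈ O l) (σ : G) :
    σ ∈ h.isoSub M j y hy ↔ (σ ∈ M ∧ σ ∈ E ⊓ ⨅ l, K l) ∧ σ ∈ h.powSub j (y j) (hy j) (2 ^ Fintype.card ι) ∧
      ∀ l, l ≠ j → a l σ (y l) = y l := Iff.rfl

/-- the elements which act on the coordinate `j` of `y` as such elements -/
def Sys.oneSub (h : Sys H E K a O) (M : Subgroup G) (j : ι) (y : ∀ l, S l) (hy : ∀ l, y l ∈ O l) : Subgroup G where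
  carrier := {σ | σ ∈ E ⊓ K j ∧ ∃ ρ ∈ h.isoSub M j y hy, a j σ (y j) = a j ρ (y j)}
  one_mem' := ⟨Subgroup.one_mem _, 1, Subgroup.one_mem _, rfl⟩
  mul_mem' := by
    rintro σ σ' ⟨hσ, ρ, hρ, h1⟩ ⟨hσ', ρ', hρ', h2⟩
    refine ⟨Subgroup.mul_mem _ hσ hσ', ρ' * ρ, Subgroup.mul_mem _ hρ' hρ, ?_⟩
    have e1 : ρ ∈ E ⊓ K j := mem_EK hρ.1.2 j
    have e2 : ρ' ∈ E ⊓ K j := mem_EK hρ'.1.2 j
    rw [h.mul j _ (h.inH hσ) _ (h.inH hσ'), h2, ← h.mul j _ (h.inH hσ) _ (h.inH e2), h.comm j hσ e2 (hy j),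
      h.mul j _ (h.inH e2) _ (h.inH hσ), h1, ← h.mul j _ (h.inH e2) _ (h.inH e1)]
  inv_mem' := by
    rintro σ ⟨hσ, ρ, hρ, h1⟩
    have e1 : ρ ∈ E ⊓ K j := mem_EK hρ.1.2 j
    have hσi : σ⁻¹ ∈ E ⊓ K j := Subgroup.inv_mem _ hσ
    have e1i : ρ⁻¹ ∈ E ⊓ K j := Subgroup.inv_mem _ e1
    refine ⟨hσi, ρ⁻¹, Subgroup.inv_mem _ hρ, ?_⟩
    calc a j σ⁻¹ (y j) = a j σ⁻¹ (a j ρ⁻¹ (a j ρ (y j))) := by rw [h.inv_act j (h.inH e1)]
      _ = a j σ⁻¹ (a j ρ⁻¹ (a j σ (y j))) := by rw [h1]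
      _ = a j (ρ⁻¹ * σ⁻¹) (a j σ (y j)) := by
          rw [← h.mul j _ (h.inH hσi) _ (h.inH e1i), h.comm j hσi e1i (h.stab j σ (h.inH hσ) _ (hy j))]
      _ = a j ρ⁻¹ (y j) := by
          rw [h.mul j _ (h.inH e1i) _ (h.inH hσi), h.inv_act j (h.inH hσ)]

lemma Sys.mem_oneSub (h : Sys H E K a O) (M : Subgroup G) (j : ι) (y : ∀ l, S l) (hy : ∀ l, y l ∈ O l) (σ : G) :
    σ ∈ h.oneSub M j y hy ↔ σ ∈ E ⊓ K j ∧ ∃ ρ ∈ h.isoSub M j y hy, a j σ (y j) = a j ρ (y j) := Iff.rfl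

/-- the orbit of the coordinate `j` -/
def Sys.cls (h : Sys H E K a O) (M : Subgroup G) (j : ι) (y : ∀ l, S l) (hy : ∀ l, y l ∈ O l) : Set (S j) :=
  {z | ∃ σ ∈ h.oneSub M j y hy, a j σ (y j) = z}

lemma Sys.cls_eq (h : Sys H E K a O) (M : Subgroup G) (j : ι) (y : ∀ l, S l) (hy : ∀ l, y l ∈ O l) :
    h.cls M j y hy = {z | ∃ ρ ∈ h.isoSub M j y hy, a j ρ (y j) = z} := by
  ext z
  constructor
  · rintro ⟨σ, ⟨-, ρ, hρ, h1⟩, h2⟩
    exact ⟨ρ, hρ, by rw [← h1, h2]⟩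
  · rintro ⟨ρ, hρ, h1⟩
    exact ⟨ρ, ⟨mem_EK hρ.1.2 j, ρ, hρ, rfl⟩, h1⟩

/-- the index of these subgroups -/
lemma Sys.oneSub_index (h : Sys H E K a O) (M : Subgroup G) (hM : M.index ≠ 0) (j : ι) (y : ∀ l, S l) (hy : ∀ l, y l ∈ O l) (T : Finset G)
    (hT : ∀ t ∈ T, t ∈ E ⊓ K j) (hTr : ∀ σ ∈ E ⊓ K j, ∃ t ∈ T, ∃ b ∈ E ⊓ K j, a j σ (y j) = a j (t * b ^ 2) (y j))
    (hE : (E ⊓ K j).index ≠ 0) : (h.oneSub M j y hy).index ≠ 0 ∧
      (h.oneSub M j y hy).index ≤ M.index * (T.card ^ Fintype.card ι * (E ⊓ K j).index) := by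
  classical
  obtain ⟨P, hP⟩ : ∃ P, P = h.powSub j (y j) (hy j) (2 ^ Fintype.card ι) := ⟨_, rfl⟩
  obtain ⟨Q, hQ⟩ : ∃ Q, Q = h.oneSub M j y hy := ⟨_, rfl⟩
  have hQP : Q ≤ P := by
    rw [hQ, hP]
    rintro σ ⟨h1, ρ, hρ, h2⟩
    obtain ⟨-, b, hb, h3⟩ := hρ.2.1
    exact ⟨h1, b, hb, by rw [h2, h3]⟩
  have hPm : ∀ g ∈ P, g ∈ E ⊓ K j ∧ ∃ b ∈ E ⊓ K j, a j g (y j) = a j (b ^ (2 ^ Fintype.card ι)) (y j) := by
    intro g hg
    rw [hP] at hg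
    exact hg
  have hidx := h.powSub_index j (hy j) T hT hTr (Fintype.card ι) hE
  rw [← hP] at hidx
  have hcard : (univ.erase j).card + 1 = Fintype.card ι := by
    rw [card_erase_of_mem (mem_univ j), card_univ]
    have : 0 < Fintype.card ι := Fintype.card_pos_iff.2 ⟨j⟩
    omega
  have hiso : ∀ σ : P, ∃ ρ ∈ E ⊓ ⨅ l, K l, a j ρ (y j) = a j σ (y j) ∧ ∀ l, l ≠ j → a l ρ (y l) = y l := by
    rintro ⟨σ, hσ⟩
    rw [hP] at hσ
    obtain ⟨hσ1, b, hb, h1⟩ := hσ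
    obtain ⟨ρ, hρ, h2, h3⟩ := h.iso j hb y hy (univ.erase j) (by simp)
    rw [hcard] at h2
    exact ⟨ρ, hρ, by rw [h2, h1], fun l hl => h3 l (mem_erase.2 ⟨hl, mem_univ l⟩)⟩
  choose r hr1 hr2 hr3 using hiso
  haveI hMf : M.FiniteIndex := ⟨hM⟩
  have hfin : Finite (G ⧸ M) := inferInstance
  let f : P ⧸ Q.subgroupOf P → G ⧸ M := fun q => QuotientGroup.mk (r q.out)
  have hf : Function.Injective f := by
    intro q q' hqq
    have h1 : (r q.out)⁻¹ * r q'.out ∈ M := QuotientGroup.eq.1 hqq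
    have hq : QuotientGroup.mk q.out = q := Quotient.out_eq' q
    have hq' : QuotientGroup.mk q'.out = q' := Quotient.out_eq' q'
    rw [← hq, ← hq', QuotientGroup.eq, Subgroup.mem_subgroupOf]
    suffices hsuf : ((q.out : P) : G)⁻¹ * ((q'.out : P) : G) ∈ h.oneSub M j y hy by
      rw [← hQ] at hsuf
      exact hsuf
    have hs1 : ((q.out : P) : G) ∈ E ⊓ K j := (hPm _ q.out.2).1
    have hs2 : ((q'.out : P) : G) ∈ E ⊓ K j := (hPm _ q'.out.2).1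
    have hr1' := mem_EK (hr1 q.out) j
    have hr2' := mem_EK (hr1 q'.out) j
    have key : a j (((q.out : P) : G)⁻¹ * ((q'.out : P) : G)) (y j) = a j ((r q.out)⁻¹ * r q'.out) (y j) := by
      rw [h.mul j _ (H.inv_mem (h.inH hs1)) _ (h.inH hs2), h.mul j _ (H.inv_mem (h.inH hr1')) _ (h.inH hr2'), hr2 q'.out]
      obtain ⟨w, hw⟩ : ∃ w, w = a j ((q'.out : P) : G) (y j) := ⟨_, rfl⟩
      rw [← hw]
      have hwO : w ∈ O j := by rw [hw]; exact h.stab j _ (h.inH hs2) _ (hy j)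
      have e3 : a j (r q.out) w = a j ((q.out : P) : G) w := by
        rw [hw, ← h.mul j _ (h.inH hr1') _ (h.inH hs2), h.comm j hr1' hs2 (hy j), h.mul j _ (h.inH hs2) _ (h.inH hr1'), hr2 q.out,
          ← h.mul j _ (h.inH hs2) _ (h.inH hs1), h.comm j hs2 hs1 (hy j), h.mul j _ (h.inH hs1) _ (h.inH hs2)]
      have hwi : a j ((q.out : P) : G)⁻¹ w ∈ O j := h.stab j _ (H.inv_mem (h.inH hs1)) _ hwO
      calc a j ((q.out : P) : G)⁻¹ w = a j ((q.out : P) : G)⁻¹ (a j (r q.out)⁻¹ (a j (r q.out) w)) := by rw [h.inv_act j (h.inH hr1')]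
        _ = a j ((q.out : P) : G)⁻¹ (a j (r q.out)⁻¹ (a j ((q.out : P) : G) w)) := by rw [e3]
        _ = a j ((r q.out)⁻¹ * ((q.out : P) : G)⁻¹) (a j ((q.out : P) : G) w) := by
            rw [← h.mul j _ (H.inv_mem (h.inH hs1)) _ (H.inv_mem (h.inH hr1')),
              h.comm j (Subgroup.inv_mem _ hs1) (Subgroup.inv_mem _ hr1') (h.stab j _ (h.inH hs1) _ hwO)]
        _ = a j (r q.out)⁻¹ w := by
            rw [h.mul j _ (H.inv_mem (h.inH hr1')) _ (H.inv_mem (h.inH hs1)), h.inv_act j (h.inH hs1)]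
    refine ⟨Subgroup.mul_mem _ (Subgroup.inv_mem _ hs1) hs2, (r q.out)⁻¹ * r q'.out, ⟨⟨h1, ?_⟩, ?_, ?_⟩, key⟩
    · exact Subgroup.mul_mem _ (Subgroup.inv_mem _ (hr1 q.out)) (hr1 q'.out)
    · obtain ⟨-, b, hb, h3⟩ := hPm _ (P.mul_mem (P.inv_mem q.out.2) q'.out.2)
      exact ⟨Subgroup.mul_mem _ (Subgroup.inv_mem _ hr1') hr2', b, hb, by rw [← key, h3]⟩
    · intro l hl
      have g1 := mem_EK (hr1 q.out) l
      have g2 := mem_EK (hr1 q'.out) l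
      rw [h.mul l _ (H.inv_mem (h.inH g1)) _ (h.inH g2), hr3 q'.out l hl]
      have := h.inv_act l (h.inH g1) (y l)
      rw [hr3 q.out l hl] at this
      exact this
  have hfin2 : Finite (P ⧸ Q.subgroupOf P) := Finite.of_injective f hf
  have hrel : Q.relIndex P = Nat.card (P ⧸ Q.subgroupOf P) := rfl
  have hrel1 : Q.relIndex P ≤ M.index := by
    rw [hrel]
    exact Nat.card_le_card_of_injective f hf
  have hrel0 : Q.relIndex P ≠ 0 := by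
    rw [hrel]
    exact Nat.card_pos.ne'
  have h2 := Subgroup.relIndex_mul_index hQP
  rw [← hQ, ← h2]
  exact ⟨mul_ne_zero hrel0 hidx.1, Nat.mul_le_mul hrel1 hidx.2⟩

/-- the isolated elements do not change along the orbits of the abelian group -/
lemma Sys.isoSub_mono (h : Sys H E K a O) (M : Subgroup G) (j : ι) (y : ∀ l, S l) (hy : ∀ l, y l ∈ O l) (w : ∀ l, S l) (hw : ∀ l, w l ∈ O l)
    {ρ : G} (hρ : ρ ∈ E ⊓ ⨅ l, K l) (hyw : ∀ l, a l ρ (y l) = w l) : h.isoSub M j y hy ≤ h.isoSub M j w hw := by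
  rintro σ ⟨⟨h1, h2⟩, h3, h4⟩
  obtain ⟨h3a, b, hb, h5⟩ := h3
  have hρj := mem_EK hρ j
  have hbk : b ^ (2 ^ Fintype.card ι) ∈ E ⊓ K j := Subgroup.pow_mem _ hb _
  refine ⟨⟨h1, h2⟩, ⟨h3a, b, hb, ?_⟩, ?_⟩
  · rw [← hyw j, ← h.mul j _ (h.inH h3a) _ (h.inH hρj), h.comm j h3a hρj (hy j), h.mul j _ (h.inH hρj) _ (h.inH h3a), h5,
      ← h.mul j _ (h.inH hρj) _ (h.inH hbk), h.comm j hρj hbk (hy j), h.mul j _ (h.inH hbk) _ (h.inH hρj)]
  · intro l hl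
    have g1 := mem_EK hρ l
    have g2 := mem_EK h2 l
    rw [← hyw l, ← h.mul l _ (h.inH g2) _ (h.inH g1), h.comm l g2 g1 (hy l), h.mul l _ (h.inH g1) _ (h.inH g2), h4 l hl]

/-- a tuple of points of the classes is in the orbit -/
lemma Sys.combine (h : Sys H E K a O) (M : Subgroup G) (y : ∀ l, S l) (hy : ∀ l, y l ∈ O l) (w : ∀ l, S l)
    (hw : ∀ j, w j ∈ h.cls M j y hy) : ∃ ρ, ρ ∈ M ∧ ρ ∈ E ⊓ ⨅ l, K l ∧ ∀ l, a l ρ (y l) = w l := by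
  have hw' : ∀ j, ∃ ρ ∈ h.isoSub M j y hy, a j ρ (y j) = w j := by
    intro j
    have := hw j
    rw [h.cls_eq] at this
    exact this
  choose r hr1 hr2 using hw'
  have key : ∀ t : Finset ι, ∃ ρ, (ρ ∈ M ∧ ρ ∈ E ⊓ ⨅ l, K l) ∧ (∀ l ∈ t, a l ρ (y l) = w l) ∧ ∀ l ∉ t, a l ρ (y l) = y l := by
    intro t
    induction t using Finset.induction_on with
    | empty => exact ⟨1, ⟨M.one_mem, Subgroup.one_mem _⟩, by simp, fun l _ => h.one l _⟩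
    | insert j t hjt ih =>
      obtain ⟨ρ, ⟨hM, hρ⟩, h1, h2⟩ := ih
      obtain ⟨⟨k1, k2⟩, k3, k4⟩ := hr1 j
      refine ⟨r j * ρ, ⟨M.mul_mem k1 hM, Subgroup.mul_mem _ k2 hρ⟩, ?_, ?_⟩
      · intro l hl
        have g1 := mem_EK k2 l
        have g2 := mem_EK hρ l
        rw [h.mul l _ (h.inH g1) _ (h.inH g2)]
        by_cases hlj : l = j
        · subst hlj
          rw [h2 l hjt, hr2 l]
        · have hlt : l ∈ t := (mem_insert.1 hl).resolve_left hlj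
          rw [← h.mul l _ (h.inH g1) _ (h.inH g2), h.comm l g1 g2 (hy l), h.mul l _ (h.inH g2) _ (h.inH g1), k4 l hlj, h1 l hlt]
      · intro l hl
        rw [mem_insert, not_or] at hl
        have g1 := mem_EK k2 l
        have g2 := mem_EK hρ l
        rw [h.mul l _ (h.inH g1) _ (h.inH g2), h2 l hl.2, k4 l hl.1]
  obtain ⟨ρ, ⟨h1, h2⟩, h3, -⟩ := key univ
  exact ⟨ρ, h1, h2, fun l => h3 l (mem_univ l)⟩

omit [DecidableEq ι] in
lemma abs_prod_sub_prod_le (s : Finset ι) (u v : ι → ℝ) (B ε : ℝ) (hB : 1 ≤ B) (hu : ∀ j, |u j| ≤ B) (hv : ∀ j, |v j| ≤ B)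
    (h : ∀ j, |u j - v j| ≤ ε) : |∏ j ∈ s, u j - ∏ j ∈ s, v j| ≤ s.card * (B ^ s.card * ε) := by
  classical
  induction s using Finset.induction_on with
  | empty => simp
  | insert j s hjs ih =>
    rw [prod_insert hjs, prod_insert hjs, card_insert_of_notMem hjs]
    have hε : 0 ≤ ε := (abs_nonneg _).trans (h j)
    have e1 : u j * ∏ l ∈ s, u l - v j * ∏ l ∈ s, v l = (u j - v j) * ∏ l ∈ s, u l + v j * (∏ l ∈ s, u l - ∏ l ∈ s, v l) := by ring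
    have e2 : |∏ l ∈ s, u l| ≤ B ^ s.card := by
      rw [abs_prod]
      calc ∏ l ∈ s, |u l| ≤ ∏ _l ∈ s, B := prod_le_prod (fun l _ => abs_nonneg _) (fun l _ => hu l)
        _ = B ^ s.card := by rw [prod_const]
    have hBs : (0 : ℝ) ≤ B ^ s.card := by positivity
    rw [e1]
    calc |(u j - v j) * ∏ l ∈ s, u l + v j * (∏ l ∈ s, u l - ∏ l ∈ s, v l)|
        ≤ |(u j - v j) * ∏ l ∈ s, u l| + |v j * (∏ l ∈ s, u l - ∏ l ∈ s, v l)| := abs_add_le _ _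
      _ ≤ ε * B ^ s.card + B * (s.card * (B ^ s.card * ε)) := by
          rw [abs_mul, abs_mul]
          exact add_le_add (mul_le_mul (h j) e2 (abs_nonneg _) hε) (mul_le_mul (hv j) ih (abs_nonneg _) (by linarith))
      _ ≤ B * (ε * B ^ s.card) + B * (s.card * (B ^ s.card * ε)) := by
          have : 0 ≤ ε * B ^ s.card := by positivity
          nlinarith
      _ = ((s.card + 1 : ℕ) : ℝ) * (B ^ (s.card + 1) * ε) := by push_cast; ring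

/-- the mean over the orbit of a subgroup of a product of functions -/
theorem Sys.mean_orbit (h : Sys H E K a O) (M : Subgroup G) (hMH : M ≤ H) (x : ∀ l, S l) (hx : ∀ l, x l ∈ O l)
    (hfin : ∀ j, (O j).Finite) (g : ∀ j, S j → ℝ) (c : ι → ℝ) (B ε : ℝ) (hB : 1 ≤ B) (hg : ∀ j y, |g j y| ≤ B) (hc : ∀ j, |c j| ≤ B)
    (hmean : ∀ (y : ∀ l, S l) (hy : ∀ l, y l ∈ O l), ∀ j, |mean (h.cls M j y hy) (g j) - c j| ≤ ε) :
    |mean {w : ∀ l, S l | ∃ σ ∈ M, ∀ l, a l σ (x l) = w l} (fun w => ∏ j, g j (w j)) - ∏ j, c j| ≤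
      Fintype.card ι * (B ^ Fintype.card ι * ε) := by
  classical
  obtain ⟨s, hs⟩ : ∃ s : Set (∀ l, S l), s = {w : ∀ l, S l | ∃ σ ∈ M, ∀ l, a l σ (x l) = w l} := ⟨_, rfl⟩
  have hsO : ∀ w ∈ s, ∀ l, w l ∈ O l := by
    intro w hw l
    rw [hs] at hw
    obtain ⟨σ, hσ, h1⟩ := hw
    rw [← h1 l]
    exact h.stab l σ (hMH hσ) _ (hx l)
  have hsfin : s.Finite := by
    apply (Set.Finite.pi' hfin).subset
    intro w hw
    exact fun l => hsO w hw l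
  have hsne : s.Nonempty := ⟨x, by rw [hs]; exact ⟨1, M.one_mem, fun l => h.one l _⟩⟩
  rw [← hs]
  let R : (∀ l, S l) → (∀ l, S l) → Prop := fun y w => ∃ hy : ∀ l, y l ∈ O l, ∀ j, w j ∈ h.cls M j y hy
  have hRmem : ∀ y ∈ s, ∀ w, R y w → w ∈ s := by
    rintro y hy w ⟨hyO, hw⟩
    obtain ⟨ρ, hρM, hρ, h1⟩ := h.combine M y hyO w hw
    rw [hs] at hy ⊢
    obtain ⟨σ, hσ, h2⟩ := hy
    refine ⟨ρ * σ, M.mul_mem hρM hσ, fun l => ?_⟩
    rw [h.mul l _ (hMH hρM) _ (hMH hσ), h2, h1]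
  have hsame : ∀ y w (hy : ∀ l, y l ∈ O l) (hw : ∀ l, w l ∈ O l), (∀ j, w j ∈ h.cls M j y hy) → ∀ j, h.cls M j w hw = h.cls M j y hy := by
    intro y w hy hw hyw j
    obtain ⟨ρ, hρM, hρ, h1⟩ := h.combine M y hy w hyw
    have hρi : ρ⁻¹ ∈ E ⊓ ⨅ l, K l := Subgroup.inv_mem _ hρ
    have h1' : ∀ l, a l ρ⁻¹ (w l) = y l := by
      intro l
      rw [← h1 l, h.inv_act l (h.inH (mem_EK hρ l))]
    have e1 := h.isoSub_mono M j y hy w hw hρ h1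
    have e2 := h.isoSub_mono M j w hw y hy hρi h1'
    have e3 : h.isoSub M j w hw = h.isoSub M j y hy := le_antisymm e2 e1
    have hwj := hyw j
    rw [h.cls_eq] at hwj ⊢
    rw [h.cls_eq, e3]
    obtain ⟨r, hr, hr2⟩ := hwj
    have gr := mem_EK hr.1.2 j
    ext z
    constructor
    · rintro ⟨σ, hσ, h3⟩
      refine ⟨σ * r, Subgroup.mul_mem _ hσ hr, ?_⟩
      rw [h.mul j _ (h.inH (mem_EK hσ.1.2 j)) _ (h.inH gr), hr2, h3]
    · rintro ⟨σ, hσ, h3⟩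
      refine ⟨σ * r⁻¹, Subgroup.mul_mem _ hσ (Subgroup.inv_mem _ hr), ?_⟩
      rw [h.mul j _ (h.inH (mem_EK hσ.1.2 j)) _ (H.inv_mem (h.inH gr)), ← hr2, h.inv_act j (h.inH gr), h3]
  have hself : ∀ y (hy : ∀ l, y l ∈ O l), ∀ j, y j ∈ h.cls M j y hy := fun y hy j => ⟨1, Subgroup.one_mem _, h.one j _⟩
  apply mean_classes hsfin hsne R
  · intro y hy
    exact ⟨hsO y hy, hself y (hsO y hy)⟩
  · rintro y hy w hw ⟨hyO, hyw⟩
    refine ⟨hsO w hw, fun j => ?_⟩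
    rw [hsame y w hyO (hsO w hw) hyw j]
    exact hself y hyO j
  · rintro y hy z hz w hw ⟨hyO, hyz⟩ ⟨hzO, hzw⟩
    refine ⟨hyO, fun j => ?_⟩
    rw [← hsame y z hyO hzO hyz j]
    exact hzw j
  · intro y hy
    have hyO := hsO y hy
    have e1 : {z | z ∈ s ∧ R y z} = Set.pi Set.univ (fun j => h.cls M j y hyO) := by
      ext w
      constructor
      · rintro ⟨-, ⟨hyO', hw⟩⟩ j _
        exact hw j
      · intro hw
        have hR : R y w := ⟨hyO, fun j => hw j (Set.mem_univ j)⟩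
        exact ⟨hRmem y hy w hR, hR⟩
    have hclsO : ∀ j, h.cls M j y hyO ⊆ O j := by
      rintro j z ⟨σ, ⟨hσ, -⟩, h1⟩
      rw [← h1]
      exact h.stab j σ (h.inH hσ) _ (hyO j)
    have hclsfin : ∀ j, (h.cls M j y hyO).Finite := fun j => (hfin j).subset (hclsO j)
    rw [e1, mean_pi _ hclsfin]
    have h4 := abs_prod_sub_prod_le univ (fun j => mean (h.cls M j y hyO) (g j)) c B ε hB
      (fun j => mean_abs_le (hclsfin j) _ _ (by linarith) (fun z _ => hg j z)) hc (fun j => hmean y hyO j)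
    simpa using h4

end group

end Pool.Agent.Run7.h762.EQ
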