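import Mathlib

/-!
# Means over finite sets, and a group lemma which separates coordinates
-/

set_option autoImplicit false

open Finset

namespace Pool.Agent.Run7.h762.EQ

/-- the mean of `f` over the finite set `s` -/
noncomputable def mean {α : Type*} (s : Set α) (f : α → ℝ) : ℝ := (∑ᶠ y ∈ s, f y) / (s.ncard : ℝ)

lemma mean_eq {α : Type*} {s : Set α} (hs : s.Finite) (f : α → ℝ) :
    mean s f = (∑ y ∈ hs.toFinset, f y) / (hs.toFinset.card : ℝ) := by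
  unfold mean
  rw [finsum_mem_eq_finite_toFinset_sum _ hs, Set.ncard_eq_toFinset_card s hs]

/-- the mean over a set which is divided into classes -/
lemma mean_classes {α : Type*} {s : Set α} (hs : s.Finite) (hne : s.Nonempty) (R : α → α → Prop)
    (h1 : ∀ y ∈ s, R y y) (h2 : ∀ y ∈ s, ∀ z ∈ s, R y z → R z y)
    (h3 : ∀ y ∈ s, ∀ z ∈ s, ∀ w ∈ s, R y z → R z w → R y w) (f : α → ℝ) (c ε : ℝ)
    (h : ∀ y ∈ s, |mean {z | z ∈ s ∧ R y z} f - c| ≤ ε) : |mean s f - c| ≤ ε := by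
  classical
  obtain ⟨t, ht⟩ : ∃ t : Finset α, t = hs.toFinset := ⟨_, rfl⟩
  have hmem : ∀ y, y ∈ t ↔ y ∈ s := by intro y; rw [ht]; simp
  have hfin : ∀ y, ({z | z ∈ s ∧ R y z} : Set α).Finite := fun y => hs.subset (fun z hz => hz.1)
  have hcl : ∀ y, (hfin y).toFinset = t.filter (fun z => R y z) := by
    intro y
    ext z
    simp [hmem]
  have hcard : ∀ y ∈ t, ∀ z ∈ t, R y z → t.filter (fun w => R y w) = t.filter (fun w => R z w) := by
    intro y hy z hz hyz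
    ext w
    simp only [mem_filter]
    constructor
    · rintro ⟨hw, hyw⟩
      exact ⟨hw, h3 z ((hmem z).1 hz) y ((hmem y).1 hy) w ((hmem w).1 hw) (h2 y ((hmem y).1 hy) z ((hmem z).1 hz) hyz) hyw⟩
    · rintro ⟨hw, hzw⟩
      exact ⟨hw, h3 y ((hmem y).1 hy) z ((hmem z).1 hz) w ((hmem w).1 hw) hyz hzw⟩
  have hpos : ∀ y ∈ t, (0 : ℝ) < ((t.filter (fun z => R y z)).card : ℝ) := by
    intro y hy
    have : 0 < (t.filter (fun z => R y z)).card := card_pos.2 ⟨y, mem_filter.2 ⟨hy, h1 y ((hmem y).1 hy)⟩⟩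
    exact_mod_cast this
  have hsum : ∑ y ∈ t, mean {z | z ∈ s ∧ R y z} f = ∑ y ∈ t, f y := by
    have e1 : ∀ y ∈ t, mean {z | z ∈ s ∧ R y z} f =
        ∑ z ∈ t, (if R y z then f z / ((t.filter (fun w => R z w)).card : ℝ) else 0) := by
      intro y hy
      rw [mean_eq (hfin y), hcl y, sum_div, ← sum_filter]
      apply sum_congr rfl
      intro z hz
      rw [mem_filter] at hz
      rw [hcard y hy z hz.1 hz.2]
    rw [sum_congr rfl e1, sum_comm]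
    apply sum_congr rfl
    intro z hz
    rw [← sum_filter, sum_const, nsmul_eq_mul]
    have e2 : t.filter (fun y => R y z) = t.filter (fun y => R z y) := by
      ext w
      simp only [mem_filter]
      constructor
      · rintro ⟨hw, hwz⟩
        exact ⟨hw, h2 w ((hmem w).1 hw) z ((hmem z).1 hz) hwz⟩
      · rintro ⟨hw, hzw⟩
        exact ⟨hw, h2 z ((hmem z).1 hz) w ((hmem w).1 hw) hzw⟩
    rw [e2]
    have := hpos z hz
    field_simp
  have hcpos : (0 : ℝ) < (t.card : ℝ) := by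
    obtain ⟨y, hy⟩ := hne
    exact_mod_cast card_pos.2 ⟨y, (hmem y).2 hy⟩
  rw [mean_eq hs, ← ht, ← hsum]
  have e3 : (∑ y ∈ t, mean {z | z ∈ s ∧ R y z} f) / (t.card : ℝ) - c =
      (∑ y ∈ t, (mean {z | z ∈ s ∧ R y z} f - c)) / (t.card : ℝ) := by
    rw [sum_sub_distrib, sum_const, nsmul_eq_mul]
    field_simp
  rw [e3, abs_div, abs_of_pos hcpos, div_le_iff₀ hcpos]
  calc |∑ y ∈ t, (mean {z | z ∈ s ∧ R y z} f - c)| ≤ ∑ y ∈ t, |mean {z | z ∈ s ∧ R y z} f - c| := abs_sum_le_sum_abs _ _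
    _ ≤ ∑ _y ∈ t, ε := sum_le_sum (fun y hy => h y ((hmem y).1 hy))
    _ = ε * (t.card : ℝ) := by rw [sum_const, nsmul_eq_mul]; ring

/-- the mean of a product over a product set -/
lemma mean_pi {ι : Type*} [Fintype ι] [DecidableEq ι] {S : ι → Type*} (C : ∀ j, Set (S j)) (hC : ∀ j, (C j).Finite)
    (g : ∀ j, S j → ℝ) : mean (Set.pi Set.univ C) (fun y => ∏ j, g j (y j)) = ∏ j, mean (C j) (g j) := by
  classical
  have hfin : (Set.pi Set.univ C).Finite := Set.Finite.pi' hC |>.subset (by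
    intro y hy j
    exact hy j (Set.mem_univ j))
  have e1 : hfin.toFinset = Fintype.piFinset (fun j => (hC j).toFinset) := by
    ext y
    simp
  rw [mean_eq hfin, e1, Fintype.card_piFinset]
  have e2 : ∀ j, mean (C j) (g j) = (∑ y ∈ (hC j).toFinset, g j y) / ((hC j).toFinset.card : ℝ) := fun j => mean_eq (hC j) (g j)
  rw [prod_congr rfl (fun j _ => e2 j), prod_div_distrib, prod_univ_sum]
  push_cast
  rfl

section group

variable {G : Type*} [Group G] {ι : Type*} {S : ι → Type*}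

/-- a group acting on several sets, dihedral on each of them, with different signs -/
structure Sys (H E : Subgroup G) (K : ι → Subgroup G) (a : ∀ j, G → S j → S j) (O : ∀ j, Set (S j)) : Prop where
  EH : E ≤ H
  En : E.Normal
  Kn : ∀ j, (K j).Normal
  sq : ∀ j g, g * g ∈ K j
  one : ∀ j y, a j 1 y = y
  mul : ∀ j, ∀ σ ∈ H, ∀ τ ∈ H, ∀ y, a j (σ * τ) y = a j σ (a j τ y)
  stab : ∀ j, ∀ σ ∈ H, ∀ y ∈ O j, a j σ y ∈ O j
  dih1 : ∀ j, ∀ σ ∈ E ⊓ K j, ∀ τ ∈ K j, ∀ y ∈ O j, a j (τ * σ * τ⁻¹) y = a j σ y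
  dih2 : ∀ j, ∀ σ ∈ E ⊓ K j, ∀ τ, τ ∉ K j → ∀ y ∈ O j, a j (τ * σ * τ⁻¹) y = a j σ⁻¹ y
  sep : ∀ j l, j ≠ l → ∃ τ, (τ ∈ K j ∧ τ ∉ K l) ∨ (τ ∉ K j ∧ τ ∈ K l)

variable {H E : Subgroup G} {K : ι → Subgroup G} {a : ∀ j, G → S j → S j} {O : ∀ j, Set (S j)}

lemma Sys.comm (h : Sys H E K a O) (j : ι) {u v : G} (hu : u ∈ E ⊓ K j) (hv : v ∈ E ⊓ K j) {y : S j} (hy : y ∈ O j) :
    a j (u * v) y = a j (v * u) y := by
  have hvH := h.EH hv.1
  have huH := h.EH hu.1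
  have h1 := h.dih1 j u hu v hv.2 (a j v y) (h.stab j v hvH y hy)
  rw [← h.mul j (v * u * v⁻¹) (H.mul_mem (H.mul_mem hvH huH) (H.inv_mem hvH)) v hvH, ← h.mul j u huH v hvH] at h1
  rw [← h1]
  congr 1
  group

lemma Sys.inv_act (h : Sys H E K a O) (j : ι) {u : G} (hu : u ∈ H) (y : S j) : a j u⁻¹ (a j u y) = y := by
  rw [← h.mul j _ (H.inv_mem hu) _ hu, inv_mul_cancel, h.one]

lemma Sys.act_inv (h : Sys H E K a O) (j : ι) {u : G} (hu : u ∈ H) (y : S j) : a j u (a j u⁻¹ y) = y := by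
  rw [← h.mul j _ hu _ (H.inv_mem hu), mul_inv_cancel, h.one]

/-- one coordinate is moved by a power of `b`, the coordinates in `s` are fixed -/
lemma Sys.iso [DecidableEq ι] (h : Sys H E K a O) (j : ι) {b : G} (hb : b ∈ E ⊓ K j) (y : ∀ l, S l) (hy : ∀ l, y l ∈ O l) (s : Finset ι)
    (hjs : j ∉ s) : ∃ σ ∈ E ⊓ ⨅ l, K l, a j σ (y j) = a j (b ^ (2 ^ (s.card + 1))) (y j) ∧ ∀ l ∈ s, a l σ (y l) = y l := by
  have hbp : ∀ m : ℕ, b ^ m ∈ E ⊓ K j := fun m => Subgroup.pow_mem _ hb m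
  induction s using Finset.induction_on with
  | empty =>
    refine ⟨b * b, Subgroup.mem_inf.2 ⟨E.mul_mem hb.1 hb.1, Subgroup.mem_iInf.2 (fun l => h.sq l b)⟩, ?_, ?_⟩
    · simp [pow_two]
    · simp
  | insert l s hls ih =>
    rw [mem_insert, not_or] at hjs
    obtain ⟨hjl, hjs⟩ := hjs
    obtain ⟨σ, hσ, h1, h2⟩ := ih hjs
    obtain ⟨τ, hτ⟩ := h.sep j l hjl
    have hσE : σ ∈ E := hσ.1
    have hσK : ∀ m, σ ∈ K m := Subgroup.mem_iInf.1 (Subgroup.mem_inf.1 hσ).2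
    have hσH := h.EH hσE
    obtain ⟨κ, hκ⟩ : ∃ κ, κ = τ * σ * τ⁻¹ := ⟨_, rfl⟩
    have hκE : κ ∈ E := by rw [hκ]; exact h.En.conj_mem σ hσE τ
    have hκK : ∀ m, κ ∈ K m := fun m => by rw [hκ]; exact (h.Kn m).conj_mem σ (hσK m) τ
    have hκH := h.EH hκE
    have fixinv : ∀ m ∈ s, a m σ⁻¹ (y m) = y m := by
      intro m hm
      have h3 := h.inv_act m hσH (y m)
      rw [h2 m hm] at h3
      exact h3
    have κfix : ∀ m ∈ s, a m κ (y m) = y m := by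
      intro m hm
      by_cases hτm : τ ∈ K m
      · rw [hκ, h.dih1 m σ ⟨hσE, hσK m⟩ τ hτm (y m) (hy m), h2 m hm]
      · rw [hκ, h.dih2 m σ ⟨hσE, hσK m⟩ τ hτm (y m) (hy m), fixinv m hm]
    have κinvfix : ∀ m ∈ s, a m κ⁻¹ (y m) = y m := by
      intro m hm
      have h3 := h.inv_act m hκH (y m)
      rw [κfix m hm] at h3
      exact h3
    have hcard : (insert l s).card = s.card + 1 := card_insert_of_notMem hls
    have hdouble : a j σ (a j σ (y j)) = a j (b ^ (2 ^ ((insert l s).card + 1))) (y j) := by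
      rw [h1, ← h.mul j σ hσH _ (h.EH (hbp _).1), h.comm j ⟨hσE, hσK j⟩ (hbp _) (hy j),
        h.mul j _ (h.EH (hbp _).1) σ hσH, h1, ← h.mul j _ (h.EH (hbp _).1) _ (h.EH (hbp _).1), ← pow_add, hcard]
      congr 2
      ring
    rcases hτ with ⟨hτj, hτl⟩ | ⟨hτj, hτl⟩
    · refine ⟨σ * κ, Subgroup.mem_inf.2 ⟨E.mul_mem hσE hκE, Subgroup.mem_iInf.2 (fun m => (K m).mul_mem (hσK m) (hκK m))⟩, ?_, ?_⟩
      · rw [h.mul j σ hσH κ hκH, hκ, h.dih1 j σ ⟨hσE, hσK j⟩ τ hτj (y j) (hy j), hdouble]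
      · intro m hm
        rw [mem_insert] at hm
        rcases hm with rfl | hm
        · rw [h.mul m σ hσH κ hκH, hκ, h.dih2 m σ ⟨hσE, hσK m⟩ τ hτl (y m) (hy m), h.act_inv m hσH]
        · rw [h.mul m σ hσH κ hκH, κfix m hm, h2 m hm]
    · have hκi : κ⁻¹ = τ * σ⁻¹ * τ⁻¹ := by rw [hκ]; group
      have hσi : ∀ m, σ⁻¹ ∈ E ⊓ K m := fun m => ⟨E.inv_mem hσE, (K m).inv_mem (hσK m)⟩
      refine ⟨σ * κ⁻¹, Subgroup.mem_inf.2 ⟨E.mul_mem hσE (E.inv_mem hκE),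
        Subgroup.mem_iInf.2 (fun m => (K m).mul_mem (hσK m) ((K m).inv_mem (hκK m)))⟩, ?_, ?_⟩
      · rw [h.mul j σ hσH _ (H.inv_mem hκH), hκi, h.dih2 j σ⁻¹ (hσi j) τ hτj (y j) (hy j), inv_inv, hdouble]
      · intro m hm
        rw [mem_insert] at hm
        rcases hm with rfl | hm
        · rw [h.mul m σ hσH _ (H.inv_mem hκH), hκi, h.dih1 m σ⁻¹ (hσi m) τ hτl (y m) (hy m), h.act_inv m hσH]
        · rw [h.mul m σ hσH _ (H.inv_mem hκH), κinvfix m hm, h2 m hm]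

/-- all coordinates are moved by independent powers -/
lemma Sys.prod [Fintype ι] [DecidableEq ι] (h : Sys H E K a O) (y : ∀ l, S l) (hy : ∀ l, y l ∈ O l) (b : ι → G) (hb : ∀ j, b j ∈ E ⊓ K j) :
    ∃ σ ∈ E ⊓ ⨅ l, K l, ∀ j, a j σ (y j) = a j (b j ^ (2 ^ Fintype.card ι)) (y j) := by
  have key : ∀ t : Finset ι, ∃ σ ∈ E ⊓ ⨅ l, K l, (∀ j ∈ t, a j σ (y j) = a j (b j ^ (2 ^ Fintype.card ι)) (y j)) ∧
      ∀ j ∉ t, a j σ (y j) = y j := by
    intro t
    induction t using Finset.induction_on with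
    | empty =>
      refine ⟨1, Subgroup.one_mem _, by simp, fun j _ => h.one j _⟩
    | insert j t hjt ih =>
      obtain ⟨σ, hσ, h1, h2⟩ := ih
      obtain ⟨ρ, hρ, h3, h4⟩ := h.iso j (hb j) y hy (univ.erase j) (by simp)
      have hσH := h.EH hσ.1
      have hρH := h.EH hρ.1
      have hρK : ∀ m, ρ ∈ K m := Subgroup.mem_iInf.1 (Subgroup.mem_inf.1 hρ).2
      have hcard : (univ.erase j).card + 1 = Fintype.card ι := by
        rw [card_erase_of_mem (mem_univ j), card_univ]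
        have : 0 < Fintype.card ι := Fintype.card_pos_iff.2 ⟨j⟩
        omega
      rw [hcard] at h3
      refine ⟨ρ * σ, Subgroup.mul_mem _ hρ hσ, ?_, ?_⟩
      · intro m hm
        rw [mem_insert] at hm
        by_cases hmj : m = j
        · subst hmj
          rw [h.mul m ρ hρH σ hσH, h2 m hjt, h3]
        · have hmt : m ∈ t := hm.resolve_left hmj
          have hbp : b m ^ (2 ^ Fintype.card ι) ∈ E ⊓ K m := Subgroup.pow_mem _ (hb m) _
          rw [h.mul m ρ hρH σ hσH, h1 m hmt, ← h.mul m ρ hρH _ (h.EH hbp.1), h.comm m ⟨hρ.1, hρK m⟩ hbp (hy m),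
            h.mul m _ (h.EH hbp.1) ρ hρH, h4 m (mem_erase.2 ⟨hmj, mem_univ m⟩)]
      · intro m hm
        rw [mem_insert, not_or] at hm
        rw [h.mul m ρ hρH σ hσH, h2 m hm.2, h4 m (mem_erase.2 ⟨hm.1, mem_univ m⟩)]
  obtain ⟨σ, hσ, h1, -⟩ := key univ
  exact ⟨σ, hσ, fun j => h1 j (mem_univ j)⟩

end group

end Pool.Agent.Run7.h762.EQ
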