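import Pool.Agent.Run7.h762.EQ.A

/-!
# The subgroups of the elements which act on a coordinate as powers
-/

set_option autoImplicit false

open Finset

namespace Pool.Agent.Run7.h762.EQ

section group

variable {G : Type*} [Group G] {ι : Type*} {S : ι → Type*}
variable {H E : Subgroup G} {K : ι → Subgroup G} {a : ∀ j, G → S j → S j} {O : ∀ j, Set (S j)}

lemma Sys.inH (h : Sys H E K a O) {j : ι} {u : G} (hu : u ∈ E ⊓ K j) : u ∈ H := h.EH hu.1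

lemma Sys.mul_pow (h : Sys H E K a O) (j : ι) {u v : G} (hu : u ∈ E ⊓ K j) (hv : v ∈ E ⊓ K j) (k : ℕ) :
    ∀ y ∈ O j, a j ((u * v) ^ k) y = a j (u ^ k * v ^ k) y := by
  induction k with
  | zero => intro y _; simp
  | succ k ih =>
    intro y hy
    have huv : u * v ∈ E ⊓ K j := Subgroup.mul_mem _ hu hv
    have hp : ∀ {w : G}, w ∈ E ⊓ K j → ∀ m : ℕ, w ^ m ∈ E ⊓ K j := fun hw m => Subgroup.pow_mem _ hw m
    have hvy : a j v y ∈ O j := h.stab j v (h.inH hv) y hy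
    rw [pow_succ, h.mul j _ (h.inH (hp huv k)) _ (h.inH huv), ih _ (h.stab j _ (h.inH huv) y hy),
      ← h.mul j _ (h.inH (Subgroup.mul_mem _ (hp hu k) (hp hv k))) _ (h.inH huv)]
    have e1 : u ^ k * v ^ k * (u * v) = u ^ k * ((v ^ k * u) * v) := by group
    have e2 : u ^ (k + 1) * v ^ (k + 1) = u ^ k * ((u * v ^ k) * v) := by
      rw [pow_succ, pow_succ]; group
    rw [e1, e2, h.mul j _ (h.inH (hp hu k)) _ (h.inH (Subgroup.mul_mem _ (Subgroup.mul_mem _ (hp hv k) hu) hv)),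
      h.mul j _ (h.inH (Subgroup.mul_mem _ (hp hv k) hu)) _ (h.inH hv), h.comm j (hp hv k) hu hvy,
      ← h.mul j _ (h.inH (Subgroup.mul_mem _ hu (hp hv k))) _ (h.inH hv),
      ← h.mul j _ (h.inH (hp hu k)) _ (h.inH (Subgroup.mul_mem _ (Subgroup.mul_mem _ hu (hp hv k)) hv))]

lemma Sys.pow_eq (h : Sys H E K a O) (j : ι) {u v : G} (hu : u ∈ E ⊓ K j) (hv : v ∈ E ⊓ K j) {y : S j} (hy : y ∈ O j)
    (huv : a j u y = a j v y) (k : ℕ) : a j (u ^ k) y = a j (v ^ k) y := by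
  induction k with
  | zero => simp
  | succ k ih =>
    have hp : ∀ {w : G}, w ∈ E ⊓ K j → ∀ m : ℕ, w ^ m ∈ E ⊓ K j := fun hw m => Subgroup.pow_mem _ hw m
    rw [pow_succ, h.mul j _ (h.inH (hp hu k)) _ (h.inH hu), huv, ← h.mul j _ (h.inH (hp hu k)) _ (h.inH hv),
      h.comm j (hp hu k) hv hy, h.mul j _ (h.inH hv) _ (h.inH (hp hu k)), ih, ← h.mul j _ (h.inH hv) _ (h.inH (hp hv k)),
      ← pow_succ']

/-- the elements which act at `y` as a `k`-th power -/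
def Sys.powSub (h : Sys H E K a O) (j : ι) (y : S j) (hy : y ∈ O j) (k : ℕ) : Subgroup G where
  carrier := {σ | σ ∈ E ⊓ K j ∧ ∃ b ∈ E ⊓ K j, a j σ y = a j (b ^ k) y}
  one_mem' := ⟨Subgroup.one_mem _, 1, Subgroup.one_mem _, by simp⟩
  mul_mem' := by
    rintro σ ρ ⟨hσ, b, hb, h1⟩ ⟨hρ, c, hc, h2⟩
    refine ⟨Subgroup.mul_mem _ hσ hρ, c * b, Subgroup.mul_mem _ hc hb, ?_⟩
    have hbk : b ^ k ∈ E ⊓ K j := Subgroup.pow_mem _ hb k
    have hck : c ^ k ∈ E ⊓ K j := Subgroup.pow_mem _ hc k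
    rw [h.mul_pow j hc hb k y hy, h.mul j _ (h.inH hσ) _ (h.inH hρ), h2, ← h.mul j _ (h.inH hσ) _ (h.inH hck),
      h.comm j hσ hck hy, h.mul j _ (h.inH hck) _ (h.inH hσ), h1, ← h.mul j _ (h.inH hck) _ (h.inH hbk)]
  inv_mem' := by
    rintro σ ⟨hσ, b, hb, h1⟩
    have hσi : σ⁻¹ ∈ E ⊓ K j := Subgroup.inv_mem _ hσ
    have hbi : b⁻¹ ∈ E ⊓ K j := Subgroup.inv_mem _ hb
    have hbk : b ^ k ∈ E ⊓ K j := Subgroup.pow_mem _ hb k
    have hbik : (b⁻¹) ^ k ∈ E ⊓ K j := Subgroup.pow_mem _ hbi k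
    refine ⟨hσi, b⁻¹, hbi, ?_⟩
    have e1 : (b⁻¹) ^ k * b ^ k = 1 := by rw [inv_pow, inv_mul_cancel]
    calc a j σ⁻¹ y = a j σ⁻¹ (a j ((b⁻¹) ^ k) (a j (b ^ k) y)) := by
          rw [← h.mul j _ (h.inH hbik) _ (h.inH hbk), e1, h.one]
      _ = a j σ⁻¹ (a j ((b⁻¹) ^ k) (a j σ y)) := by rw [h1]
      _ = a j (b⁻¹ ^ k * σ⁻¹) (a j σ y) := by
          rw [← h.mul j _ (h.inH hσi) _ (h.inH hbik), h.comm j hσi hbik (h.stab j σ (h.inH hσ) y hy)]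
      _ = a j (b⁻¹ ^ k) y := by
          rw [h.mul j _ (h.inH hbik) _ (h.inH hσi), h.inv_act j (h.inH hσ)]

lemma Sys.mem_powSub (h : Sys H E K a O) (j : ι) (y : S j) (hy : y ∈ O j) (k : ℕ) (σ : G) :
    σ ∈ h.powSub j y hy k ↔ σ ∈ E ⊓ K j ∧ ∃ b ∈ E ⊓ K j, a j σ y = a j (b ^ k) y := Iff.rfl

lemma Sys.powSub_orbit (h : Sys H E K a O) (j : ι) (y : S j) (hy : y ∈ O j) (k : ℕ) :
    {z | ∃ σ ∈ h.powSub j y hy k, a j σ y = z} = {z | ∃ b ∈ E ⊓ K j, a j (b ^ k) y = z} := by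
  ext z
  constructor
  · rintro ⟨σ, ⟨-, b, hb, h1⟩, h2⟩
    exact ⟨b, hb, by rw [← h1, h2]⟩
  · rintro ⟨b, hb, h1⟩
    exact ⟨b ^ k, ⟨Subgroup.pow_mem _ hb k, b, hb, rfl⟩, h1⟩

/-- representatives modulo powers from representatives modulo squares -/
lemma Sys.reps (h : Sys H E K a O) (j : ι) {y : S j} (hy : y ∈ O j) (T : Finset G) (hT : ∀ t ∈ T, t ∈ E ⊓ K j)
    (hTr : ∀ σ ∈ E ⊓ K j, ∃ t ∈ T, ∃ b ∈ E ⊓ K j, a j σ y = a j (t * b ^ 2) y) (k : ℕ) :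
    ∃ R : Finset G, R.card ≤ T.card ^ k ∧ (∀ t ∈ R, t ∈ E ⊓ K j) ∧
      ∀ σ ∈ E ⊓ K j, ∃ t ∈ R, ∃ b ∈ E ⊓ K j, a j σ y = a j (t * b ^ (2 ^ k)) y := by
  classical
  induction k with
  | zero =>
    refine ⟨{1}, by simp, by simp [Subgroup.one_mem], fun σ hσ => ⟨1, by simp, σ, hσ, by simp⟩⟩
  | succ k ih =>
    obtain ⟨R, hR1, hR2, hR3⟩ := ih
    refine ⟨(R ×ˢ T).image (fun p => p.1 * p.2 ^ (2 ^ k)), ?_, ?_, ?_⟩
    · refine card_image_le.trans ?_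
      rw [card_product, pow_succ]
      exact Nat.mul_le_mul_right _ hR1
    · intro t ht
      rw [mem_image] at ht
      obtain ⟨p, hp, rfl⟩ := ht
      rw [mem_product] at hp
      exact Subgroup.mul_mem _ (hR2 _ hp.1) (Subgroup.pow_mem _ (hT _ hp.2) _)
    · intro σ hσ
      obtain ⟨r, hr, b, hb, h1⟩ := hR3 σ hσ
      obtain ⟨t, ht, c, hc, h2⟩ := hTr b hb
      refine ⟨r * t ^ (2 ^ k), mem_image.2 ⟨(r, t), mem_product.2 ⟨hr, ht⟩, rfl⟩, c, hc, ?_⟩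
      have hr' := hR2 r hr
      have ht' := hT t ht
      have htk : t ^ (2 ^ k) ∈ E ⊓ K j := Subgroup.pow_mem _ ht' _
      have hbk : b ^ (2 ^ k) ∈ E ⊓ K j := Subgroup.pow_mem _ hb _
      have hc2 : c ^ 2 ∈ E ⊓ K j := Subgroup.pow_mem _ hc _
      have hck : c ^ (2 ^ (k + 1)) ∈ E ⊓ K j := Subgroup.pow_mem _ hc _
      have h3 := h.pow_eq j hb (Subgroup.mul_mem _ ht' hc2) hy h2 (2 ^ k)
      rw [h.mul_pow j ht' hc2 (2 ^ k) y hy, ← pow_mul, ← pow_succ'] at h3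
      rw [h1, h.mul j _ (h.inH hr') _ (h.inH hbk), h3, ← h.mul j _ (h.inH hr') _ (h.inH (Subgroup.mul_mem _ htk hck)),
        mul_assoc]

lemma relIndex_le {P B : Subgroup G} (R : Finset G) (hR : ∀ t ∈ R, t ∈ B)
    (hRr : ∀ σ ∈ B, ∃ t ∈ R, t⁻¹ * σ ∈ P) : P.relIndex B ≠ 0 ∧ P.relIndex B ≤ R.card := by
  classical
  have hsurj : Function.Surjective (fun t : R => (QuotientGroup.mk (⟨t.1, hR t.1 t.2⟩ : B) : B ⧸ P.subgroupOf B)) := by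
    intro q
    obtain ⟨⟨σ, hσ⟩, rfl⟩ := QuotientGroup.mk_surjective q
    obtain ⟨t, ht, h1⟩ := hRr σ hσ
    refine ⟨⟨t, ht⟩, ?_⟩
    rw [QuotientGroup.eq, Subgroup.mem_subgroupOf]
    exact h1
  have hfin : Finite (B ⧸ P.subgroupOf B) := Finite.of_surjective _ hsurj
  have h1 : P.relIndex B = Nat.card (B ⧸ P.subgroupOf B) := rfl
  constructor
  · rw [h1]
    exact Nat.card_pos.ne'
  · rw [h1]
    have h2 := Nat.card_le_card_of_surjective _ hsurj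
    simpa using h2

/-- the index of the subgroup of the elements which act as powers -/
lemma Sys.powSub_index (h : Sys H E K a O) (j : ι) {y : S j} (hy : y ∈ O j) (T : Finset G) (hT : ∀ t ∈ T, t ∈ E ⊓ K j)
    (hTr : ∀ σ ∈ E ⊓ K j, ∃ t ∈ T, ∃ b ∈ E ⊓ K j, a j σ y = a j (t * b ^ 2) y) (k : ℕ)
    (hE : (E ⊓ K j).index ≠ 0) : (h.powSub j y hy (2 ^ k)).index ≠ 0 ∧
      (h.powSub j y hy (2 ^ k)).index ≤ T.card ^ k * (E ⊓ K j).index := by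
  obtain ⟨R, hR1, hR2, hR3⟩ := h.reps j hy T hT hTr k
  have hle : h.powSub j y hy (2 ^ k) ≤ E ⊓ K j := fun σ hσ => hσ.1
  have h1 := relIndex_le (P := h.powSub j y hy (2 ^ k)) (B := E ⊓ K j) R hR2 (by
    intro σ hσ
    obtain ⟨t, ht, b, hb, h2⟩ := hR3 σ hσ
    refine ⟨t, ht, Subgroup.mul_mem _ (Subgroup.inv_mem _ (hR2 t ht)) hσ, b, hb, ?_⟩
    have ht' := hR2 t ht
    rw [h.mul j _ (H.inv_mem (h.inH ht')) _ (h.inH hσ), h2, h.mul j _ (h.inH ht') _ (h.inH (Subgroup.pow_mem _ hb _)),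
      h.inv_act j (h.inH ht')])
  have h2 := Subgroup.relIndex_mul_index hle
  rw [← h2]
  exact ⟨mul_ne_zero h1.1 hE, Nat.mul_le_mul_right _ (h1.2.trans hR1)⟩

end group

end Pool.Agent.Run7.h762.EQ
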