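import Mathlib

/-!
# Modular curves, their hyperbolic measures and the fixing groups of the imaginary quadratic fields
-/

set_option autoImplicit false

open MeasureTheory Filter Topology
open scoped UpperHalfPlane MatrixGroups ENNReal Pointwise

namespace Pool.Agent.Run7.h762.EQ

section curve

variable (Γ : Subgroup SL(2, ℤ))

instance : ContinuousConstSMul SL(2, ℤ) ℍ where
  continuous_const_smul g := by
    have h : (fun z : ℍ => g • z) = fun z : ℍ => (Matrix.SpecialLinearGroup.mapGL ℝ g) • z := rfl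
    rw [h]
    exact continuous_const_smul (Matrix.SpecialLinearGroup.mapGL ℝ g)

instance : ContinuousConstSMul Γ ℍ where
  continuous_const_smul g := continuous_const_smul (g : SL(2, ℤ))

instance : ProperlyDiscontinuousSMul Γ ℍ := by
  rw [Subgroup.properlyDiscontinuousSMul_iff]
  intro A B hA hB
  have h := (Subgroup.properlyDiscontinuousSMul_iff _).1 properlyDiscontinuousSL2ZRange hA hB
  have h2 := h.preimage (f := fun g : SL(2, ℤ) => Matrix.SpecialLinearGroup.mapGL ℝ g)
    (Matrix.SpecialLinearGroup.mapGL_injective.injOn)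
  apply h2.subset
  rintro g ⟨-, hg⟩
  exact ⟨⟨g, rfl⟩, hg⟩

/-- the modular curve of `Γ`, as the space of the orbits of `Γ` on the upper half plane -/
def Curve : Type := Quotient (MulAction.orbitRel Γ ℍ)

/-- the point of the modular curve with the parameter `z` -/
noncomputable def proj (z : ℍ) : Curve Γ := Quotient.mk (MulAction.orbitRel Γ ℍ) z

instance : TopologicalSpace (Curve Γ) := inferInstanceAs (TopologicalSpace (Quotient (MulAction.orbitRel Γ ℍ)))

instance : T2Space (Curve Γ) := inferInstanceAs (T2Space (Quotient (MulAction.orbitRel Γ ℍ)))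

instance : SecondCountableTopology (Curve Γ) := ContinuousConstSMul.secondCountableTopology (Γ := Γ) (T := ℍ)

lemma proj_open : IsOpenQuotientMap (proj Γ) := MulAction.isOpenQuotientMap_quotientMk

instance : LocallyCompactSpace (Curve Γ) := (proj_open Γ).locallyCompactSpace

instance : MeasurableSpace (Curve Γ) := borel _

instance : BorelSpace (Curve Γ) := ⟨rfl⟩

lemma proj_eq_iff (z w : ℍ) : proj Γ z = proj Γ w ↔ ∃ γ ∈ Γ, z = γ • w := by
  have h0 : proj Γ z = proj Γ w ↔ (MulAction.orbitRel Γ ℍ) z w := Quotient.eq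
  rw [h0]
  constructor
  · rintro ⟨γ, hγ⟩
    exact ⟨γ.1, γ.2, hγ.symm⟩
  · rintro ⟨γ, hγ, h⟩
    exact ⟨⟨γ, hγ⟩, h.symm⟩

end curve

/-- the hyperbolic area `∫ dx dy / y ^ 2` of a set in the upper half plane -/
noncomputable def area (U : Set ℍ) : ℝ≥0∞ :=
  ∫⁻ z in {z : ℂ | ∃ h : 0 < z.im, (⟨z, h⟩ : ℍ) ∈ U}, ENNReal.ofReal (1 / z.im ^ 2)

/-- the normalized hyperbolic probability measure: on the sets on which `proj` is injective it is
a constant multiple of the hyperbolic area -/
def IsHyperbolic {Γ : Subgroup SL(2, ℤ)} (m : Measure (Curve Γ)) : Prop :=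
  IsProbabilityMeasure m ∧ ∃ c : ℝ≥0∞, ∀ U : Set ℍ, MeasurableSet U → Set.InjOn (proj Γ) U → m (proj Γ '' U) = c * area U

/-- `D` is the discriminant of the point `y` of the modular curve -/
def HasDisc {Γ : Subgroup SL(2, ℤ)} (y : Curve Γ) (D : ℤ) : Prop :=
  ∃ z : ℍ, proj Γ z = y ∧ ∃ a b c : ℤ, (∀ d : ℤ, d ∣ a → d ∣ b → d ∣ c → IsUnit d) ∧
    (a : ℂ) * (z : ℂ) ^ 2 + b * (z : ℂ) + c = 0 ∧ D = b ^ 2 - 4 * a * c

/-- the CM points of the modular curve -/
def CMPoint (Γ : Subgroup SL(2, ℤ)) : Type := {y : Curve Γ // ∃ D, HasDisc y D}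

/-- the point of the curve -/
def CMPoint.pt {Γ : Subgroup SL(2, ℤ)} (x : CMPoint Γ) : Curve Γ := x.1

/-- the discriminant of a CM point -/
noncomputable def disc {Γ : Subgroup SL(2, ℤ)} (x : CMPoint Γ) : ℤ := x.2.choose

section galois

variable {Qb : Type} [Field Qb] [Algebra ℚ Qb]

/-- the imaginary quadratic field generated by the square roots of `D` -/
def quadField (Qb : Type) [Field Qb] [Algebra ℚ Qb] (D : ℤ) : IntermediateField ℚ Qb := IntermediateField.adjoin ℚ {s | s ^ 2 = (D : Qb)}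

lemma mem_fixSqrt (D : ℤ) (τ : Qb ≃ₐ[ℚ] Qb) : τ ∈ (quadField Qb D).fixingSubgroup ↔ ∀ s : Qb, s ^ 2 = D → τ s = s := by
  rw [quadField, IntermediateField.mem_fixingSubgroup_iff]
  constructor
  · intro h s hs
    exact h s (IntermediateField.subset_adjoin _ _ hs)
  · intro h x hx
    have h1 : IntermediateField.adjoin ℚ {s | s ^ 2 = (D : Qb)} ≤ IntermediateField.fixedField (Subgroup.zpowers τ) := by
      rw [IntermediateField.adjoin_le_iff]
      intro s hs
      rw [SetLike.mem_coe, IntermediateField.mem_fixedField_iff]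
      have hst : τ ∈ MulAction.stabilizer (Qb ≃ₐ[ℚ] Qb) s := h s hs
      intro g hg
      exact (Subgroup.zpowers_le.2 hst) hg
    have h2 := h1 hx
    rw [IntermediateField.mem_fixedField_iff] at h2
    exact h2 τ (Subgroup.mem_zpowers τ)

omit [Algebra ℚ Qb] in
lemma roots_pm (D : ℤ) {s t : Qb} (hs : s ^ 2 = D) (ht : t ^ 2 = D) : t = s ∨ t = -s := by
  have : (t - s) * (t + s) = 0 := by ring_nf; rw [hs, ht]; ring
  rcases mul_eq_zero.1 this with h | h
  · left; linear_combination h
  · right; linear_combination h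

lemma conj_root (D : ℤ) {s : Qb} (hs : s ^ 2 = D) (τ : Qb ≃ₐ[ℚ] Qb) : (τ s) ^ 2 = D := by
  rw [← map_pow, hs, map_intCast]

lemma fixSqrt_normal (D : ℤ) : (quadField Qb D).fixingSubgroup.Normal := by
  constructor
  intro τ hτ g
  rw [mem_fixSqrt] at hτ ⊢
  intro s hs
  have h1 := hτ (g⁻¹ s) (conj_root D hs g⁻¹)
  rw [AlgEquiv.mul_apply, AlgEquiv.mul_apply, h1, ← AlgEquiv.mul_apply, mul_inv_cancel]
  rfl

/-- outside of the fixing subgroup an element changes the sign of the roots -/
lemma neg_root (D : ℤ) {τ : Qb ≃ₐ[ℚ] Qb} (hτ : τ ∉ (quadField Qb D).fixingSubgroup) {s : Qb} (hs : s ^ 2 = D) : τ s = -s := by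
  rw [mem_fixSqrt] at hτ
  push Not at hτ
  obtain ⟨t, ht, h1⟩ := hτ
  have h2 := (roots_pm D ht (conj_root D ht τ)).resolve_left h1
  rcases roots_pm D ht hs with rfl | rfl
  · exact h2
  · rw [map_neg, h2]

lemma fixSqrt_mul (D : ℤ) {τ σ : Qb ≃ₐ[ℚ] Qb} (hτ : τ ∉ (quadField Qb D).fixingSubgroup) (hσ : σ ∉ (quadField Qb D).fixingSubgroup) :
    τ * σ ∈ (quadField Qb D).fixingSubgroup := by
  rw [mem_fixSqrt]
  intro s hs
  rw [AlgEquiv.mul_apply, neg_root D hσ hs, map_neg, neg_root D hτ hs, neg_neg]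

lemma fixSqrt_sq (D : ℤ) (g : Qb ≃ₐ[ℚ] Qb) : g * g ∈ (quadField Qb D).fixingSubgroup := by
  by_cases h : g ∈ (quadField Qb D).fixingSubgroup
  · exact Subgroup.mul_mem _ h h
  · exact fixSqrt_mul D h h

lemma fixSqrt_index (D : ℤ) : (quadField Qb D).fixingSubgroup.index ≠ 0 ∧ (quadField Qb D).fixingSubgroup.index ≤ 2 := by
  by_cases hex : ∃ g, g ∉ (quadField Qb D).fixingSubgroup
  · obtain ⟨g, hg⟩ := hex
    have h : (quadField Qb D).fixingSubgroup.index = 2 := Subgroup.index_eq_two_iff.2 ⟨g, by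
      intro b
      by_cases hb : b ∈ (quadField Qb D).fixingSubgroup
      · right
        refine ⟨hb, fun h2 => hg ?_⟩
        have := Subgroup.mul_mem _ (Subgroup.inv_mem _ hb) h2
        rwa [inv_mul_cancel_left] at this
      · left
        exact ⟨fixSqrt_mul D hb hg, hb⟩⟩
    rw [h]
    norm_num
  · push Not at hex
    have : (quadField Qb D).fixingSubgroup = ⊤ := by
      rw [eq_top_iff]
      exact fun g _ => hex g
    rw [this, Subgroup.index_top]
    norm_num

end galois

end Pool.Agent.Run7.h762.EQ
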