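import Mathlib

/-!
# The number of prime factors is small
-/

set_option autoImplicit false

open Finset

namespace Pool.Agent.Run7.h762.EQ

lemma two_pow_card_le (ε : ℝ) (hε : 0 < ε) : ∃ C : ℝ, 1 ≤ C ∧ ∀ d : ℕ, d ≠ 0 → (2 : ℝ) ^ d.primeFactors.card ≤ C * (d : ℝ) ^ ε := by
  obtain ⟨P, hP⟩ : ∃ P : ℕ, ∀ p : ℕ, P ≤ p → (2 : ℝ) ≤ (p : ℝ) ^ ε := by
    have h1 := ((tendsto_rpow_atTop hε).comp tendsto_natCast_atTop_atTop).eventually (Filter.eventually_ge_atTop (2 : ℝ))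
    obtain ⟨P, hP⟩ := Filter.eventually_atTop.1 h1
    exact ⟨P, fun p hp => hP p hp⟩
  refine ⟨2 ^ P, one_le_pow₀ (by norm_num), fun d hd => ?_⟩
  have e1 : (2 : ℝ) ^ d.primeFactors.card = ∏ _p ∈ d.primeFactors, (2 : ℝ) := by rw [prod_const]
  have e2 : ∏ _p ∈ d.primeFactors, (2 : ℝ) = (∏ _p ∈ d.primeFactors.filter (fun p => p < P), (2 : ℝ)) *
      ∏ _p ∈ d.primeFactors.filter (fun p => ¬ p < P), (2 : ℝ) := (prod_filter_mul_prod_filter_not _ _ _).symm
  have e3 : ∏ _p ∈ d.primeFactors.filter (fun p => p < P), (2 : ℝ) ≤ 2 ^ P := by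
    rw [prod_const]
    apply pow_le_pow_right₀ (by norm_num)
    calc (d.primeFactors.filter (fun p => p < P)).card ≤ (range P).card := card_le_card (by
          intro p hp
          rw [mem_filter] at hp
          exact mem_range.2 hp.2)
      _ = P := card_range P
  have e4 : ∏ _p ∈ d.primeFactors.filter (fun p => ¬ p < P), (2 : ℝ) ≤ ∏ p ∈ d.primeFactors.filter (fun p => ¬ p < P), (p : ℝ) ^ ε := by
    apply prod_le_prod (fun p _ => by norm_num)
    intro p hp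
    rw [mem_filter] at hp
    exact hP p (not_lt.1 hp.2)
  have e5 : ∏ p ∈ d.primeFactors.filter (fun p => ¬ p < P), (p : ℝ) ^ ε ≤ ∏ p ∈ d.primeFactors, (p : ℝ) ^ ε := by
    apply prod_le_prod_of_subset_of_one_le (filter_subset _ _)
    · intro p _
      positivity
    · intro p hp _
      apply Real.one_le_rpow _ hε.le
      exact_mod_cast (Nat.prime_of_mem_primeFactors hp).one_lt.le
  have e6 : ∏ p ∈ d.primeFactors, (p : ℝ) ^ ε = ((∏ p ∈ d.primeFactors, p : ℕ) : ℝ) ^ ε := by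
    rw [Nat.cast_prod, Real.finsetProd_rpow _ _ (fun p _ => by positivity)]
  have e7 : ((∏ p ∈ d.primeFactors, p : ℕ) : ℝ) ^ ε ≤ (d : ℝ) ^ ε := by
    apply Real.rpow_le_rpow (by positivity) _ hε.le
    exact_mod_cast Nat.le_of_dvd (Nat.pos_of_ne_zero hd) (Nat.prod_primeFactors_dvd d)
  rw [e1, e2]
  apply mul_le_mul e3 _ (prod_nonneg (fun p _ => by norm_num)) (by positivity)
  exact e4.trans (e5.trans (e6.le.trans e7))

lemma genus_small (c : ℝ) (hc : 0 ≤ c) (n N : ℕ) (η : ℝ) (hη : 0 < η) :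
    ∃ R : ℝ, 1 ≤ R ∧ ∀ d : ℕ, R ≤ d → (c * 2 ^ d.primeFactors.card) ^ n * N ≤ (d : ℝ) ^ η := by
  obtain ⟨ε, hε⟩ : ∃ ε, ε = η / (2 * (n + 1)) := ⟨_, rfl⟩
  have hεp : 0 < ε := by rw [hε]; positivity
  obtain ⟨C, hC1, hC⟩ := two_pow_card_le ε hεp
  have h1 := (tendsto_rpow_atTop (show (0 : ℝ) < η / 2 by positivity)).eventually (Filter.eventually_ge_atTop ((c * C) ^ n * N))
  obtain ⟨R, hR⟩ := Filter.eventually_atTop.1 h1
  refine ⟨max R 1, le_max_right _ _, fun d hd => ?_⟩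
  have hd1 : (1 : ℝ) ≤ d := (le_max_right _ _).trans hd
  have hd0 : d ≠ 0 := by
    rintro rfl
    norm_num at hd1
  have h2 := hR d ((le_max_left _ _).trans hd)
  have h3 : (c * 2 ^ d.primeFactors.card) ^ n ≤ (c * (C * (d : ℝ) ^ ε)) ^ n := by
    apply pow_le_pow_left₀ (by positivity)
    exact mul_le_mul_of_nonneg_left (hC d hd0) hc
  have h4 : (c * (C * (d : ℝ) ^ ε)) ^ n = (c * C) ^ n * (d : ℝ) ^ (ε * n) := by
    rw [← mul_assoc, mul_pow, ← Real.rpow_natCast ((d : ℝ) ^ ε) n, ← Real.rpow_mul (by positivity)]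
  have h5 : (d : ℝ) ^ (ε * n) ≤ (d : ℝ) ^ (η / 2) := by
    apply Real.rpow_le_rpow_of_exponent_le hd1
    rw [hε]
    have : (0 : ℝ) < 2 * (n + 1) := by positivity
    rw [div_mul_eq_mul_div, div_le_div_iff₀ this (by norm_num)]
    nlinarith
  calc (c * 2 ^ d.primeFactors.card) ^ n * N ≤ ((c * C) ^ n * (d : ℝ) ^ (ε * n)) * N := by
        apply mul_le_mul_of_nonneg_right _ (by positivity)
        rw [← h4]
        exact h3
    _ = ((c * C) ^ n * N) * (d : ℝ) ^ (ε * n) := by ring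
    _ ≤ (d : ℝ) ^ (η / 2) * (d : ℝ) ^ (η / 2) := by
        apply mul_le_mul h2 h5 (by positivity) (by positivity)
    _ = (d : ℝ) ^ η := by
        rw [← Real.rpow_add (by linarith)]
        congr 1
        ring

end Pool.Agent.Run7.h762.EQ
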