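import Pool.Agent.Run7.h762.EQ.C
import Pool.Agent.Run7.h762.EQ.D
import Pool.Agent.Run7.h762.EQ.E
import Pool.Agent.Run7.h762.EQ.F

/-!
# Special points of products of modular curves and the published facts on the Galois action
-/

set_option autoImplicit false

open MeasureTheory Filter Topology
open scoped UpperHalfPlane MatrixGroups ENNReal

namespace Pool.Agent.Run7.h762.EQ

/-- `Z` is a special subvariety of the product of the modular curves of `Γ j`: the coordinates `j` with `p j = none` are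
the CM points `c j`, the coordinates `j` with `p j = some k` are the images of `g j • t k`, where `t k` runs over the
upper half plane and `g j` is a fixed rational matrix with positive determinant -/
def IsSpecialSub {n : ℕ} (Γ : Fin n → Subgroup SL(2, ℤ)) (Z : Set (∀ j, Curve (Γ j))) : Prop :=
  ∃ (p : Fin n → Option (Fin n)) (c : Fin n → ℍ) (g : Fin n → Matrix.GLPos (Fin 2) ℚ),
    (∀ j, p j = none → ∃ D, HasDisc (proj (Γ j) (c j)) D) ∧
    Z = {y | ∃ t : Fin n → ℍ, ∀ j, (p j = none → y j = proj (Γ j) (c j)) ∧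
      ∀ k, p j = some k → y j = proj (Γ j) ((Matrix.GeneralLinearGroup.map (algebraMap ℚ ℝ) (g j : GL (Fin 2) ℚ)) • t k)}

/-- each proper special subvariety contains only finitely many of the points `x i` -/
def Strict {n : ℕ} {Γ : Fin n → Subgroup SL(2, ℤ)} (x : ℕ → ∀ j, CMPoint (Γ j)) : Prop :=
  ∀ Z : Set (∀ j, Curve (Γ j)), IsSpecialSub Γ Z → Z ≠ Set.univ → {i | (fun j => (x i j).pt) ∈ Z}.Finite

variable {Qb : Type} [Field Qb] [Algebra ℚ Qb]

/-- The action of the Galois group on the CM points of the modular curve of `Γ` (a congruence subgroup), which has its canonical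
model over the number field `F`, with the published facts about it:
* `act`, `act_one`, `act_mul`, `disc_act`, `finite_disc`: the group `Gal(Qb/F)` acts on the CM points (outside of this group the
  value of `act` is a dummy), it preserves the discriminant, and there are finitely many CM points with a given discriminant;
* `reciprocity`: let `K` be the CM field of `x`. If `σ` fixes `K` and the roots of unity of the order of the level of `Γ`, then
  `τ σ τ⁻¹` acts on `x` as `σ` if `τ` fixes `K`, and as `σ⁻¹` if not (main theorem of complex multiplication, Shimura);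
* `genus`: the group of all `σ` in `E` which fix `K` acts on `x` through an abelian group `A`, a subquotient of a class group,
  and the order of `A / A ^ 2` is at most `c * 2 ^ ω(disc x)` (genus theory of Gauss);
* `duke`: the orbits of the CM points of large discriminant under the subgroups of index at most `|disc x| ^ η` are
  equidistributed on the curve (Duke 1988 for the full group; Zhang 2005, Harcos and Michel 2006, Michel and Venkatesh 2010). -/
structure Model (Γ : Subgroup SL(2, ℤ)) (F : IntermediateField ℚ Qb) (m : Measure (Curve Γ)) where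
  act : (Qb ≃ₐ[ℚ] Qb) → CMPoint Γ → CMPoint Γ
  act_one : ∀ x, act 1 x = x
  act_mul : ∀ σ ∈ F.fixingSubgroup, ∀ τ ∈ F.fixingSubgroup, ∀ x, act (σ * τ) x = act σ (act τ x)
  disc_act : ∀ σ ∈ F.fixingSubgroup, ∀ x, disc (act σ x) = disc x
  finite_disc : ∀ D : ℤ, {x : CMPoint Γ | disc x = D}.Finite
  reciprocity : ∃ E : Subgroup (Qb ≃ₐ[ℚ] Qb), E.Normal ∧ E.index ≠ 0 ∧ E ≤ F.fixingSubgroup ∧ ∀ x : CMPoint Γ,
    ∀ σ ∈ E ⊓ (quadField Qb (disc x)).fixingSubgroup, ∀ τ : Qb ≃ₐ[ℚ] Qb,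
      (τ ∈ (quadField Qb (disc x)).fixingSubgroup → act (τ * σ * τ⁻¹) x = act σ x) ∧
      (τ ∉ (quadField Qb (disc x)).fixingSubgroup → act (τ * σ * τ⁻¹) x = act σ⁻¹ x)
  genus : ∀ E : Subgroup (Qb ≃ₐ[ℚ] Qb), E.Normal → E.index ≠ 0 → E ≤ F.fixingSubgroup → ∃ c : ℕ, ∀ x : CMPoint Γ,
    ∃ T : Finset (Qb ≃ₐ[ℚ] Qb), T.card ≤ c * 2 ^ (disc x).natAbs.primeFactors.card ∧
      (∀ t ∈ T, t ∈ E ⊓ (quadField Qb (disc x)).fixingSubgroup) ∧
      ∀ σ ∈ E ⊓ (quadField Qb (disc x)).fixingSubgroup, ∃ t ∈ T,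
        ∃ b ∈ E ⊓ (quadField Qb (disc x)).fixingSubgroup, act σ x = act (t * b ^ 2) x
  duke : ∃ η : ℝ, 0 < η ∧ ∀ f : Curve Γ → ℝ, Continuous f → HasCompactSupport f → ∀ ε : ℝ, 0 < ε → ∃ B : ℝ,
    ∀ x : CMPoint Γ, B ≤ |(disc x : ℝ)| → ∀ M : Subgroup (Qb ≃ₐ[ℚ] Qb), M ≤ F.fixingSubgroup → M.index ≠ 0 →
      (M.index : ℝ) ≤ |(disc x : ℝ)| ^ η → |mean {y | ∃ σ ∈ M, act σ x = y} (fun y => f y.pt) - ∫ y, f y ∂m| ≤ ε

/-- the orbit of the special point `x` under the subgroup `M` of the Galois group -/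
def orbit {n : ℕ} {Γ : Fin n → Subgroup SL(2, ℤ)} {F : IntermediateField ℚ Qb} {m : ∀ j, Measure (Curve (Γ j))}
    (C : ∀ j, Model (Γ j) F (m j)) (M : Subgroup (Qb ≃ₐ[ℚ] Qb)) (x : ∀ j, CMPoint (Γ j)) : Set (∀ j, CMPoint (Γ j)) :=
  {w | ∃ σ ∈ M, ∀ j, (C j).act σ (x j) = w j}

lemma CMPoint.pt_injective {Γ : Subgroup SL(2, ℤ)} : Function.Injective (CMPoint.pt (Γ := Γ)) := fun _ _ h => Subtype.ext h

lemma mean_image {α β : Type*} (e : α → β) (he : Function.Injective e) (s : Set α) (f : β → ℝ) :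
    mean (e '' s) f = mean s (fun x => f (e x)) := by
  unfold mean
  rw [finsum_mem_image he.injOn, Set.ncard_image_of_injective _ he]

/-- the means of the functions which are continuous at infinity -/
lemma Model.duke_ext {Γ : Subgroup SL(2, ℤ)} {F : IntermediateField ℚ Qb} {m : Measure (Curve Γ)} (hm : IsProbabilityMeasure m)
    (C : Model Γ F m) : ∃ η : ℝ, 0 < η ∧ ∀ g : C(OnePoint (Curve Γ), ℝ), ∀ ε : ℝ, 0 < ε → ∃ B : ℝ,
    ∀ x : CMPoint Γ, B ≤ |(disc x : ℝ)| → ∀ M : Subgroup (Qb ≃ₐ[ℚ] Qb), M ≤ F.fixingSubgroup → M.index ≠ 0 →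
      (M.index : ℝ) ≤ |(disc x : ℝ)| ^ η →
      |mean {y | ∃ σ ∈ M, C.act σ x = y} (fun y => g (y.pt : OnePoint (Curve Γ))) - ∫ y, g (y : OnePoint (Curve Γ)) ∂m| ≤ ε := by
  obtain ⟨η, hη, h⟩ := C.duke
  refine ⟨η, hη, fun g ε hε => ?_⟩
  obtain ⟨f, hf, hfs, hfg⟩ := exists_compact_approx g (ε / 3) (by positivity)
  obtain ⟨B, hB⟩ := h f hf hfs (ε / 3) (by positivity)
  refine ⟨B, fun x hx M hMF hM0 hM => ?_⟩
  have h1 := hB x hx M hMF hM0 hM
  obtain ⟨s, hs⟩ : ∃ s, s = {y | ∃ σ ∈ M, C.act σ x = y} := ⟨_, rfl⟩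
  rw [← hs] at h1 ⊢
  have hsfin : s.Finite := by
    apply (C.finite_disc (disc x)).subset
    rw [hs]
    rintro y ⟨σ, hσ, rfl⟩
    exact C.disc_act σ (hMF hσ) x
  have hsne : s.Nonempty := by
    rw [hs]
    exact ⟨_, 1, M.one_mem, rfl⟩
  obtain ⟨r, hr⟩ : ∃ r : Curve Γ → ℝ, r = fun y : Curve Γ => g (y : OnePoint (Curve Γ)) - g OnePoint.infty - f y := ⟨_, rfl⟩
  have hr1 : ∀ y, |r y| ≤ ε / 3 := by intro y; rw [hr]; exact hfg y
  have hrc : Continuous r := by
    rw [hr]
    exact ((g.continuous.comp OnePoint.continuous_coe).sub continuous_const).sub hf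
  have hgr : ∀ y : Curve Γ, g (y : OnePoint (Curve Γ)) = r y + (g OnePoint.infty + f y) := by
    intro y
    rw [hr]
    ring
  have e1 : mean s (fun y => g (y.pt : OnePoint (Curve Γ))) = mean s (fun y => r y.pt) + (g OnePoint.infty + mean s (fun y => f y.pt)) := by
    simp_rw [hgr]
    rw [mean_add hsfin, mean_add hsfin, mean_const hsfin hsne]
  have hri : Integrable r m := Integrable.of_bound hrc.aestronglyMeasurable (ε / 3) (Eventually.of_forall (fun y => by
    rw [Real.norm_eq_abs]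
    exact hr1 y))
  have hfi : Integrable f m := hf.integrable_of_hasCompactSupport hfs
  have e2 : ∫ y, g (y : OnePoint (Curve Γ)) ∂m = ∫ y, r y ∂m + (g OnePoint.infty + ∫ y, f y ∂m) := by
    simp_rw [hgr]
    have e5 : ∫ y, (r y + (g OnePoint.infty + f y)) ∂m = ∫ y, r y ∂m + ∫ y, (g OnePoint.infty + f y) ∂m :=
      integral_add hri ((integrable_const _).add hfi)
    have e6 : ∫ y, (g OnePoint.infty + f y) ∂m = ∫ _y, g OnePoint.infty ∂m + ∫ y, f y ∂m :=
      integral_add (integrable_const _) hfi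
    rw [e5, e6, integral_const]
    simp
  have e3 : |mean s (fun y => r y.pt)| ≤ ε / 3 := mean_abs_le hsfin _ _ (by positivity) (fun y _ => hr1 y.pt)
  have e4 : |∫ y, r y ∂m| ≤ ε / 3 := by
    have := norm_integral_le_of_norm_le_const (μ := m) (f := r) (C := ε / 3) (Eventually.of_forall (fun y => by
      rw [Real.norm_eq_abs]
      exact hr1 y))
    simpa using this
  rw [e1, e2]
  calc |mean s (fun y => r y.pt) + (g OnePoint.infty + mean s fun y => f y.pt) - (∫ y, r y ∂m + (g OnePoint.infty + ∫ y, f y ∂m))|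
      = |mean s (fun y => r y.pt) + (-∫ y, r y ∂m) + ((mean s fun y => f y.pt) - ∫ y, f y ∂m)| := by congr 1; ring
    _ ≤ |mean s (fun y => r y.pt)| + |(-∫ y, r y ∂m)| + |(mean s fun y => f y.pt) - ∫ y, f y ∂m| := abs_add_three _ _ _
    _ ≤ ε / 3 + ε / 3 + ε / 3 := by rw [abs_neg]; gcongr
    _ = ε := by ring

end Pool.Agent.Run7.h762.EQ
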