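import Pool.Agent.Run7.h762.EQ.G

/-!
# Joint equidistribution for pairwise distinct CM fields
-/

set_option autoImplicit false
set_option linter.style.haveILetI false
set_option linter.deprecated false

open MeasureTheory Filter Topology
open scoped UpperHalfPlane MatrixGroups ENNReal

namespace Pool.Agent.Run7.h762.EQ

variable {Qb : Type} [Field Qb] [Algebra ℚ Qb] [IsAlgClosure ℚ Qb]

section

variable {n : ℕ} {Γ : Fin n → Subgroup SL(2, ℤ)} {F : IntermediateField ℚ Qb} {m : ∀ j, Measure (Curve (Γ j))}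

omit [IsAlgClosure ℚ Qb] in
/-- a common normal subgroup -/
lemma exists_common (hF : F.fixingSubgroup.index ≠ 0) (C : ∀ j, Model (Γ j) F (m j)) :
    ∃ E : Subgroup (Qb ≃ₐ[ℚ] Qb), E.Normal ∧ E.index ≠ 0 ∧ E ≤ F.fixingSubgroup ∧ ∀ j, ∀ x : CMPoint (Γ j),
    ∀ σ ∈ E ⊓ (quadField Qb (disc x)).fixingSubgroup, ∀ τ : Qb ≃ₐ[ℚ] Qb,
      (τ ∈ (quadField Qb (disc x)).fixingSubgroup → (C j).act (τ * σ * τ⁻¹) x = (C j).act σ x) ∧
      (τ ∉ (quadField Qb (disc x)).fixingSubgroup → (C j).act (τ * σ * τ⁻¹) x = (C j).act σ⁻¹ x) := by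
  choose E hEn hEf hEF hE using fun j => (C j).reciprocity
  haveI : ∀ j, (E j).Normal := hEn
  haveI : F.fixingSubgroup.FiniteIndex := ⟨hF⟩
  haveI : ∀ j, (E j).FiniteIndex := fun j => ⟨hEf j⟩
  haveI : (⨅ j, E j).Normal := Subgroup.normal_iInf_normal hEn
  haveI : (⨅ j, E j).FiniteIndex := Subgroup.finiteIndex_iInf (fun j => inferInstance)
  refine ⟨F.fixingSubgroup.normalCore ⊓ ⨅ j, E j, inferInstance, ?_, inf_le_left.trans (Subgroup.normalCore_le _), ?_⟩
  · exact Subgroup.index_inf_ne_zero (Subgroup.FiniteIndex.index_ne_zero (H := F.fixingSubgroup.normalCore)) Subgroup.FiniteIndex.index_ne_zero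
  · intro j x σ hσ τ
    have h1 : σ ∈ E j := Subgroup.mem_iInf.1 (Subgroup.mem_inf.1 (Subgroup.mem_inf.1 hσ).1).2 j
    exact hE j x σ ⟨h1, hσ.2⟩ τ

lemma sep_of_ne {D D' : ℤ} (h : quadField Qb D ≠ quadField Qb D') :
    ∃ τ : Qb ≃ₐ[ℚ] Qb, (τ ∈ (quadField Qb D).fixingSubgroup ∧ τ ∉ (quadField Qb D').fixingSubgroup) ∨
      (τ ∉ (quadField Qb D).fixingSubgroup ∧ τ ∈ (quadField Qb D').fixingSubgroup) := by
  by_contra hcon
  push Not at hcon
  apply h
  have h1 : (quadField Qb D).fixingSubgroup = (quadField Qb D').fixingSubgroup := by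
    ext τ
    constructor
    · exact fun h => (hcon τ).1 h
    · intro h
      by_contra h2
      exact (hcon τ).2 h2 h
  rw [← InfiniteGalois.fixedField_fixingSubgroup (quadField Qb D), h1, InfiniteGalois.fixedField_fixingSubgroup]

/-- the Galois group acts on tuples of points with given discriminants as a dihedral system -/
lemma sys_of_distinct (C : ∀ j, Model (Γ j) F (m j)) (E : Subgroup (Qb ≃ₐ[ℚ] Qb)) (hFE : E ≤ F.fixingSubgroup) (hEn : E.Normal)
    (hE : ∀ j, ∀ x : CMPoint (Γ j), ∀ σ ∈ E ⊓ (quadField Qb (disc x)).fixingSubgroup, ∀ τ : Qb ≃ₐ[ℚ] Qb,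
      (τ ∈ (quadField Qb (disc x)).fixingSubgroup → (C j).act (τ * σ * τ⁻¹) x = (C j).act σ x) ∧
      (τ ∉ (quadField Qb (disc x)).fixingSubgroup → (C j).act (τ * σ * τ⁻¹) x = (C j).act σ⁻¹ x))
    (D : Fin n → ℤ) (hD : ∀ j l, j ≠ l → quadField Qb (D j) ≠ quadField Qb (D l)) :
    Sys F.fixingSubgroup E (fun j => (quadField Qb (D j)).fixingSubgroup) (fun j => (C j).act)
      (fun j => {x : CMPoint (Γ j) | disc x = D j}) where
  EH := hFE
  En := hEn
  Kn := fun j => fixSqrt_normal (D j)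
  sq := fun j g => fixSqrt_sq (D j) g
  one := fun j y => (C j).act_one y
  mul := fun j σ hσ τ hτ y => (C j).act_mul σ hσ τ hτ y
  stab := fun j σ hσ y hy => by
    rw [Set.mem_setOf_eq] at hy ⊢
    rw [(C j).disc_act σ hσ y, hy]
  dih1 := fun j σ hσ τ hτ y hy => by
    rw [Set.mem_setOf_eq] at hy
    exact (hE j y σ (by rw [hy]; exact hσ) τ).1 (by rw [hy]; exact hτ)
  dih2 := fun j σ hσ τ hτ y hy => by
    rw [Set.mem_setOf_eq] at hy
    exact (hE j y σ (by rw [hy]; exact hσ) τ).2 (by rw [hy]; exact hτ)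
  sep := fun j l hjl => sep_of_ne (hD j l hjl)

end

/-- joint equidistribution when the discriminants tend to infinity and the CM fields are distinct -/
theorem core {n : ℕ} {Γ : Fin n → Subgroup SL(2, ℤ)} {F : IntermediateField ℚ Qb} {m : ∀ j, Measure (Curve (Γ j))}
    (hF : F.fixingSubgroup.index ≠ 0) (hm : ∀ j, IsProbabilityMeasure (m j)) (C : ∀ j, Model (Γ j) F (m j)) :
    ∃ δ : ℝ, 0 < δ ∧ ∀ (x : ℕ → ∀ j, CMPoint (Γ j)) (M : ℕ → Subgroup (Qb ≃ₐ[ℚ] Qb)),
      (∀ j, ∀ R : ℝ, ∀ᶠ i in atTop, R ≤ |(disc (x i j) : ℝ)|) →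
      (∀ᶠ i in atTop, ∀ j l, j ≠ l → quadField Qb (disc (x i j)) ≠ quadField Qb (disc (x i l))) →
      (∀ i, M i ≤ F.fixingSubgroup) → (∀ i, (M i).index ≠ 0) →
      (∀ᶠ i in atTop, ∀ j, ((M i).index : ℝ) ≤ |(disc (x i j) : ℝ)| ^ δ) →
      ∀ f : (∀ j, Curve (Γ j)) → ℝ, Continuous f → HasCompactSupport f →
        Tendsto (fun i => mean (orbit C (M i) (x i)) (fun w => f (fun j => (w j).pt))) atTop (𝓝 (∫ y, f y ∂(Measure.pi m))) := by
  classical
  haveI := hm
  choose η' hη' hduke using fun j => (C j).duke_ext (hm j)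
  obtain ⟨η, hη0, hη⟩ : ∃ η, 0 < η ∧ ∀ j, (0 : ℝ) + η < η' j := Pi.exists_forall_pos_add_lt (x := fun _ => (0 : ℝ)) (fun j => hη' j)
  obtain ⟨E, hEn, hN0, hFE, hE⟩ := exists_common hF C
  obtain ⟨N, hN⟩ : ∃ N, N = E.index := ⟨_, rfl⟩
  choose c hc using fun j => (C j).genus E hEn hN0 hFE
  refine ⟨η / 2, by positivity, fun x M hx hd hMF hM0 hM f hf hfs => ?_⟩
  have hfinO : ∀ (D : Fin n → ℤ) j, ({y : CMPoint (Γ j) | disc y = D j}).Finite := fun D j => (C j).finite_disc (D j)
  obtain ⟨e, he⟩ : ∃ e : (∀ j, CMPoint (Γ j)) → ∀ j, Curve (Γ j), e = fun w j => (w j).pt := ⟨_, rfl⟩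
  have hei : Function.Injective e := by
    intro w w' h
    funext j
    rw [he] at h
    exact CMPoint.pt_injective (congrFun h j)
  have horb : ∀ i, (orbit C (M i) (x i)).Finite := by
    intro i
    apply (Set.Finite.pi' (hfinO (fun j => disc (x i j)))).subset
    rintro w ⟨σ, hσ, hw⟩ j
    rw [Set.mem_setOf_eq, ← hw j]
    exact (C j).disc_act σ (hMF i hσ) _
  have hgoal : ∀ (f : (∀ j, Curve (Γ j)) → ℝ) i, mean (orbit C (M i) (x i)) (fun w => f (fun j => (w j).pt)) = mean (e '' orbit C (M i) (x i)) f := by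
    intro f i
    rw [mean_image e hei, he]
  simp_rw [hgoal]
  apply tendsto_mean m (fun i => e '' orbit C (M i) (x i)) (fun i => (horb i).image e) _ f hf hfs
  intro g
  simp_rw [← hgoal (fun y => ∏ j, g j (y j))]
  rw [Metric.tendsto_nhds]
  intro ε hε
  obtain ⟨B, hB⟩ : ∃ B : ℝ, B = 1 + ∑ j, ‖g j‖ := ⟨_, rfl⟩
  have hB1 : 1 ≤ B := by
    rw [hB]
    have : 0 ≤ ∑ j, ‖g j‖ := Finset.sum_nonneg (fun j _ => norm_nonneg _)
    linarith
  have hgB : ∀ j, ‖g j‖ ≤ B := by
    intro j
    rw [hB]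
    have := Finset.single_le_sum (f := fun j => ‖g j‖) (fun j _ => norm_nonneg _) (Finset.mem_univ j)
    linarith
  obtain ⟨ε', hε'⟩ : ∃ ε', ε' = ε / (2 * (n + 1) * B ^ n) := ⟨_, rfl⟩
  have hε'0 : 0 < ε' := by rw [hε']; positivity
  have hε'n : (n : ℝ) * (B ^ n * ε') < ε := by
    rw [hε']
    have h1 : (n : ℝ) * (B ^ n * (ε / (2 * (n + 1) * B ^ n))) = ε * (n / (2 * (n + 1))) := by
      have : B ^ n ≠ 0 := by positivity
      field_simp
    rw [h1]
    have h2 : (n : ℝ) / (2 * (n + 1)) < 1 := by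
      rw [div_lt_one (by positivity)]
      have : (0 : ℝ) ≤ n := Nat.cast_nonneg n
      linarith
    nlinarith
  choose R hR using fun j => hduke j (g j) ε' hε'0
  choose R' hR'1 hR' using fun j => genus_small (c j) (Nat.cast_nonneg _) n (N * 2) (η / 2) (by positivity)
  have hev : ∀ᶠ i in atTop, ∀ j, max (R j) (R' j) ≤ |(disc (x i j) : ℝ)| := by
    rw [eventually_all]
    exact fun j => hx j _
  filter_upwards [hev, hd, hM] with i h1 h2 h3
  have hsys := sys_of_distinct C E hFE hEn hE (fun j => disc (x i j)) h2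
  have hmain := hsys.mean_orbit (M i) (hMF i) (x i) (fun j => rfl) (hfinO _) (fun j y => g j (y.pt : OnePoint (Curve (Γ j))))
    (fun j => ∫ y, g j (y : OnePoint (Curve (Γ j))) ∂(m j)) B ε' hB1
    (fun j y => ((g j).norm_coe_le_norm _).trans (hgB j))
    (fun j => by
      have := norm_integral_le_of_norm_le_const (μ := m j) (f := fun y : Curve (Γ j) => g j (y : OnePoint (Curve (Γ j)))) (C := B)
        (Eventually.of_forall (fun y => ((g j).norm_coe_le_norm _).trans (hgB j)))
      simpa using this)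
    (by
      intro y hy j
      obtain ⟨T, hT1, hT2, hT3⟩ := hc j (y j)
      have hyj : disc (y j) = disc (x i j) := hy j
      rw [hyj] at hT1 hT2 hT3
      have hidx := hsys.oneSub_index (M i) (hM0 i) j y hy T hT2 hT3
        (Subgroup.index_inf_ne_zero hN0 (fixSqrt_index (disc (x i j))).1)
      apply hR j (y j)
      · rw [hyj]
        exact (le_max_left _ _).trans (h1 j)
      · intro σ hσ
        exact hsys.inH ((hsys.mem_oneSub (M i) j y hy σ).1 hσ).1
      · exact hidx.1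
      · rw [hyj]
        have hDabs : ((disc (x i j)).natAbs : ℝ) = |(disc (x i j) : ℝ)| := by
          rw [Nat.cast_natAbs, Int.cast_abs]
        have k1 : R' j ≤ ((disc (x i j)).natAbs : ℝ) := by
          rw [hDabs]
          exact (le_max_right _ _).trans (h1 j)
        have k2 := hR' j _ k1
        have k3 : 1 ≤ |(disc (x i j) : ℝ)| := by
          rw [← hDabs]
          exact (hR'1 j).trans k1
        have k4 : ((hsys.oneSub (M i) j y hy).index : ℝ) ≤ (M i).index *
            ((c j * 2 ^ (disc (x i j)).natAbs.primeFactors.card) ^ n * ((N * 2 : ℕ) : ℝ)) := by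
          have k5 : (hsys.oneSub (M i) j y hy).index ≤ (M i).index * ((c j * 2 ^ (disc (x i j)).natAbs.primeFactors.card) ^ n * (N * 2)) := by
            apply hidx.2.trans
            rw [Fintype.card_fin]
            apply Nat.mul_le_mul_left
            apply Nat.mul_le_mul
            · exact Nat.pow_le_pow_left hT1 n
            · rw [hN]
              exact Subgroup.index_inf_le.trans (Nat.mul_le_mul_left _ (fixSqrt_index (disc (x i j))).2)
          exact_mod_cast k5
        calc ((hsys.oneSub (M i) j y hy).index : ℝ) ≤ (M i).index *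
              ((c j * 2 ^ (disc (x i j)).natAbs.primeFactors.card) ^ n * ((N * 2 : ℕ) : ℝ)) := k4
          _ ≤ |(disc (x i j) : ℝ)| ^ (η / 2) * |(disc (x i j) : ℝ)| ^ (η / 2) := by
              apply mul_le_mul (h3 j) _ (by positivity) (by positivity)
              rw [← hDabs]
              exact k2
          _ = |(disc (x i j) : ℝ)| ^ η := by
              rw [← Real.rpow_add (by linarith)]
              congr 1
              ring
          _ ≤ |(disc (x i j) : ℝ)| ^ η' j := by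
              apply Real.rpow_le_rpow_of_exponent_le k3
              have := hη j
              linarith)
  rw [Fintype.card_fin] at hmain
  rw [Real.dist_eq]
  exact lt_of_le_of_lt hmain hε'n

end Pool.Agent.Run7.h762.EQ
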