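import Pool.Agent.Run7.h762.EQ.I

/-!
# Special subvarieties and isogenies, for products over an arbitrary finite index type
-/

set_option autoImplicit false
set_option linter.style.haveILetI false
set_option linter.deprecated false

open MeasureTheory Filter Topology
open scoped UpperHalfPlane MatrixGroups ENNReal

namespace Pool.Agent.Run7.h762.EQ

/-- the real matrix of a rational matrix with positive determinant, acting on the upper half plane -/
noncomputable def ratGL (g : Matrix.GLPos (Fin 2) ℚ) : GL (Fin 2) ℝ := Matrix.GeneralLinearGroup.map (algebraMap ℚ ℝ) (g : GL (Fin 2) ℚ)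

/-- `Z` is a special subvariety of the product of the modular curves of `Γ j`: the coordinates `j` with `p j = none` are
the CM points with the parameters `c j`, the coordinates `j` with `p j = some k` are the images of `g j • t k`, where `t k` runs
over the upper half plane and `g j` is a fixed rational matrix with positive determinant -/
def Special {ι : Type} (Γ : ι → Subgroup SL(2, ℤ)) (Z : Set (∀ j, Curve (Γ j))) : Prop :=
  ∃ (p : ι → Option ι) (c : ι → ℍ) (g : ι → Matrix.GLPos (Fin 2) ℚ),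
    (∀ j, p j = none → ∃ D, HasDisc (proj (Γ j) (c j)) D) ∧
    Z = {y | ∃ t : ι → ℍ, ∀ j, (p j = none → y j = proj (Γ j) (c j)) ∧ ∀ k, p j = some k → y j = proj (Γ j) (ratGL (g j) • t k)}

/-- each proper special subvariety contains only finitely many of the points `x i` -/
def StrictSeq {ι : Type} {Γ : ι → Subgroup SL(2, ℤ)} (x : ℕ → ∀ j, CMPoint (Γ j)) : Prop :=
  ∀ Z : Set (∀ j, Curve (Γ j)), Special Γ Z → Z ≠ Set.univ → {i | (fun j => (x i j).pt) ∈ Z}.Finite

/-- the points `y` and `y'` are related by an isogeny of degree `N`: their parameters are related by an integral matrix with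
determinant `N` -/
def Isog {Γ Γ' : Subgroup SL(2, ℤ)} (N : ℕ) (y : Curve Γ) (y' : Curve Γ') : Prop :=
  ∃ (A : GL (Fin 2) ℝ) (B : Matrix (Fin 2) (Fin 2) ℤ) (z : ℍ), B.det = N ∧
    (A : Matrix (Fin 2) (Fin 2) ℝ) = B.map (fun t => (t : ℝ)) ∧ proj Γ (A • z) = y ∧ proj Γ' z = y'

lemma ratGL_one : ratGL 1 = 1 := by
  unfold ratGL
  rw [OneMemClass.coe_one, map_one]

lemma ratGL_mul (g h : Matrix.GLPos (Fin 2) ℚ) : ratGL (g * h) = ratGL g * ratGL h := by
  unfold ratGL
  rw [Subgroup.coe_mul, map_mul]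

lemma exists_integral (h : Matrix (Fin 2) (Fin 2) ℚ) : ∃ c : ℕ, 0 < c ∧ ∃ B : Matrix (Fin 2) (Fin 2) ℤ, ∀ i j, (c : ℚ) * h i j = B i j := by
  refine ⟨∏ p : Fin 2 × Fin 2, (h p.1 p.2).den, Finset.prod_pos (fun p _ => (h p.1 p.2).den_pos), ?_⟩
  have h1 : ∀ i j, ∃ b : ℤ, ((∏ p : Fin 2 × Fin 2, (h p.1 p.2).den : ℕ) : ℚ) * h i j = b := by
    intro i j
    obtain ⟨k, hk⟩ : (h i j).den ∣ ∏ p : Fin 2 × Fin 2, (h p.1 p.2).den :=
      Finset.dvd_prod_of_mem (fun p : Fin 2 × Fin 2 => (h p.1 p.2).den) (Finset.mem_univ (i, j))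
    refine ⟨k * (h i j).num, ?_⟩
    rw [hk]
    push_cast
    have := Rat.den_mul_eq_num (h i j)
    calc ((h i j).den : ℚ) * k * h i j = k * ((h i j).den * h i j) := by ring
      _ = k * (h i j).num := by rw [this]
  choose B hB using h1
  exact ⟨B, hB⟩

/-- two coordinates which are given by the same parameter are related by an isogeny -/
lemma exists_isog (g1 g2 : Matrix.GLPos (Fin 2) ℚ) : ∃ N : ℕ, 0 < N ∧ ∀ (Γ Γ' : Subgroup SL(2, ℤ)) (t : ℍ),
    Isog N (proj Γ (ratGL g1 • t)) (proj Γ' (ratGL g2 • t)) := by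
  obtain ⟨h, hh⟩ : ∃ h, h = g1 * g2⁻¹ := ⟨_, rfl⟩
  obtain ⟨c, hc, B, hB⟩ := exists_integral ((h : GL (Fin 2) ℚ) : Matrix (Fin 2) (Fin 2) ℚ)
  have hdet : (0 : ℚ) < ((h : GL (Fin 2) ℚ) : Matrix (Fin 2) (Fin 2) ℚ).det := h.2
  have hBdet : (B.det : ℚ) = (c : ℚ) ^ 2 * ((h : GL (Fin 2) ℚ) : Matrix (Fin 2) (Fin 2) ℚ).det := by
    rw [Matrix.det_fin_two, Matrix.det_fin_two]
    push_cast
    rw [← hB 0 0, ← hB 0 1, ← hB 1 0, ← hB 1 1]
    ring
  have hBpos : 0 < B.det := by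
    have h1 : (0 : ℚ) < (B.det : ℚ) := by
      rw [hBdet]
      positivity
    exact_mod_cast h1
  refine ⟨B.det.toNat, by omega, fun Γ Γ' t => ?_⟩
  have hcu : ((c : ℝ)) ≠ 0 := by positivity
  refine ⟨Matrix.GeneralLinearGroup.scalar (Fin 2) (Units.mk0 (c : ℝ) hcu) * ratGL h, B, ratGL g2 • t, ?_, ?_, ?_, rfl⟩
  · omega
  · ext i j
    rw [Units.val_mul]
    have h1 : ((Matrix.GeneralLinearGroup.scalar (Fin 2) (Units.mk0 (c : ℝ) hcu) : GL (Fin 2) ℝ) : Matrix (Fin 2) (Fin 2) ℝ) =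
        Matrix.scalar (Fin 2) (c : ℝ) := rfl
    rw [h1]
    have h2 : ((ratGL h : GL (Fin 2) ℝ) : Matrix (Fin 2) (Fin 2) ℝ) i j = (((h : GL (Fin 2) ℚ) : Matrix (Fin 2) (Fin 2) ℚ) i j : ℝ) := rfl
    rw [Matrix.scalar_apply, Matrix.diagonal_mul, h2, Matrix.map_apply]
    have h3 := hB i j
    have h4 : ((c : ℚ) * ((h : GL (Fin 2) ℚ) : Matrix (Fin 2) (Fin 2) ℚ) i j : ℝ) = ((B i j : ℚ) : ℝ) := by
      rw [← h3]
      push_cast
      rfl
    simpa using h4
  · rw [mul_smul, UpperHalfPlane.glScalar_smul, smul_smul, ← ratGL_mul, hh, inv_mul_cancel_right]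

end Pool.Agent.Run7.h762.EQ
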