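import Pool.Agent.Run7.h762.EQ.J1

/-!
# Strict sequences: the criterion by discriminants and isogenies
-/

set_option autoImplicit false
set_option linter.style.haveILetI false
set_option linter.deprecated false

open MeasureTheory Filter Topology
open scoped UpperHalfPlane MatrixGroups ENNReal

namespace Pool.Agent.Run7.h762.EQ

/-- integral matrices with determinant `N` are representatives up to the left action of the modular group -/
lemma exists_rep {N : ℤ} (hN : N ≠ 0) (A : FixedDetMatrix (Fin 2) ℤ N) : ∃ γ : SL(2, ℤ), ∃ R ∈ FixedDetMatrices.reps N, A = γ • R := by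
  induction A using FixedDetMatrices.induction_on hN with
  | h0 A h1 h2 h3 h4 => exact ⟨1, A, ⟨h1, h2, h3, h4⟩, (one_smul _ A).symm⟩
  | hS B hB =>
    obtain ⟨γ, R, hR, h⟩ := hB
    exact ⟨ModularGroup.S * γ, R, hR, by rw [h, mul_smul]⟩
  | hT B hB =>
    obtain ⟨γ, R, hR, h⟩ := hB
    exact ⟨ModularGroup.T * γ, R, hR, by rw [h, mul_smul]⟩

/-- the rational matrix of an integral matrix -/
noncomputable def intGL {N : ℕ} (hN : 0 < N) (B : FixedDetMatrix (Fin 2) ℤ (N : ℤ)) : Matrix.GLPos (Fin 2) ℚ :=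
  ⟨Matrix.GeneralLinearGroup.mkOfDetNeZero (B.1.map (fun t => (t : ℚ))) (by
    have h := B.2
    have h2 : (B.1.map (fun t => (t : ℚ))).det = (B.1.det : ℚ) := by
      rw [Matrix.det_fin_two, Matrix.det_fin_two]
      push_cast
      rfl
    rw [h2, h]
    positivity), by
    have h := B.2
    have h2 : (B.1.map (fun t => (t : ℚ))).det = (B.1.det : ℚ) := by
      rw [Matrix.det_fin_two, Matrix.det_fin_two]
      push_cast
      rfl
    show (0 : ℚ) < (B.1.map (fun t => (t : ℚ))).det
    rw [h2, h]
    positivity⟩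

lemma ratGL_intGL {N : ℕ} (hN : 0 < N) (B : FixedDetMatrix (Fin 2) ℤ (N : ℤ)) (i j : Fin 2) :
    ((ratGL (intGL hN B) : GL (Fin 2) ℝ) : Matrix (Fin 2) (Fin 2) ℝ) i j = (B.1 i j : ℝ) := by
  have h : ((ratGL (intGL hN B) : GL (Fin 2) ℝ) : Matrix (Fin 2) (Fin 2) ℝ) i j = ((B.1 i j : ℚ) : ℝ) := rfl
  rw [h]
  push_cast
  rfl

/-- finitely many matrices give all the pairs related by an isogeny of degree `N` -/
lemma finite_isog (Γ : Subgroup SL(2, ℤ)) (hΓ : Γ.FiniteIndex) {N : ℕ} (hN : 0 < N) : ∃ W : Set (Matrix.GLPos (Fin 2) ℚ), W.Finite ∧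
    ∀ (Γ' : Subgroup SL(2, ℤ)) (y : Curve Γ) (y' : Curve Γ'), Isog N y y' → ∃ g ∈ W, ∃ t : ℍ, y = proj Γ (ratGL g • t) ∧ y' = proj Γ' t := by
  haveI := hΓ
  have hfin : Finite ((SL(2, ℤ) ⧸ Γ) × FixedDetMatrices.reps (N : ℤ)) := inferInstance
  have hN' : (N : ℤ) ≠ 0 := by exact_mod_cast hN.ne'
  refine ⟨Set.range (fun q : (SL(2, ℤ) ⧸ Γ) × FixedDetMatrices.reps (N : ℤ) => intGL hN ((q.1.out)⁻¹ • q.2.1)), Set.finite_range _, ?_⟩
  rintro Γ' y y' ⟨A, B, z, hdet, hAB, rfl, rfl⟩
  obtain ⟨γ, R, hR, h⟩ := exists_rep hN' (⟨B, hdet⟩ : FixedDetMatrix (Fin 2) ℤ (N : ℤ))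
  obtain ⟨q, hq⟩ : ∃ q : SL(2, ℤ) ⧸ Γ, q = QuotientGroup.mk γ⁻¹ := ⟨_, rfl⟩
  have hq2 : (q.out)⁻¹ * γ⁻¹ ∈ Γ := by
    rw [← QuotientGroup.eq, ← hq]
    exact Quotient.out_eq' q
  refine ⟨_, ⟨(q, ⟨R, hR⟩), rfl⟩, z, ?_, rfl⟩
  rw [proj_eq_iff]
  refine ⟨γ * q.out, ?_, ?_⟩
  · have := Γ.inv_mem hq2
    rwa [mul_inv_rev, inv_inv, inv_inv] at this
  · have e0 : ∀ (g : SL(2, ℤ)) (w : ℍ), g • w = (Matrix.SpecialLinearGroup.mapGL ℝ g) • w := fun _ _ => rfl
    rw [e0, smul_smul]
    congr 1
    have e1 : (⟨B, hdet⟩ : FixedDetMatrix (Fin 2) ℤ (N : ℤ)) = (γ * q.out) • ((q.out)⁻¹ • R) := by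
      rw [h, smul_smul, mul_assoc, mul_inv_cancel, mul_one]
    have e2 := congrArg Subtype.val e1
    rw [FixedDetMatrices.smul_coe] at e2
    have e3 : B = ((γ * q.out : SL(2, ℤ)) : Matrix (Fin 2) (Fin 2) ℤ) * ((q.out)⁻¹ • R).1 := e2
    ext i j
    rw [hAB, Units.val_mul, Matrix.map_apply, Matrix.mul_apply, e3, Matrix.mul_apply]
    push_cast
    apply Finset.sum_congr rfl
    intro k _
    rw [ratGL_intGL]
    rfl

section countable

/-- the upper half plane is uncountable -/
lemma not_surj_countable {α : Type*} [Countable α] (f : α → ℍ) : ¬ Function.Surjective f := by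
  intro h
  have h2 : Countable ℍ := h.countable
  have h3 : Function.Injective (fun t : ℝ => (⟨(t : ℂ) + Complex.I, by simp⟩ : ℍ)) := by
    intro t s h
    have h4 := congrArg (fun w : ℍ => (w : ℂ).re) h
    simpa using h4
  have h5 : Countable ℝ := h3.countable
  exact Cardinal.not_countable_real (Set.countable_univ_iff.2 h5)

lemma countable_SL : Countable SL(2, ℤ) := by
  haveI : Countable (Matrix (Fin 2) (Fin 2) ℤ) := inferInstanceAs (Countable (Fin 2 → Fin 2 → ℤ))
  exact Subtype.countable

end countable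

variable {ι : Type} [DecidableEq ι] {Γ : ι → Subgroup SL(2, ℤ)}

/-- fixing one coordinate gives a proper special subvariety -/
lemma coord_special' (j : ι) (c : CMPoint (Γ j)) : Special Γ {y | y j = c.pt} ∧ ({y | y j = c.pt} : Set (∀ j, Curve (Γ j))) ≠ Set.univ := by
  obtain ⟨z, hz⟩ := proj_surjective (Γ j) c.pt
  constructor
  · refine ⟨fun l => if l = j then none else some l, fun _ => z, fun _ => 1, ?_, ?_⟩
    · intro l hl
      have hl' : (if l = j then none else some l : Option ι) = none := hl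
      have hlj : l = j := by
        by_contra h
        rw [if_neg h] at hl'
        exact absurd hl' (by simp)
      subst hlj
      rw [hz]
      exact c.2
    · ext y
      rw [Set.mem_setOf_eq, Set.mem_setOf_eq]
      constructor
      · intro hy
        choose t ht using fun l => proj_surjective (Γ l) (y l)
        refine ⟨t, fun l => ⟨fun hl => ?_, fun k hk => ?_⟩⟩
        · have hl' : (if l = j then none else some l : Option ι) = none := hl
          have hlj : l = j := by
            by_contra h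
            rw [if_neg h] at hl'
            exact absurd hl' (by simp)
          subst hlj
          rw [hz, hy]
        · have hk' : (if l = j then none else some l : Option ι) = some k := hk
          have hkl : k = l := by
            by_cases h : l = j
            · rw [if_pos h] at hk'
              exact absurd hk' (by simp)
            · rw [if_neg h] at hk'
              exact (Option.some.inj hk').symm
          subst hkl
          rw [ratGL_one, one_smul, ht k]
      · rintro ⟨t, ht⟩
        rw [(ht j).1 (if_pos rfl), hz]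
  · intro h
    obtain ⟨w, hw⟩ := exists_ne_proj (Γ j) z
    have h1 : (fun l => if h : l = j then h ▸ proj (Γ j) w else proj (Γ l) w) ∈ ({y | y j = c.pt} : Set (∀ j, Curve (Γ j))) := by
      rw [h]
      exact Set.mem_univ _
    rw [Set.mem_setOf_eq] at h1
    simp only [dite_true] at h1
    exact hw (h1.trans hz.symm)

/-- relating two coordinates gives a proper special subvariety -/
lemma pair_special {j l : ι} (hjl : j ≠ l) (g : Matrix.GLPos (Fin 2) ℚ) :
    Special Γ {y | ∃ t : ℍ, y j = proj (Γ j) (ratGL g • t) ∧ y l = proj (Γ l) t} ∧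
    ({y | ∃ t : ℍ, y j = proj (Γ j) (ratGL g • t) ∧ y l = proj (Γ l) t} : Set (∀ j, Curve (Γ j))) ≠ Set.univ := by
  constructor
  · refine ⟨fun q => if q = l then some j else some q, fun _ => UpperHalfPlane.I, fun q => if q = j then g else 1, ?_, ?_⟩
    · intro q hq
      have hq' : (if q = l then some j else some q : Option ι) = none := hq
      by_cases h : q = l
      · rw [if_pos h] at hq'
        exact absurd hq' (by simp)
      · rw [if_neg h] at hq'
        exact absurd hq' (by simp)
    · ext y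
      rw [Set.mem_setOf_eq, Set.mem_setOf_eq]
      constructor
      · rintro ⟨t, h1, h2⟩
        choose s hs using fun q => proj_surjective (Γ q) (y q)
        refine ⟨fun q => if q = j then t else s q, fun q => ⟨fun hq => ?_, fun k hk => ?_⟩⟩
        · have hq' : (if q = l then some j else some q : Option ι) = none := hq
          by_cases h : q = l
          · rw [if_pos h] at hq'
            exact absurd hq' (by simp)
          · rw [if_neg h] at hq'
            exact absurd hq' (by simp)
        · have hk' : (if q = l then some j else some q : Option ι) = some k := hk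
          by_cases h : q = l
          · rw [if_pos h] at hk'
            have hkj : k = j := (Option.some.inj hk').symm
            subst hkj
            subst h
            simp only [if_true, if_neg hjl.symm]
            rw [ratGL_one, one_smul]
            exact h2
          · rw [if_neg h] at hk'
            have hkq : k = q := (Option.some.inj hk').symm
            subst hkq
            by_cases hkj : k = j
            · subst hkj
              simp only [if_true]
              exact h1
            · simp only [if_neg hkj]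
              rw [ratGL_one, one_smul]
              exact (hs k).symm
      · rintro ⟨t, ht⟩
        refine ⟨t j, ?_, ?_⟩
        · have h1 : y j = proj (Γ j) (ratGL (if j = j then g else 1) • t j) :=
            (ht j).2 j (by show (if j = l then some j else some j : Option ι) = some j; rw [if_neg hjl])
          rwa [if_pos rfl] at h1
        · have h1 : y l = proj (Γ l) (ratGL (if l = j then g else 1) • t j) :=
            (ht l).2 j (by show (if l = l then some j else some l : Option ι) = some j; rw [if_pos rfl])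
          rwa [if_neg hjl.symm, ratGL_one, one_smul] at h1
  · intro h
    haveI := countable_SL
    apply not_surj_countable (fun q : SL(2, ℤ) × SL(2, ℤ) => q.1 • (ratGL g • (q.2 • UpperHalfPlane.I)))
    intro w
    have h1 : (fun q => if h : q = j then h ▸ proj (Γ j) w else proj (Γ q) UpperHalfPlane.I) ∈
        ({y | ∃ t : ℍ, y j = proj (Γ j) (ratGL g • t) ∧ y l = proj (Γ l) t} : Set (∀ j, Curve (Γ j))) := by
      rw [h]
      exact Set.mem_univ _
    obtain ⟨t, h2, h3⟩ := h1
    simp only [dite_true] at h2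
    simp only [dif_neg hjl.symm] at h3
    obtain ⟨γ, -, h4⟩ := (proj_eq_iff _ _ _).1 h2
    obtain ⟨γ', -, h5⟩ := (proj_eq_iff _ _ _).1 h3.symm
    exact ⟨(γ, γ'), by rw [h4, h5]⟩

/-- in a strict sequence each point occurs finitely often in each coordinate -/
lemma StrictSeq.disc_tendsto {x : ℕ → ∀ j, CMPoint (Γ j)} (hx : StrictSeq x) (hfin : ∀ j, ∀ D : ℤ, {y : CMPoint (Γ j) | disc y = D}.Finite)
    (j : ι) (R : ℝ) : ∀ᶠ i in atTop, R ≤ |(disc (x i j) : ℝ)| := by
  have hP : {p : CMPoint (Γ j) | |(disc p : ℝ)| < R}.Finite := by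
    have h1 : {p : CMPoint (Γ j) | |(disc p : ℝ)| < R} ⊆ ⋃ D ∈ Set.Icc (-⌈R⌉) ⌈R⌉, {p : CMPoint (Γ j) | disc p = D} := by
      intro p hp
      rw [Set.mem_setOf_eq, abs_lt] at hp
      rw [Set.mem_iUnion₂]
      refine ⟨disc p, ⟨?_, ?_⟩, rfl⟩
      · have : (-⌈R⌉ : ℝ) ≤ (disc p : ℝ) := by
          have := Int.le_ceil R
          linarith
        exact_mod_cast this
      · have : (disc p : ℝ) ≤ (⌈R⌉ : ℝ) := hp.2.le.trans (Int.le_ceil R)
        exact_mod_cast this
    exact ((Set.finite_Icc _ _).biUnion (fun D _ => hfin j D)).subset h1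
  have h2 : {i | ¬ R ≤ |(disc (x i j) : ℝ)|}.Finite := by
    have h3 : {i | ¬ R ≤ |(disc (x i j) : ℝ)|} ⊆ ⋃ p ∈ {p : CMPoint (Γ j) | |(disc p : ℝ)| < R}, {i | x i j = p} := by
      intro i hi
      rw [Set.mem_setOf_eq, not_le] at hi
      rw [Set.mem_iUnion₂]
      exact ⟨x i j, hi, rfl⟩
    refine (hP.biUnion (fun p _ => ?_)).subset h3
    obtain ⟨h4, h5⟩ := coord_special' j p
    apply (hx _ h4 h5).subset
    intro i hi
    have hi' : x i j = p := hi
    show (x i j).pt = p.pt
    rw [hi']
  rw [← Nat.cofinite_eq_atTop]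
  exact h2

/-- in a strict sequence each isogeny degree occurs finitely often for each pair of coordinates -/
lemma StrictSeq.isog_finite {x : ℕ → ∀ j, CMPoint (Γ j)} (hx : StrictSeq x) (hΓ : ∀ j, (Γ j).FiniteIndex) {j l : ι} (hjl : j ≠ l)
    {N : ℕ} (hN : 0 < N) : ∀ᶠ i in atTop, ¬ Isog N (x i j).pt (x i l).pt := by
  obtain ⟨W, hW, h⟩ := finite_isog (Γ j) (hΓ j) hN
  have h2 : {i | ¬ ¬ Isog N (x i j).pt (x i l).pt}.Finite := by
    have h3 : {i | ¬ ¬ Isog N (x i j).pt (x i l).pt} ⊆ ⋃ g ∈ W, {i | (fun j => (x i j).pt) ∈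
        ({y | ∃ t : ℍ, y j = proj (Γ j) (ratGL g • t) ∧ y l = proj (Γ l) t} : Set (∀ j, Curve (Γ j)))} := by
      intro i hi
      rw [Set.mem_setOf_eq, not_not] at hi
      obtain ⟨g, hg, t, h4, h5⟩ := h _ _ _ hi
      rw [Set.mem_iUnion₂]
      exact ⟨g, hg, t, h4, h5⟩
    refine (hW.biUnion (fun g _ => ?_)).subset h3
    obtain ⟨h4, h5⟩ := pair_special (Γ := Γ) hjl g
    exact hx _ h4 h5
  rw [← Nat.cofinite_eq_atTop]
  exact h2

/-- the criterion for strict sequences -/
lemma strictSeq_of {x : ℕ → ∀ j, CMPoint (Γ j)} (h1 : ∀ j, ∀ R : ℝ, ∀ᶠ i in atTop, R ≤ |(disc (x i j) : ℝ)|)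
    (h2 : ∀ j l, j ≠ l → ∀ N : ℕ, 0 < N → ∀ᶠ i in atTop, ¬ Isog N (x i j).pt (x i l).pt) : StrictSeq x := by
  rintro Z ⟨p, c, g, hc, hZ⟩ hne
  suffices hsuf : ∀ᶠ i in atTop, (fun j => (x i j).pt) ∉ Z by
    rw [← Nat.cofinite_eq_atTop] at hsuf
    have := Filter.eventually_cofinite.1 hsuf
    simpa using this
  by_cases hnone : ∃ j, p j = none
  · obtain ⟨j, hj⟩ := hnone
    obtain ⟨q, hq⟩ : ∃ q : CMPoint (Γ j), q.pt = proj (Γ j) (c j) := ⟨⟨proj (Γ j) (c j), hc j hj⟩, rfl⟩
    filter_upwards [h1 j (|(disc q : ℝ)| + 1)] with i hi hmem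
    rw [hZ] at hmem
    obtain ⟨t, ht⟩ := hmem
    have h3 : (x i j).pt = q.pt := by rw [hq]; exact (ht j).1 hj
    have h4 := CMPoint.pt_injective h3
    rw [h4] at hi
    linarith
  · push Not at hnone
    by_cases hinj : ∃ j l, j ≠ l ∧ p j = p l
    · obtain ⟨j, l, hjl, hp⟩ := hinj
      obtain ⟨N, hN, hiso⟩ := exists_isog (g j) (g l)
      filter_upwards [h2 j l hjl N hN] with i hi hmem
      rw [hZ] at hmem
      obtain ⟨t, ht⟩ := hmem
      obtain ⟨k, hk⟩ := Option.ne_none_iff_exists'.1 (hnone j)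
      apply hi
      have e1 : (x i j).pt = proj (Γ j) (ratGL (g j) • t k) := (ht j).2 k hk
      have e2 : (x i l).pt = proj (Γ l) (ratGL (g l) • t k) := (ht l).2 k (by rw [← hp, hk])
      rw [e1, e2]
      exact hiso _ _ _
    · push Not at hinj
      exfalso
      apply hne
      rw [hZ, Set.eq_univ_iff_forall]
      intro y
      choose q hq using fun j => Option.ne_none_iff_exists'.1 (hnone j)
      choose s hs using fun j => proj_surjective (Γ j) (y j)
      have hqi : Function.Injective q := by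
        intro j l h
        by_contra hne
        exact hinj j l hne (by rw [hq, hq, h])
      refine ⟨Function.extend q (fun j => (ratGL (g j))⁻¹ • s j) (fun _ => UpperHalfPlane.I), fun j => ⟨fun hj => absurd hj (hnone j), fun k hk => ?_⟩⟩
      have hkq : k = q j := by
        rw [hq] at hk
        exact (Option.some.inj hk).symm
      rw [hkq, hqi.extend_apply, smul_inv_smul, hs]

end Pool.Agent.Run7.h762.EQ
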