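import Mathlib

/-!
# Squares in a finite abelian group which is embedded in a product
-/

set_option autoImplicit false
set_option linter.style.haveILetI false
set_option linter.deprecated false

open Finset

namespace Pool.Agent.Run7.h762.EQ

/-- the index of the squares is the number of the elements of order two -/
lemma card_ker_eq (A : Type*) [CommGroup A] [Finite A] :
    (powMonoidHom 2 : A →* A).range.index = Nat.card (powMonoidHom 2 : A →* A).ker := by
  have h1 := (powMonoidHom 2 : A →* A).range.card_mul_index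
  have h2 := (powMonoidHom 2 : A →* A).ker.card_mul_index
  rw [Subgroup.index_ker] at h2
  have h3 : 0 < Nat.card (powMonoidHom 2 : A →* A).range := Nat.card_pos
  have h4 : Nat.card (powMonoidHom 2 : A →* A).range * (powMonoidHom 2 : A →* A).range.index =
      Nat.card (powMonoidHom 2 : A →* A).range * Nat.card (powMonoidHom 2 : A →* A).ker := by
    rw [h1, ← h2, mul_comm]
  exact Nat.eq_of_mul_eq_mul_left h3 h4

/-- representatives modulo squares give a bound for the number of the elements of order two -/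
lemma card_ker_le (A : Type*) [CommGroup A] [Finite A] (T : Finset A) (hT : ∀ a, ∃ t ∈ T, ∃ b, a = t * b ^ 2) :
    Nat.card (powMonoidHom 2 : A →* A).ker ≤ T.card := by
  classical
  rw [← card_ker_eq]
  have h1 : Function.Surjective (fun t : T => (QuotientGroup.mk (t : A) : A ⧸ (powMonoidHom 2 : A →* A).range)) := by
    intro q
    induction q using QuotientGroup.induction_on with
    | H a =>
      obtain ⟨t, ht, b, hb⟩ := hT a
      refine ⟨⟨t, ht⟩, ?_⟩
      rw [QuotientGroup.eq]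
      refine ⟨b, ?_⟩
      rw [hb]
      simp [powMonoidHom_apply]
  have h2 := Nat.card_le_card_of_surjective _ h1
  have h3 : Nat.card T = T.card := by simp
  rw [h3] at h2
  exact h2

section

variable {B : Type*} [Group B] {J : Type*} [Fintype J] {Q : J → Type*} [∀ j, CommGroup (Q j)] [∀ j, Finite (Q j)]

/-- common representatives modulo squares -/
lemma common_reps (φ : ∀ j, B →* Q j) (hφ : ∀ j, Function.Surjective (φ j)) (T : J → Finset B)
    (hT : ∀ j σ, ∃ t ∈ T j, ∃ b, φ j σ = φ j (t * b ^ 2)) :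
    ∃ T' : Finset B, T'.card ≤ ∏ j, (T j).card ∧ ∀ σ, ∃ t ∈ T', ∃ b, ∀ j, φ j σ = φ j (t * b ^ 2) := by
  classical
  obtain ⟨ψ, hψ⟩ : ∃ ψ : B →* (∀ j, Q j), ∀ σ j, ψ σ j = φ j σ := ⟨Pi.monoidHom φ, fun σ j => rfl⟩
  obtain ⟨A, hA⟩ : ∃ A : Subgroup (∀ j, Q j), A = ψ.range := ⟨_, rfl⟩
  have hmem : ∀ σ, ψ σ ∈ A := fun σ => by rw [hA]; exact ⟨σ, rfl⟩
  -- the elements of order two
  have h1 : Nat.card (powMonoidHom 2 : A →* A).ker ≤ ∏ j, (T j).card := by
    have h2 : Nat.card (powMonoidHom 2 : A →* A).ker ≤ Nat.card (∀ j, (powMonoidHom 2 : Q j →* Q j).ker) := by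
      let f : (powMonoidHom 2 : A →* A).ker → ∀ j, (powMonoidHom 2 : Q j →* Q j).ker := fun x j => ⟨(x.1 : ∀ j, Q j) j, by
        have h3 : x.1 ^ 2 = 1 := x.2
        have h4 : ((x.1 : ∀ j, Q j)) ^ 2 = 1 := by exact_mod_cast congrArg Subtype.val h3
        have h5 := congrFun h4 j
        show ((x.1 : ∀ j, Q j) j) ^ 2 = 1
        simpa using h5⟩
      apply Nat.card_le_card_of_injective f
      intro x y hxy
      apply Subtype.ext
      apply Subtype.ext
      funext j
      exact congrArg Subtype.val (congrFun hxy j)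
    refine h2.trans ?_
    rw [Nat.card_pi]
    apply Finset.prod_le_prod (fun j _ => Nat.zero_le _)
    intro j _
    have h3 : Nat.card (powMonoidHom 2 : Q j →* Q j).ker ≤ ((T j).image (φ j)).card := by
      apply card_ker_le
      intro a
      obtain ⟨σ, rfl⟩ := hφ j a
      obtain ⟨t, ht, b, hb⟩ := hT j σ
      exact ⟨φ j t, mem_image_of_mem _ ht, φ j b, by rw [hb, map_mul, map_pow]⟩
    exact h3.trans card_image_le
  rw [← card_ker_eq] at h1
  -- representatives
  have hfin : Finite (A ⧸ (powMonoidHom 2 : A →* A).range) := inferInstance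
  have hlift : ∀ q : A ⧸ (powMonoidHom 2 : A →* A).range, ∃ σ : B, QuotientGroup.mk (⟨ψ σ, hmem σ⟩ : A) = q := by
    intro q
    induction q using QuotientGroup.induction_on with
    | H a =>
      obtain ⟨a, ha⟩ := a
      rw [hA] at ha
      obtain ⟨σ, hσ⟩ := ha
      exact ⟨σ, by congr 1; exact Subtype.ext hσ⟩
  choose r hr using hlift
  haveI := Fintype.ofFinite (A ⧸ (powMonoidHom 2 : A →* A).range)
  refine ⟨univ.image r, ?_, ?_⟩
  · refine card_image_le.trans ?_
    rw [card_univ, ← Nat.card_eq_fintype_card]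
    exact h1
  · intro σ
    refine ⟨r (QuotientGroup.mk (⟨ψ σ, hmem σ⟩ : A)), mem_image_of_mem _ (mem_univ _), ?_⟩
    have h2 := hr (QuotientGroup.mk (⟨ψ σ, hmem σ⟩ : A))
    rw [QuotientGroup.eq] at h2
    obtain ⟨⟨a, ha⟩, h3⟩ := h2
    rw [hA] at ha
    obtain ⟨b, hb⟩ := ha
    refine ⟨b, fun j => ?_⟩
    have h4 := congrArg (fun x : A => (x : ∀ j, Q j) j) h3
    simp only [powMonoidHom_apply] at h4
    have h5 : (a j) ^ 2 = (φ j (r (QuotientGroup.mk (⟨ψ σ, hmem σ⟩ : A))))⁻¹ * φ j σ := by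
      rw [← hψ, ← hψ]
      exact h4
    rw [map_mul, map_pow]
    have h6 : φ j b = a j := by rw [← hψ, hb]
    rw [h6, h5, mul_inv_cancel_left]

end

section action

variable {G : Type*} [Group G] {J : Type*} [Fintype J] {Z : J → Type*}

/-- common representatives modulo squares, for commuting actions -/
lemma common_reps_act (B : Subgroup G) (b : ∀ j, G → Z j → Z j) (y : ∀ j, Z j) (h1 : ∀ j z, b j 1 z = z)
    (hmul : ∀ j, ∀ σ ∈ B, ∀ τ ∈ B, ∀ z, b j (σ * τ) z = b j σ (b j τ z))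
    (hcomm : ∀ j, ∀ σ ∈ B, ∀ τ ∈ B, b j (σ * τ) (y j) = b j (τ * σ) (y j))
    (hfin : ∀ j, {z | ∃ σ ∈ B, b j σ (y j) = z}.Finite) (T : J → Finset G)
    (hTB : ∀ j, ∀ t ∈ T j, t ∈ B) (hT : ∀ j, ∀ σ ∈ B, ∃ t ∈ T j, ∃ c ∈ B, b j σ (y j) = b j (t * c ^ 2) (y j)) :
    ∃ T' : Finset G, T'.card ≤ ∏ j, (T j).card ∧ (∀ t ∈ T', t ∈ B) ∧
      ∀ σ ∈ B, ∃ t ∈ T', ∃ c ∈ B, ∀ j, b j σ (y j) = b j (t * c ^ 2) (y j) := by
  classical
  let N : J → Subgroup B := fun j =>
    { carrier := {σ | b j σ (y j) = y j}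
      one_mem' := by
        show b j ((1 : B) : G) (y j) = y j
        rw [OneMemClass.coe_one, h1]
      mul_mem' := by
        intro σ τ hσ hτ
        have hσ' : b j σ (y j) = y j := hσ
        have hτ' : b j τ (y j) = y j := hτ
        show b j ((σ * τ : B) : G) (y j) = y j
        rw [Subgroup.coe_mul, hmul j _ σ.2 _ τ.2, hτ', hσ']
      inv_mem' := by
        intro σ hσ
        have hσ' : b j σ (y j) = y j := hσ
        show b j ((σ⁻¹ : B) : G) (y j) = y j
        rw [InvMemClass.coe_inv]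
        calc b j (σ : G)⁻¹ (y j) = b j (σ : G)⁻¹ (b j σ (y j)) := by rw [hσ']
          _ = y j := by rw [← hmul j _ (B.inv_mem σ.2) _ σ.2, inv_mul_cancel, h1] }
  have hN : ∀ j (σ : B), σ ∈ N j ↔ b j σ (y j) = y j := fun j σ => Iff.rfl
  have heq : ∀ j (σ τ : B), σ⁻¹ * τ ∈ N j ↔ b j σ (y j) = b j τ (y j) := by
    intro j σ τ
    rw [hN, Subgroup.coe_mul, InvMemClass.coe_inv, hmul j _ (B.inv_mem σ.2) _ τ.2]
    constructor
    · intro h
      have h2 := congrArg (b j σ) h
      rw [← hmul j _ σ.2 _ (B.inv_mem σ.2), mul_inv_cancel, h1] at h2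
      exact h2.symm
    · intro h
      rw [← h, ← hmul j _ (B.inv_mem σ.2) _ σ.2, inv_mul_cancel, h1]
  have hnorm : ∀ j, (N j).Normal := by
    intro j
    constructor
    intro σ hσ g
    rw [hN] at hσ ⊢
    have h2 := hcomm j (g * σ : B) (g * σ : B).2 (g⁻¹ : B) (g⁻¹ : B).2
    have h3 : ((g * σ * g⁻¹ : B) : G) = ((g * σ : B) : G) * ((g⁻¹ : B) : G) := Subgroup.coe_mul _ _ _
    have h4 : ((g⁻¹ : B) : G) * ((g * σ : B) : G) = σ := by
      rw [← Subgroup.coe_mul, inv_mul_cancel_left]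
    rw [h3, h2, h4, hσ]
  letI : ∀ j, CommGroup (B ⧸ N j) := fun j =>
    { (inferInstance : Group (B ⧸ N j)) with
      mul_comm := by
        intro u v
        induction u using QuotientGroup.induction_on with
        | H u =>
          induction v using QuotientGroup.induction_on with
          | H v =>
            have h2 : ((u * v : B) : B ⧸ N j) = ((v * u : B) : B ⧸ N j) := by
              rw [QuotientGroup.eq, heq, Subgroup.coe_mul, Subgroup.coe_mul]
              exact hcomm j _ u.2 _ v.2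
            exact h2 }
  haveI : ∀ j, Finite (B ⧸ N j) := by
    intro j
    haveI : Finite {z | ∃ σ ∈ B, b j σ (y j) = z} := (hfin j).to_subtype
    let f : B ⧸ N j → {z | ∃ σ ∈ B, b j σ (y j) = z} := fun q => ⟨b j q.out (y j), ⟨q.out, q.out.2, rfl⟩⟩
    apply Finite.of_injective f
    intro p q hpq
    have h2 : b j p.out (y j) = b j q.out (y j) := congrArg Subtype.val hpq
    rw [← heq, ← QuotientGroup.eq] at h2
    have hp : (QuotientGroup.mk p.out : B ⧸ N j) = p := Quotient.out_eq' p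
    have hq : (QuotientGroup.mk q.out : B ⧸ N j) = q := Quotient.out_eq' q
    rw [← hp, ← hq, h2]
  obtain ⟨T2, hT2⟩ : ∃ T2 : J → Finset B, T2 = fun j => (T j).attach.image (fun t => (⟨t.1, hTB j t.1 t.2⟩ : B)) := ⟨_, rfl⟩
  have key : ∃ T' : Finset B, T'.card ≤ ∏ j, (T2 j).card ∧ ∀ σ, ∃ t ∈ T', ∃ c, ∀ j,
      QuotientGroup.mk' (N j) σ = QuotientGroup.mk' (N j) (t * c ^ 2) := by
    apply common_reps (fun j => QuotientGroup.mk' (N j)) (fun j => QuotientGroup.mk'_surjective (N j)) T2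
    intro j σ
    obtain ⟨t, ht, c, hc, h2⟩ := hT j σ σ.2
    refine ⟨⟨t, hTB j t ht⟩, ?_, ⟨c, hc⟩, ?_⟩
    · rw [hT2]
      exact mem_image.2 ⟨⟨t, ht⟩, mem_attach _ _, rfl⟩
    · rw [QuotientGroup.mk'_apply, QuotientGroup.mk'_apply, QuotientGroup.eq, heq]
      exact h2
  obtain ⟨T', hT'1, hT'2⟩ := key
  refine ⟨T'.image (fun t : B => (t : G)), ?_, ?_, ?_⟩
  · refine card_image_le.trans (hT'1.trans ?_)
    apply Finset.prod_le_prod (fun j _ => Nat.zero_le _)
    intro j _
    rw [hT2]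
    refine card_image_le.trans ?_
    rw [card_attach]
  · intro t ht
    obtain ⟨t', -, rfl⟩ := mem_image.1 ht
    exact t'.2
  · intro σ hσ
    obtain ⟨t, ht, c, h2⟩ := hT'2 ⟨σ, hσ⟩
    refine ⟨t, mem_image_of_mem _ ht, c, c.2, fun j => ?_⟩
    have h3 := h2 j
    rw [QuotientGroup.mk'_apply, QuotientGroup.mk'_apply, QuotientGroup.eq, heq] at h3
    exact h3

end action

end Pool.Agent.Run7.h762.EQ
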