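import Pool.Agent.Run7.h762.EQ.J2
import Pool.Agent.Run7.h762.EQ.J3

/-!
# Bounded continuous test functions
-/

set_option autoImplicit false
set_option linter.style.haveILetI false
set_option linter.deprecated false

open MeasureTheory Filter Topology
open scoped UpperHalfPlane MatrixGroups ENNReal

namespace Pool.Agent.Run7.h762.EQ

lemma mean_mono {α : Type*} {s : Set α} (hs : s.Finite) (f g : α → ℝ) (h : ∀ y ∈ s, f y ≤ g y) : mean s f ≤ mean s g := by
  rw [mean_eq hs, mean_eq hs]
  apply div_le_div_of_nonneg_right _ (Nat.cast_nonneg _)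
  exact Finset.sum_le_sum (fun y hy => h y (by simpa using hy))

lemma mean_abs {α : Type*} {s : Set α} (hs : s.Finite) (f : α → ℝ) : |mean s f| ≤ mean s (fun y => |f y|) := by
  rw [mean_eq hs, mean_eq hs, abs_div, abs_of_nonneg (Nat.cast_nonneg (α := ℝ) hs.toFinset.card)]
  exact div_le_div_of_nonneg_right (Finset.abs_sum_le_sum_abs _ _) (Nat.cast_nonneg _)

/-- convergence for test functions with compact support implies convergence for bounded test functions -/
lemma tendsto_bounded {X : Type*} [TopologicalSpace X] [T2Space X] [LocallyCompactSpace X] [SecondCountableTopology X] [MeasurableSpace X]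
    [BorelSpace X] (μ : Measure X) [IsProbabilityMeasure μ] {α : Type*} (P : ℕ → Set α) (hP : ∀ i, (P i).Finite) (hne : ∀ i, (P i).Nonempty)
    (e : α → X) (h : ∀ f : X → ℝ, Continuous f → HasCompactSupport f →
      Tendsto (fun i => mean (P i) (fun w => f (e w))) atTop (𝓝 (∫ y, f y ∂μ)))
    (G : X → ℝ) (hG : Continuous G) (B : ℝ) (hB : ∀ y, |G y| ≤ B) :
    Tendsto (fun i => mean (P i) (fun w => G (e w))) atTop (𝓝 (∫ y, G y ∂μ)) := by
  have hX : Nonempty X := by
    by_contra hcon
    rw [not_nonempty_iff] at hcon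
    have h1 : μ Set.univ = 1 := measure_univ
    rw [Set.univ_eq_empty_iff.2 hcon, measure_empty] at h1
    exact zero_ne_one h1
  have hB0 : 0 ≤ B := (abs_nonneg _).trans (hB hX.some)
  rw [Metric.tendsto_nhds]
  intro ε hε
  obtain ⟨η, hη⟩ : ∃ η, η = ε / (4 * (B + 1)) := ⟨_, rfl⟩
  have hη0 : 0 < η := by rw [hη]; positivity
  obtain ⟨A, -, hA, hAm⟩ := MeasurableSet.exists_isCompact_diff_lt (μ := μ) MeasurableSet.univ (measure_ne_top _ _)
    (ε := ENNReal.ofReal η) (by simpa using hη0)
  obtain ⟨χ, hχ1, -, hχs, hχ⟩ := exists_continuous_one_zero_of_isCompact hA isClosed_empty (Set.disjoint_empty A)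
  have hχ0 : ∀ y, 0 ≤ χ y := fun y => (hχ y).1
  have hχ2 : ∀ y, χ y ≤ 1 := fun y => (hχ y).2
  have hχi : Integrable χ μ := χ.continuous.integrable_of_hasCompactSupport hχs
  have hGi : Integrable G μ := Integrable.of_bound hG.aestronglyMeasurable B (Eventually.of_forall (fun y => by
    rw [Real.norm_eq_abs]
    exact hB y))
  have hGχs : HasCompactSupport (fun y => G y * χ y) := hχs.mul_left
  have hGχc : Continuous (fun y => G y * χ y) := hG.mul χ.continuous
  have hGχi : Integrable (fun y => G y * χ y) μ := hGχc.integrable_of_hasCompactSupport hGχs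
  have h1i : Integrable (fun y => 1 - χ y) μ := (integrable_const 1).sub hχi
  -- the mass outside
  have hmass : 1 - ∫ y, χ y ∂μ ≤ η := by
    have e1 : 1 - ∫ y, χ y ∂μ = ∫ y, (1 - χ y) ∂μ := by
      rw [integral_sub (integrable_const 1) hχi]
      simp
    have e2 : ∫ y, (1 - χ y) ∂μ ≤ ∫ y, (Aᶜ).indicator (fun _ => (1 : ℝ)) y ∂μ := by
      apply integral_mono h1i
      · exact (integrable_const (1 : ℝ)).indicator hA.isClosed.measurableSet.compl
      · intro y
        by_cases hy : y ∈ A
        · rw [Set.indicator_of_notMem (by simpa using hy)]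
          have : χ y = 1 := hχ1 hy
          simp [this]
        · rw [Set.indicator_of_mem (show y ∈ Aᶜ from hy)]
          have := hχ0 y
          simp only
          linarith
    have e3 : ∫ y, (Aᶜ).indicator (fun _ => (1 : ℝ)) y ∂μ = μ.real Aᶜ := by
      rw [integral_indicator hA.isClosed.measurableSet.compl, setIntegral_const]
      simp
    have e4 : μ.real Aᶜ ≤ η := by
      have e5 : μ Aᶜ < ENNReal.ofReal η := by
        have : (Set.univ \ A : Set X) = Aᶜ := by ext; simp
        rw [← this]
        exact hAm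
      exact (ENNReal.toReal_mono ENNReal.ofReal_ne_top e5.le).trans (by rw [ENNReal.toReal_ofReal hη0.le])
    linarith [e1, e2, e3, e4]
  have t1 := (Metric.tendsto_nhds.1 (h χ χ.continuous hχs)) η hη0
  have t2 := (Metric.tendsto_nhds.1 (h _ hGχc hGχs)) η hη0
  filter_upwards [t1, t2] with i h1 h2
  rw [Real.dist_eq] at h1 h2 ⊢
  have k1 : ∫ y, G y ∂μ - ∫ y, G y * χ y ∂μ = ∫ y, G y * (1 - χ y) ∂μ := by
    rw [← integral_sub hGi hGχi]
    congr 1
    ext y
    ring
  have k2 : |∫ y, G y * (1 - χ y) ∂μ| ≤ B * η := by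
    have k3 : |∫ y, G y * (1 - χ y) ∂μ| ≤ ∫ y, B * (1 - χ y) ∂μ := by
      rw [← Real.norm_eq_abs]
      apply norm_integral_le_of_norm_le (h1i.const_mul B)
      apply Eventually.of_forall
      intro y
      rw [Real.norm_eq_abs, abs_mul]
      have h3 : 0 ≤ 1 - χ y := by linarith [hχ2 y]
      rw [abs_of_nonneg h3]
      exact mul_le_mul_of_nonneg_right (hB y) h3
    have k4 : ∫ y, B * (1 - χ y) ∂μ = B * (1 - ∫ y, χ y ∂μ) := by
      rw [integral_const_mul, integral_sub (integrable_const 1) hχi]
      simp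
    rw [k4] at k3
    exact k3.trans (mul_le_mul_of_nonneg_left hmass hB0)
  have k5 : mean (P i) (fun w => G (e w)) = mean (P i) (fun w => G (e w) * χ (e w)) + mean (P i) (fun w => G (e w) * (1 - χ (e w))) := by
    rw [← mean_add (hP i)]
    congr 1
    ext w
    ring
  have k6 : |mean (P i) (fun w => G (e w) * (1 - χ (e w)))| ≤ B * (2 * η) := by
    have k7 : |mean (P i) (fun w => G (e w) * (1 - χ (e w)))| ≤ mean (P i) (fun w => B * (1 + (-1) * χ (e w))) := by
      refine (mean_abs (hP i) _).trans (mean_mono (hP i) _ _ (fun w _ => ?_))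
      have h3 : 0 ≤ 1 - χ (e w) := by linarith [hχ2 (e w)]
      rw [abs_mul, abs_of_nonneg h3]
      have := mul_le_mul_of_nonneg_right (hB (e w)) h3
      linarith
    rw [mean_smul (hP i), mean_add (hP i), mean_const (hP i) (hne i), mean_smul (hP i)] at k7
    refine k7.trans (mul_le_mul_of_nonneg_left ?_ hB0)
    have := (abs_lt.1 h1).1
    linarith
  have k8 : mean (P i) (fun w => G (e w)) - ∫ y, G y ∂μ =
      (mean (P i) (fun w => G (e w) * χ (e w)) - ∫ y, G y * χ y ∂μ) + mean (P i) (fun w => G (e w) * (1 - χ (e w))) +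
        (-∫ y, G y * (1 - χ y) ∂μ) := by
    rw [← k1, k5]
    ring
  rw [k8]
  have k9 := abs_add_three (mean (P i) (fun w => G (e w) * χ (e w)) - ∫ y, G y * χ y ∂μ) (mean (P i) (fun w => G (e w) * (1 - χ (e w))))
    (-∫ y, G y * (1 - χ y) ∂μ)
  rw [abs_neg] at k9
  have k10 : η + B * (2 * η) + B * η < ε := by
    have e1 : 4 * (B + 1) * η = ε := by
      rw [hη]
      field_simp
    nlinarith
  linarith

end Pool.Agent.Run7.h762.EQ
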