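import Pool.Agent.Run7.h762.EQ.J4

/-!
# Blocks of coordinates: orbits of powers, uniformity
-/

set_option autoImplicit false
set_option linter.style.haveILetI false
set_option linter.deprecated false

open MeasureTheory Filter Topology
open scoped UpperHalfPlane MatrixGroups ENNReal

namespace Pool.Agent.Run7.h762.EQ

section group

variable {G : Type*} [Group G] {ι : Type*} [Fintype ι] [DecidableEq ι] {S : ι → Type*}
variable {H E : Subgroup G} {K : ι → Subgroup G} {a : ∀ j, G → S j → S j} {O : ∀ j, Set (S j)}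

/-- the high powers are isolated in each coordinate by elements of `M` -/
lemma Sys.mem_oneSub_of (h : Sys H E K a O) (M : Subgroup G) (k : ℕ) (hM : ∀ ρ ∈ E ⊓ ⨅ l, K l, ρ ^ (2 ^ k) ∈ M) (j : ι) (y : ∀ l, S l)
    (hy : ∀ l, y l ∈ O l) {σ b : G} (hσ : σ ∈ E ⊓ K j) (hb : b ∈ E ⊓ K j) (hσb : a j σ (y j) = a j (b ^ (2 ^ (Fintype.card ι + k))) (y j)) :
    σ ∈ h.oneSub M j y hy := by
  obtain ⟨ρ, hρ, h1, h2⟩ := h.iso j hb y hy (Finset.univ.erase j) (by simp)
  have hcard : (Finset.univ.erase j).card + 1 = Fintype.card ι := by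
    rw [Finset.card_erase_of_mem (Finset.mem_univ j), Finset.card_univ]
    have : 0 < Fintype.card ι := Fintype.card_pos_iff.2 ⟨j⟩
    omega
  rw [hcard] at h1
  have hρj := mem_EK hρ j
  have hbp : ∀ q : ℕ, b ^ q ∈ E ⊓ K j := fun q => Subgroup.pow_mem _ hb q
  have hpow := h.pow_eq j hρj (hbp _) (hy j) h1 (2 ^ k)
  refine ⟨hσ, ρ ^ (2 ^ k), ⟨⟨hM ρ hρ, Subgroup.pow_mem _ hρ _⟩, ⟨Subgroup.pow_mem _ hρj _, b ^ (2 ^ k), hbp _, ?_⟩, ?_⟩, ?_⟩
  · rw [hpow, ← pow_mul, ← pow_mul, mul_comm]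
  · intro l hl
    have hρl := mem_EK hρ l
    have h3 : a l ρ (y l) = a l 1 (y l) := by
      rw [h.one, h2 l (Finset.mem_erase.2 ⟨hl, Finset.mem_univ l⟩)]
    have h4 := h.pow_eq l hρl (Subgroup.one_mem _) (hy l) h3 (2 ^ k)
    rw [h4, one_pow, h.one]
  · rw [hpow, hσb, ← pow_mul, ← pow_add]

end group

variable {Qb : Type} [Field Qb] [Algebra ℚ Qb]

section defs

variable {ι : Type} {Γ : ι → Subgroup SL(2, ℤ)} {F : IntermediateField ℚ Qb} {m : ∀ j, Measure (Curve (Γ j))}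

/-- the orbit of the special point `x` under the subgroup `M` of the Galois group -/
def orb (C : ∀ j, Model (Γ j) F (m j)) (M : Subgroup (Qb ≃ₐ[ℚ] Qb)) (x : ∀ j, CMPoint (Γ j)) : Set (∀ j, CMPoint (Γ j)) :=
  {w | ∃ σ ∈ M, ∀ j, (C j).act σ (x j) = w j}

/-- the Hecke correspondences are defined over the rational numbers -/
def HeckeRational (C : ∀ j, Model (Γ j) F (m j)) : Prop :=
  ∀ j l (N : ℕ), ∀ σ ∈ F.fixingSubgroup, ∀ (x : CMPoint (Γ j)) (x' : CMPoint (Γ l)),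
    Isog N x.pt x'.pt → Isog N ((C j).act σ x).pt ((C l).act σ x').pt

/-- the coordinates of `x` have the same CM field -/
def SameField (Qb : Type) [Field Qb] [Algebra ℚ Qb] (x : ∀ j, CMPoint (Γ j)) : Prop :=
  ∀ j l, quadField Qb (disc (x j)) = quadField Qb (disc (x l))

/-- the orbits of the special points `x i` under the subgroups `M i` of the Galois group are equidistributed: the means of every
continuous function with compact support over these orbits tend to its integral -/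
def Equidistributed [Fintype ι] (C : ∀ j, Model (Γ j) F (m j)) (x : ℕ → ∀ j, CMPoint (Γ j)) (M : ℕ → Subgroup (Qb ≃ₐ[ℚ] Qb)) : Prop :=
  ∀ f : (∀ j, Curve (Γ j)) → ℝ, Continuous f → HasCompactSupport f →
    Tendsto (fun i => mean (orb C (M i) (x i)) (fun w => f (fun j => (w j).pt))) atTop (𝓝 (∫ y, f y ∂(Measure.pi m)))

/-- Equidistribution of the orbits of the `2 ^ k`-th powers, for special points with the property `P`: let `E` be a normal subgroup
of finite index of the absolute Galois group, contained in `Gal(Qb/F)`. For a strict sequence of special points `x i` with the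
property `P`, and for subgroups `M i` of `Gal(Qb/F)` which contain `b ^ (2 ^ k)` for all `b` in `E` which fix the CM fields of all
coordinates of `x i`, the orbits of `x i` under `M i` are equidistributed. For `M i = Gal(Qb/F)` these are the Galois orbits. -/
def PowEq [Fintype ι] (C : ∀ j, Model (Γ j) F (m j)) (P : (∀ j, CMPoint (Γ j)) → Prop) : Prop :=
  ∀ (k : ℕ) (E : Subgroup (Qb ≃ₐ[ℚ] Qb)), E.Normal → E.index ≠ 0 → E ≤ F.fixingSubgroup →
    ∀ (x : ℕ → ∀ j, CMPoint (Γ j)) (M : ℕ → Subgroup (Qb ≃ₐ[ℚ] Qb)), StrictSeq x → (∀ i, P (x i)) → (∀ i, M i ≤ F.fixingSubgroup) →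
      (∀ i, ∀ b ∈ E, (∀ j, b ∈ (quadField Qb (disc (x i j))).fixingSubgroup) → b ^ (2 ^ k) ∈ M i) → Equidistributed C x M

lemma orb_finite [Fintype ι] (C : ∀ j, Model (Γ j) F (m j)) {M : Subgroup (Qb ≃ₐ[ℚ] Qb)} (hM : M ≤ F.fixingSubgroup) (x : ∀ j, CMPoint (Γ j)) :
    (orb C M x).Finite := by
  apply (Set.Finite.pi' (fun j => (C j).finite_disc (disc (x j)))).subset
  rintro w ⟨σ, hσ, hw⟩ j
  rw [Set.mem_setOf_eq, ← hw j]
  exact (C j).disc_act σ (hM hσ) _

lemma orb_nonempty (C : ∀ j, Model (Γ j) F (m j)) (M : Subgroup (Qb ≃ₐ[ℚ] Qb)) (x : ∀ j, CMPoint (Γ j)) : (orb C M x).Nonempty :=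
  ⟨fun j => (C j).act 1 (x j), 1, M.one_mem, fun _ => rfl⟩

/-- restriction to a block and passage to conjugates -/
lemma StrictSeq.conj [DecidableEq ι] {x : ℕ → ∀ j, CMPoint (Γ j)} (hx : StrictSeq x) (hΓ : ∀ j, (Γ j).FiniteIndex) (C : ∀ j, Model (Γ j) F (m j))
    (hC : HeckeRational C) (J : Finset ι) (φ : ℕ → ℕ) (hφ : Tendsto φ atTop atTop) (y : ℕ → ∀ j : J, CMPoint (Γ j))
    (hy : ∀ i, ∃ σ ∈ F.fixingSubgroup, ∀ j : J, (C j).act σ (x (φ i) j) = y i j) : StrictSeq y := by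
  apply strictSeq_of
  · intro j R
    filter_upwards [hφ.eventually (hx.disc_tendsto (fun j => (C j).finite_disc) j R)] with i hi
    obtain ⟨σ, hσ, h⟩ := hy i
    rw [← h j, (C j).disc_act σ hσ]
    exact hi
  · intro j l hjl N hN
    have hjl' : (j : ι) ≠ l := fun h => hjl (Subtype.ext h)
    filter_upwards [hφ.eventually (hx.isog_finite hΓ hjl' hN)] with i hi hcon
    apply hi
    obtain ⟨σ, hσ, h⟩ := hy i
    rw [← h j, ← h l] at hcon
    have h2 := hC j l N σ⁻¹ (F.fixingSubgroup.inv_mem hσ) _ _ hcon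
    have e : ∀ q : ι, ∀ z : CMPoint (Γ q), (C q).act σ⁻¹ ((C q).act σ z) = z := by
      intro q z
      rw [← (C q).act_mul _ (F.fixingSubgroup.inv_mem hσ) _ hσ, inv_mul_cancel, (C q).act_one]
    rwa [e, e] at h2

/-- the uniform version of the hypothesis on a block -/
lemma PowEq.uniform [DecidableEq ι] (hm : ∀ j, IsProbabilityMeasure (m j)) {x : ℕ → ∀ j, CMPoint (Γ j)} (hx : StrictSeq x)
    (hΓ : ∀ j, (Γ j).FiniteIndex) (C : ∀ j, Model (Γ j) F (m j))
    (hC : HeckeRational C) (J : Finset ι) (Q : (∀ j : J, CMPoint (Γ j)) → Prop) (hJ : PowEq (fun j : J => C j) Q)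
    (hQ : ∀ i, ∀ y : ∀ j : J, CMPoint (Γ j), (∃ σ ∈ F.fixingSubgroup, ∀ j : J, (C j).act σ (x i j) = y j) → Q y)
    (k : ℕ) (E : Subgroup (Qb ≃ₐ[ℚ] Qb)) (hE1 : E.Normal) (hE2 : E.index ≠ 0) (hE3 : E ≤ F.fixingSubgroup)
    (g : ∀ j : ι, C(OnePoint (Curve (Γ j)), ℝ)) (ε : ℝ) (hε : 0 < ε) :
    ∀ᶠ i in atTop, ∀ (y : ∀ j : J, CMPoint (Γ j)) (M : Subgroup (Qb ≃ₐ[ℚ] Qb)),
      (∃ σ ∈ F.fixingSubgroup, ∀ j : J, (C j).act σ (x i j) = y j) → M ≤ F.fixingSubgroup →
      (∀ b ∈ E, (∀ j : J, b ∈ (quadField Qb (disc (y j))).fixingSubgroup) → b ^ (2 ^ k) ∈ M) →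
      |mean (orb (fun j : J => C j) M y) (fun w => ∏ j : J, g j ((w j).pt : OnePoint (Curve (Γ j)))) -
        ∏ j : J, ∫ y, g j (y : OnePoint (Curve (Γ j))) ∂(m j)| ≤ ε := by
  haveI := hm
  by_contra hcon
  rw [Filter.not_eventually] at hcon
  obtain ⟨φ, hφ, hbad⟩ := Filter.extraction_of_frequently_atTop hcon
  push Not at hbad
  choose y M hy hM1 hM2 hM3 using hbad
  have hst := hx.conj hΓ C hC J φ hφ.tendsto_atTop y hy
  have hsame : ∀ i, Q (y i) := fun i => hQ _ _ (hy i)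
  have h1 := fun f hf hfs => hJ k E hE1 hE2 hE3 y M hst hsame hM1 (fun i b hb hb2 => hM2 i b hb hb2) f hf hfs
  obtain ⟨B, hB⟩ : ∃ B : ℝ, B = ∏ j : J, ‖g j‖ := ⟨_, rfl⟩
  have h2 := tendsto_bounded (Measure.pi (fun j : J => m j)) (fun i => orb (fun j : J => C j) (M i) (y i))
    (fun i => orb_finite (fun j : J => C j) (hM1 i) (y i)) (fun i => orb_nonempty (fun j : J => C j) (M i) (y i))
    (fun w j => (w j).pt) h1 (fun z => ∏ j : J, g j ((z j : Curve (Γ j)) : OnePoint (Curve (Γ j))))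
    (continuous_finset_prod _ (fun j _ => (g j).continuous.comp (OnePoint.continuous_coe.comp (continuous_apply j)))) B (by
      intro z
      rw [hB, Finset.abs_prod]
      apply Finset.prod_le_prod (fun j _ => abs_nonneg _)
      intro j _
      exact (g j).norm_coe_le_norm _)
  rw [integral_fintype_prod_eq_prod (fun (j : J) (z : Curve (Γ j)) => g j (z : OnePoint (Curve (Γ j))))] at h2
  have h3 := (Metric.tendsto_nhds.1 h2) ε hε
  obtain ⟨i, hi⟩ := h3.exists
  rw [Real.dist_eq] at hi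
  exact absurd hi (not_lt.2 (hM3 i).le)

end defs

end Pool.Agent.Run7.h762.EQ
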