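import Pool.Agent.Run7.h762.EQ.J5

/-!
# The reduction to blocks, for a fixed pattern of the CM fields
-/

set_option autoImplicit false
set_option linter.style.haveILetI false
set_option linter.deprecated false

open MeasureTheory Filter Topology
open scoped UpperHalfPlane MatrixGroups ENNReal

namespace Pool.Agent.Run7.h762.EQ

variable {Qb : Type} [Field Qb] [Algebra ℚ Qb]

/-- the dihedral relation for `E` -/
def Dih {Γ : Subgroup SL(2, ℤ)} {F : IntermediateField ℚ Qb} {m : Measure (Curve Γ)} (C : Model Γ F m) (E : Subgroup (Qb ≃ₐ[ℚ] Qb)) : Prop :=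
  ∀ x : CMPoint Γ, ∀ σ ∈ E ⊓ (quadField Qb (disc x)).fixingSubgroup, ∀ τ : Qb ≃ₐ[ℚ] Qb,
      (τ ∈ (quadField Qb (disc x)).fixingSubgroup → C.act (τ * σ * τ⁻¹) x = C.act σ x) ∧
      (τ ∉ (quadField Qb (disc x)).fixingSubgroup → C.act (τ * σ * τ⁻¹) x = C.act σ⁻¹ x)

section single

variable [IsAlgClosure ℚ Qb] {Γ : Subgroup SL(2, ℤ)} {F : IntermediateField ℚ Qb} {m : Measure (Curve Γ)}

/-- one coordinate -/
lemma single_uniform (hm : IsProbabilityMeasure m) (C : Model Γ F m) (k : ℕ) (E : Subgroup (Qb ≃ₐ[ℚ] Qb)) (hE1 : E.Normal)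
    (hE2 : E.index ≠ 0) (hE3 : E ≤ F.fixingSubgroup) (hE : Dih C E) (g : C(OnePoint (Curve Γ), ℝ)) (ε : ℝ) (hε : 0 < ε) :
    ∃ R : ℝ, ∀ y : CMPoint Γ, R ≤ |(disc y : ℝ)| → ∀ M : Subgroup (Qb ≃ₐ[ℚ] Qb), M ≤ F.fixingSubgroup →
      (∀ σ ∈ E ⊓ (quadField Qb (disc y)).fixingSubgroup, ∀ b ∈ E ⊓ (quadField Qb (disc y)).fixingSubgroup,
        C.act σ y = C.act (b ^ (2 ^ k)) y → σ ∈ M) →
      |mean {z | ∃ σ ∈ M, C.act σ y = z} (fun z => g (z.pt : OnePoint (Curve Γ))) - ∫ z, g (z : OnePoint (Curve Γ)) ∂m| ≤ ε := by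
  obtain ⟨η, hη, hd⟩ := C.duke_ext hm
  obtain ⟨R1, hR1⟩ := hd g ε hε
  obtain ⟨c, hc⟩ := C.genus E hE1 hE2 hE3
  obtain ⟨R2, hR21, hR2⟩ := genus_small c (Nat.cast_nonneg _) k (E.index * 2) η hη
  refine ⟨max R1 R2, fun y hy M hM hsat => ?_⟩
  obtain ⟨T, hT1, hT2, hT3⟩ := hc y
  have hsys := sys_of_distinct (n := 1) (Γ := fun _ => Γ) (m := fun _ => m) (fun _ => C) E hE3 hE1 (fun _ => hE) (fun _ => disc y)
    (fun j l hjl => absurd (Subsingleton.elim j l) hjl)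
  have hidx := hsys.powSub_index 0 (y := y) rfl T hT2 hT3 k (Subgroup.index_inf_ne_zero hE2 (fixSqrt_index (disc y)).1)
  have hle : hsys.powSub 0 y rfl (2 ^ k) ≤ M := by
    intro σ hσ
    obtain ⟨h1, b, hb, h2⟩ := (hsys.mem_powSub 0 y rfl (2 ^ k) σ).1 hσ
    exact hsat σ h1 b hb h2
  have hdvd := Subgroup.index_dvd_of_le hle
  have hM0 : M.index ≠ 0 := by
    intro h
    rw [h, zero_dvd_iff] at hdvd
    exact hidx.1 hdvd
  have hMle : M.index ≤ T.card ^ k * (E ⊓ (quadField Qb (disc y)).fixingSubgroup).index :=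
    (Nat.le_of_dvd (Nat.pos_of_ne_zero hidx.1) hdvd).trans hidx.2
  apply hR1 y ((le_max_left _ _).trans hy) M hM hM0
  have hDabs : ((disc y).natAbs : ℝ) = |(disc y : ℝ)| := by
    rw [Nat.cast_natAbs, Int.cast_abs]
  have k1 : R2 ≤ ((disc y).natAbs : ℝ) := by
    rw [hDabs]
    exact (le_max_right _ _).trans hy
  have k2 := hR2 _ k1
  rw [← hDabs]
  refine le_trans ?_ k2
  have k3 : M.index ≤ (c * 2 ^ (disc y).natAbs.primeFactors.card) ^ k * (E.index * 2) := by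
    apply hMle.trans
    apply Nat.mul_le_mul
    · exact Nat.pow_le_pow_left hT1 k
    · exact Subgroup.index_inf_le.trans (Nat.mul_le_mul_left _ (fixSqrt_index (disc y)).2)
  exact_mod_cast k3

end single

section blocks

variable {ι : Type} [Fintype ι] [DecidableEq ι] {Γ : ι → Subgroup SL(2, ℤ)} {F : IntermediateField ℚ Qb} {m : ∀ j, Measure (Curve (Γ j))}

omit [DecidableEq ι] in
/-- a common normal subgroup -/
lemma exists_common' (hF : F.fixingSubgroup.index ≠ 0) (C : ∀ j, Model (Γ j) F (m j)) :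
    ∃ E : Subgroup (Qb ≃ₐ[ℚ] Qb), E.Normal ∧ E.index ≠ 0 ∧ E ≤ F.fixingSubgroup ∧ ∀ j, Dih (C j) E := by
  choose E hEn hEf hEF hE using fun j => (C j).reciprocity
  haveI : ∀ j, (E j).Normal := hEn
  haveI : F.fixingSubgroup.FiniteIndex := ⟨hF⟩
  haveI : ∀ j, (E j).FiniteIndex := fun j => ⟨hEf j⟩
  haveI : (⨅ j, E j).Normal := Subgroup.normal_iInf_normal hEn
  haveI : (⨅ j, E j).FiniteIndex := Subgroup.finiteIndex_iInf (fun j => inferInstance)
  refine ⟨F.fixingSubgroup.normalCore ⊓ ⨅ j, E j, inferInstance, ?_, inf_le_left.trans (Subgroup.normalCore_le _), ?_⟩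
  · exact Subgroup.index_inf_ne_zero (Subgroup.FiniteIndex.index_ne_zero (H := F.fixingSubgroup.normalCore)) Subgroup.FiniteIndex.index_ne_zero
  · intro j x σ hσ τ
    have h1 : σ ∈ E j := Subgroup.mem_iInf.1 (Subgroup.mem_inf.1 (Subgroup.mem_inf.1 hσ).1).2 j
    exact hE j x σ ⟨h1, hσ.2⟩ τ

omit [Fintype ι] [DecidableEq ι] in
lemma mean_single (C : ∀ j, Model (Γ j) F (m j)) (J : Finset ι) (j0 : J) (hJ : ∀ j : J, j = j0) (M : Subgroup (Qb ≃ₐ[ℚ] Qb))
    (y : ∀ j : J, CMPoint (Γ j)) (g : ∀ j : ι, C(OnePoint (Curve (Γ j)), ℝ)) :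
    mean (orb (fun j : J => C j) M y) (fun w => ∏ j : J, g j ((w j).pt : OnePoint (Curve (Γ j)))) =
      mean {z | ∃ σ ∈ M, (C j0).act σ (y j0) = z} (fun z => g j0 (z.pt : OnePoint (Curve (Γ j0)))) := by
  haveI : Subsingleton J := ⟨fun a b => (hJ a).trans (hJ b).symm⟩
  have h1 : ∀ w : ∀ j : J, CMPoint (Γ j), ∏ j : J, g j ((w j).pt : OnePoint (Curve (Γ j))) = g j0 ((w j0).pt : OnePoint (Curve (Γ j0))) :=
    fun w => Fintype.prod_subsingleton _ j0
  simp_rw [h1]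
  obtain ⟨e, he⟩ : ∃ e : (∀ j : J, CMPoint (Γ j)) → CMPoint (Γ j0), ∀ w, e w = w j0 := ⟨fun w => w j0, fun _ => rfl⟩
  have hei : Function.Injective e := by
    intro w w' h
    have h' : w j0 = w' j0 := by rw [← he w, ← he w', h]
    funext j
    have hj := hJ j
    rw [hj]
    exact h'
  have h2 : e '' orb (fun j : J => C j) M y = {z | ∃ σ ∈ M, (C j0).act σ (y j0) = z} := by
    ext z
    constructor
    · rintro ⟨w, ⟨σ, hσ, hw⟩, rfl⟩
      exact ⟨σ, hσ, by rw [he]; exact hw j0⟩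
    · rintro ⟨σ, hσ, hz⟩
      exact ⟨fun j => (C j).act σ (y j), ⟨σ, hσ, fun _ => rfl⟩, by rw [he]; exact hz⟩
  rw [← h2, mean_image e hei]
  simp_rw [he]

/-- the coordinates with the label `k` -/
def blk {κ : Type} [DecidableEq κ] (q : ι → κ) (k : κ) : Finset ι := Finset.univ.filter (fun j => q j = k)

omit [DecidableEq ι] in
lemma mem_blk {κ : Type} [DecidableEq κ] (q : ι → κ) (k : κ) (j : ι) : j ∈ blk q k ↔ q j = k := by simp [blk]

omit [DecidableEq ι] in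
/-- the Galois group acts on the blocks as a dihedral system -/
lemma sys_of_blocks {κ : Type} [DecidableEq κ] (q : ι → κ) (rep : κ → ι) (hrep : ∀ k, q (rep k) = k) [IsAlgClosure ℚ Qb]
    (C : ∀ j, Model (Γ j) F (m j)) (E : Subgroup (Qb ≃ₐ[ℚ] Qb)) (hFE : E ≤ F.fixingSubgroup) (hEn : E.Normal)
    (hE : ∀ j, Dih (C j) E) (x : ∀ j, CMPoint (Γ j)) (hx : ∀ j l, q j = q l ↔ quadField Qb (disc (x j)) = quadField Qb (disc (x l))) :
    Sys F.fixingSubgroup E (fun k => (quadField Qb (disc (x (rep k)))).fixingSubgroup)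
      (fun k σ (y : ∀ j : blk q k, CMPoint (Γ j)) => fun j => (C j).act σ (y j))
      (fun k => {y | ∃ σ ∈ F.fixingSubgroup, ∀ j : blk q k, (C j).act σ (x j) = y j}) := by
  have hdisc : ∀ k (y : ∀ j : blk q k, CMPoint (Γ j)), (∃ σ ∈ F.fixingSubgroup, ∀ j : blk q k, (C j).act σ (x j) = y j) → ∀ j : blk q k,
      quadField Qb (disc (y j)) = quadField Qb (disc (x (rep k))) := by
    rintro k y ⟨σ, hσ, h⟩ j
    rw [← h j, (C j).disc_act σ hσ]
    have hj := (mem_blk q k j).1 j.2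
    exact (hx _ _).1 (by rw [hj, hrep])
  exact
  { EH := hFE
    En := hEn
    Kn := fun k => fixSqrt_normal _
    sq := fun k g => fixSqrt_sq _ g
    one := fun k y => funext (fun j => (C j).act_one (y j))
    mul := fun k σ hσ τ hτ y => funext (fun j => (C j).act_mul σ hσ τ hτ (y j))
    stab := by
      rintro k σ hσ y ⟨ρ, hρ, h⟩
      refine ⟨σ * ρ, F.fixingSubgroup.mul_mem hσ hρ, fun j => ?_⟩
      rw [(C j).act_mul σ hσ ρ hρ, h j]
    dih1 := by
      intro k σ hσ τ hτ y hy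
      funext j
      have hd := hdisc k y hy j
      exact (hE j (y j) σ (by rw [hd]; exact hσ) τ).1 (by rw [hd]; exact hτ)
    dih2 := by
      intro k σ hσ τ hτ y hy
      funext j
      have hd := hdisc k y hy j
      exact (hE j (y j) σ (by rw [hd]; exact hσ) τ).2 (by rw [hd]; exact hτ)
    sep := by
      intro k l hkl
      apply sep_of_ne
      intro h
      apply hkl
      rw [← hrep k, ← hrep l]
      exact (hx _ _).2 h }

end blocks

end Pool.Agent.Run7.h762.EQ
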