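import Pool.Agent.Run7.h762.EQ.J6

/-!
# The reduction to blocks
-/

set_option autoImplicit false
set_option linter.style.haveILetI false
set_option linter.deprecated false

open MeasureTheory Filter Topology
open scoped UpperHalfPlane MatrixGroups ENNReal

namespace Pool.Agent.Run7.h762.EQ

variable {Qb : Type} [Field Qb] [Algebra ℚ Qb] [IsAlgClosure ℚ Qb]
variable {ι : Type} [Fintype ι] [DecidableEq ι] {Γ : ι → Subgroup SL(2, ℤ)} {F : IntermediateField ℚ Qb} {m : ∀ j, Measure (Curve (Γ j))}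

/-- the theorem for a fixed pattern of the CM fields -/
theorem core_blocks {κ : Type} [Fintype κ] [DecidableEq κ] (q : ι → κ) (hq : Function.Surjective q) (hF : F.fixingSubgroup.index ≠ 0)
    (hm : ∀ j, IsProbabilityMeasure (m j)) (hΓ : ∀ j, (Γ j).FiniteIndex) (C : ∀ j, Model (Γ j) F (m j)) (hC : HeckeRational C)
    (Q : ∀ a : κ, (∀ j : blk q a, CMPoint (Γ j)) → Prop)
    (hblock : ∀ a, 2 ≤ (blk q a).card → PowEq (fun j : blk q a => C j) (Q a)) (x : ℕ → ∀ j, CMPoint (Γ j)) (hx : StrictSeq x)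
    (hQ : ∀ a i, ∀ y : ∀ j : blk q a, CMPoint (Γ j), (∃ σ ∈ F.fixingSubgroup, ∀ j : blk q a, (C j).act σ (x i j) = y j) → Q a y)
    (hpat : ∀ i j l, q j = q l ↔ quadField Qb (disc (x i j)) = quadField Qb (disc (x i l)))
    (k : ℕ) (E₁ : Subgroup (Qb ≃ₐ[ℚ] Qb)) (hE₁1 : E₁.Normal) (hE₁2 : E₁.index ≠ 0) (M : ℕ → Subgroup (Qb ≃ₐ[ℚ] Qb))
    (hM1 : ∀ i, M i ≤ F.fixingSubgroup)
    (hM2 : ∀ i, ∀ b ∈ E₁, (∀ j, b ∈ (quadField Qb (disc (x i j))).fixingSubgroup) → b ^ (2 ^ k) ∈ M i)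
    (f : (∀ j, Curve (Γ j)) → ℝ) (hf : Continuous f) (hfs : HasCompactSupport f) :
    Tendsto (fun i => mean (orb C (M i) (x i)) (fun w => f (fun j => (w j).pt))) atTop (𝓝 (∫ y, f y ∂(Measure.pi m))) := by
  haveI := hm
  obtain ⟨rep, hrep⟩ : ∃ rep : κ → ι, ∀ a, q (rep a) = a := ⟨Function.surjInv hq, Function.surjInv_eq hq⟩
  obtain ⟨E₀, hE₀1, hE₀2, hE₀3, hE₀4⟩ := exists_common' hF C
  obtain ⟨E, hE⟩ : ∃ E, E = E₁ ⊓ E₀ := ⟨_, rfl⟩
  have hE1 : E.Normal := by
    haveI := hE₁1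
    haveI := hE₀1
    rw [hE]
    infer_instance
  have hE2 : E.index ≠ 0 := by rw [hE]; exact Subgroup.index_inf_ne_zero hE₁2 hE₀2
  have hE3 : E ≤ F.fixingSubgroup := by rw [hE]; exact inf_le_right.trans hE₀3
  have hE4 : ∀ j, Dih (C j) E := by
    intro j z σ hσ τ
    refine hE₀4 j z σ ⟨?_, hσ.2⟩ τ
    have := hσ.1
    rw [hE] at this
    exact this.2
  obtain ⟨e, he⟩ : ∃ e : (∀ j, CMPoint (Γ j)) → ∀ j, Curve (Γ j), e = fun w j => (w j).pt := ⟨_, rfl⟩
  have hei : Function.Injective e := by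
    intro w w' h
    funext j
    rw [he] at h
    exact CMPoint.pt_injective (congrFun h j)
  have horb : ∀ i, (orb C (M i) (x i)).Finite := fun i => orb_finite C (hM1 i) (x i)
  have hgoal : ∀ (f : (∀ j, Curve (Γ j)) → ℝ) i, mean (orb C (M i) (x i)) (fun w => f (fun j => (w j).pt)) = mean (e '' orb C (M i) (x i)) f := by
    intro f i
    rw [mean_image e hei, he]
  simp_rw [hgoal]
  apply tendsto_mean m (fun i => e '' orb C (M i) (x i)) (fun i => (horb i).image e) _ f hf hfs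
  intro g
  simp_rw [← hgoal (fun y => ∏ j, g j (y j))]
  rw [Metric.tendsto_nhds]
  intro ε hε
  obtain ⟨n, hn⟩ : ∃ n, n = Fintype.card κ := ⟨_, rfl⟩
  -- bounds for the test functions
  obtain ⟨B, hB⟩ : ∃ B : ℝ, B = ∏ j, (1 + ‖g j‖) := ⟨_, rfl⟩
  have h1g : ∀ j, 1 ≤ 1 + ‖g j‖ := fun j => by linarith [norm_nonneg (g j)]
  have hB1 : 1 ≤ B := by
    rw [hB]
    calc (1 : ℝ) = ∏ _j : ι, (1 : ℝ) := by simp
      _ ≤ ∏ j, (1 + ‖g j‖) := Finset.prod_le_prod (fun j _ => zero_le_one) (fun j _ => h1g j)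
  have hBJ : ∀ J : Finset ι, ∏ j : J, ‖g j‖ ≤ B := by
    intro J
    rw [Finset.prod_coe_sort J (fun j => ‖g j‖), hB]
    calc ∏ j ∈ J, ‖g j‖ ≤ ∏ j ∈ J, (1 + ‖g j‖) := Finset.prod_le_prod (fun j _ => norm_nonneg _) (fun j _ => by linarith)
      _ ≤ ∏ j, (1 + ‖g j‖) := Finset.prod_le_prod_of_subset_of_one_le (Finset.subset_univ _) (fun j _ => by linarith [h1g j]) (fun j _ _ => h1g j)
  have hgJ : ∀ (J : Finset ι) (y : ∀ j : J, CMPoint (Γ j)), |∏ j : J, g j ((y j).pt : OnePoint (Curve (Γ j)))| ≤ B := by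
    intro J y
    refine le_trans ?_ (hBJ J)
    rw [Finset.abs_prod]
    exact Finset.prod_le_prod (fun j _ => abs_nonneg _) (fun j _ => (g j).norm_coe_le_norm _)
  have hcJ : ∀ J : Finset ι, |∏ j : J, ∫ y, g j (y : OnePoint (Curve (Γ j))) ∂(m j)| ≤ B := by
    intro J
    refine le_trans ?_ (hBJ J)
    rw [Finset.abs_prod]
    refine Finset.prod_le_prod (fun j _ => abs_nonneg _) (fun j _ => ?_)
    have := norm_integral_le_of_norm_le_const (μ := m j) (f := fun y : Curve (Γ j) => g j (y : OnePoint (Curve (Γ j)))) (C := ‖g j‖)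
      (Eventually.of_forall (fun y => (g j).norm_coe_le_norm _))
    simpa using this
  obtain ⟨ε', hε'⟩ : ∃ ε', ε' = ε / (2 * (n + 1) * B ^ n) := ⟨_, rfl⟩
  have hε'0 : 0 < ε' := by rw [hε']; positivity
  have hε'n : (n : ℝ) * (B ^ n * ε') < ε := by
    rw [hε']
    have h1 : (n : ℝ) * (B ^ n * (ε / (2 * (n + 1) * B ^ n))) = ε * (n / (2 * (n + 1))) := by
      have : B ^ n ≠ 0 := by positivity
      field_simp
    rw [h1]
    have h2 : (n : ℝ) / (2 * (n + 1)) < 1 := by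
      rw [div_lt_one (by positivity)]
      have : (0 : ℝ) ≤ n := Nat.cast_nonneg n
      linarith
    nlinarith
  -- the blocks
  have hunif : ∀ a : κ, ∀ᶠ i in atTop, ∀ (y : ∀ j : blk q a, CMPoint (Γ j)) (M' : Subgroup (Qb ≃ₐ[ℚ] Qb)),
      (∃ σ ∈ F.fixingSubgroup, ∀ j : blk q a, (C j).act σ (x i j) = y j) → M' ≤ F.fixingSubgroup →
      (∀ σ ∈ E ⊓ (quadField Qb (disc (x i (rep a)))).fixingSubgroup, ∀ b ∈ E ⊓ (quadField Qb (disc (x i (rep a)))).fixingSubgroup,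
        (∀ j : blk q a, (C j).act σ (y j) = (C j).act (b ^ (2 ^ (n + k))) (y j)) → σ ∈ M') →
      |mean (orb (fun j : blk q a => C j) M' y) (fun w => ∏ j : blk q a, g j ((w j).pt : OnePoint (Curve (Γ j)))) -
        ∏ j : blk q a, ∫ y, g j (y : OnePoint (Curve (Γ j))) ∂(m j)| ≤ ε' := by
    intro a
    have hfield : ∀ i, ∀ j : blk q a, quadField Qb (disc (x i j)) = quadField Qb (disc (x i (rep a))) := by
      intro i j
      have hj := (mem_blk q a j).1 j.2
      exact (hpat i _ _).1 (by rw [hj, hrep])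
    have hra : rep a ∈ blk q a := (mem_blk q a _).2 (hrep a)
    by_cases hcard : 2 ≤ (blk q a).card
    · have hu := PowEq.uniform hm hx hΓ C hC (blk q a) (Q a) (hblock a hcard) (hQ a) (n + k) E hE1 hE2 hE3 g ε' hε'0
      filter_upwards [hu] with i hi y M' hy hM' hsat
      apply hi y M' hy hM'
      intro b hb hb2
      have hdisc : ∀ j : blk q a, quadField Qb (disc (y j)) = quadField Qb (disc (x i (rep a))) := by
        intro j
        obtain ⟨σ, hσ, h⟩ := hy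
        rw [← h j, (C j).disc_act σ hσ]
        exact hfield i j
      have hbK : b ∈ E ⊓ (quadField Qb (disc (x i (rep a)))).fixingSubgroup := by
        refine ⟨hb, ?_⟩
        have := hb2 ⟨rep a, hra⟩
        rwa [hdisc] at this
      exact hsat _ (Subgroup.pow_mem _ hbK _) b hbK (fun _ => rfl)
    · have hcard1 : (blk q a).card ≤ 1 := by omega
      have hall : ∀ j : blk q a, j = ⟨rep a, hra⟩ := fun j => Subtype.ext (Finset.card_le_one.1 hcard1 j j.2 (rep a) hra)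
      obtain ⟨R, hR⟩ := single_uniform (hm (rep a)) (C (rep a)) (n + k) E hE1 hE2 hE3 (hE4 (rep a)) (g (rep a)) ε' hε'0
      filter_upwards [hx.disc_tendsto (fun j => (C j).finite_disc) (rep a) R] with i hi y M' hy hM' hsat
      have hdy : disc (y ⟨rep a, hra⟩) = disc (x i (rep a)) := by
        obtain ⟨σ, hσ, h⟩ := hy
        rw [← h ⟨rep a, hra⟩, (C (rep a)).disc_act σ hσ]
      rw [mean_single C (blk q a) ⟨rep a, hra⟩ hall M' y g]
      haveI : Subsingleton (blk q a) := ⟨fun s t => (hall s).trans (hall t).symm⟩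
      rw [Fintype.prod_subsingleton (fun j : blk q a => ∫ y, g j (y : OnePoint (Curve (Γ j))) ∂(m j)) ⟨rep a, hra⟩]
      apply hR (y ⟨rep a, hra⟩) (by rw [hdy]; exact hi) M' hM'
      intro σ hσ b hb hσb
      rw [hdy] at hσ hb
      apply hsat σ hσ b hb
      intro j
      rw [hall j]
      exact hσb
  have hev : ∀ᶠ i in atTop, ∀ a : κ, ∀ (y : ∀ j : blk q a, CMPoint (Γ j)) (M' : Subgroup (Qb ≃ₐ[ℚ] Qb)),
      (∃ σ ∈ F.fixingSubgroup, ∀ j : blk q a, (C j).act σ (x i j) = y j) → M' ≤ F.fixingSubgroup →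
      (∀ σ ∈ E ⊓ (quadField Qb (disc (x i (rep a)))).fixingSubgroup, ∀ b ∈ E ⊓ (quadField Qb (disc (x i (rep a)))).fixingSubgroup,
        (∀ j : blk q a, (C j).act σ (y j) = (C j).act (b ^ (2 ^ (n + k))) (y j)) → σ ∈ M') →
      |mean (orb (fun j : blk q a => C j) M' y) (fun w => ∏ j : blk q a, g j ((w j).pt : OnePoint (Curve (Γ j)))) -
        ∏ j : blk q a, ∫ y, g j (y : OnePoint (Curve (Γ j))) ∂(m j)| ≤ ε' := by
    rw [eventually_all]
    exact hunif
  filter_upwards [hev] with i hi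
  have hsys := sys_of_blocks q rep hrep C E hE3 hE1 hE4 (x i) (hpat i)
  have hOfin : ∀ a : κ, {y : ∀ j : blk q a, CMPoint (Γ j) | ∃ σ ∈ F.fixingSubgroup, ∀ j : blk q a, (C j).act σ (x i j) = y j}.Finite :=
    fun a => orb_finite (fun j : blk q a => C j) le_rfl (fun j => x i j)
  have hMpow : ∀ ρ ∈ E ⊓ ⨅ a, (quadField Qb (disc (x i (rep a)))).fixingSubgroup, ρ ^ (2 ^ k) ∈ M i := by
    intro ρ hρ
    have h1 : ρ ∈ E := (Subgroup.mem_inf.1 hρ).1
    rw [hE] at h1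
    apply hM2 i ρ h1.1
    intro j
    have h2 := Subgroup.mem_iInf.1 (Subgroup.mem_inf.1 hρ).2 (q j)
    have h3 : quadField Qb (disc (x i (rep (q j)))) = quadField Qb (disc (x i j)) := (hpat i _ _).1 (hrep _)
    rwa [h3] at h2
  have hmain := hsys.mean_orbit (M i) (hM1 i) (fun a (j : blk q a) => x i j)
    (fun a => ⟨1, F.fixingSubgroup.one_mem, fun j => (C j).act_one _⟩) hOfin
    (fun a (y : ∀ j : blk q a, CMPoint (Γ j)) => ∏ j : blk q a, g j ((y j).pt : OnePoint (Curve (Γ j))))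
    (fun a => ∏ j : blk q a, ∫ y, g j (y : OnePoint (Curve (Γ j))) ∂(m j)) B ε' hB1 (fun a y => hgJ _ y) (fun a => hcJ _)
    (by
      intro y hy a
      have h1 : hsys.cls (M i) a y hy = orb (fun j : blk q a => C j) (hsys.oneSub (M i) a y hy) (y a) := by
        ext z
        constructor
        · rintro ⟨σ, hσ, h⟩
          exact ⟨σ, hσ, fun j => congrFun h j⟩
        · rintro ⟨σ, hσ, h⟩
          exact ⟨σ, hσ, funext h⟩
      rw [h1]
      apply hi a (y a) (hsys.oneSub (M i) a y hy) (hy a)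
      · intro σ hσ
        exact hsys.inH ((hsys.mem_oneSub (M i) a y hy σ).1 hσ).1
      · intro σ hσ b hb h
        apply hsys.mem_oneSub_of (M i) k hMpow a y hy hσ hb
        rw [← hn]
        exact funext h)
  rw [← hn] at hmain
  -- regrouping
  obtain ⟨u, hu⟩ : ∃ u : (∀ j, CMPoint (Γ j)) → ∀ a : κ, ∀ j : blk q a, CMPoint (Γ j), ∀ w a j, u w a j = w j := ⟨fun w a j => w j, fun _ _ _ => rfl⟩
  have hui : Function.Injective u := by
    intro w w' h
    funext j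
    have h1 := hu w (q j) ⟨j, (mem_blk q _ _).2 rfl⟩
    have h2 := hu w' (q j) ⟨j, (mem_blk q _ _).2 rfl⟩
    rw [← h1, ← h2, h]
  have himg : {w : ∀ a : κ, ∀ j : blk q a, CMPoint (Γ j) | ∃ σ ∈ M i, ∀ a, (fun j : blk q a => (C j).act σ (x i j)) = w a} = u '' orb C (M i) (x i) := by
    ext w
    constructor
    · rintro ⟨σ, hσ, h⟩
      refine ⟨fun j => (C j).act σ (x i j), ⟨σ, hσ, fun _ => rfl⟩, ?_⟩
      funext a j
      rw [hu, ← h a]
    · rintro ⟨w', ⟨σ, hσ, h⟩, rfl⟩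
      refine ⟨σ, hσ, fun a => ?_⟩
      funext j
      rw [hu, h]
  have hprod : ∀ v : ι → ℝ, ∏ a : κ, ∏ j : blk q a, v j = ∏ j, v j := by
    intro v
    have h1 : ∀ a : κ, ∏ j : blk q a, v j = ∏ j ∈ Finset.univ with q j = a, v j := fun a => Finset.prod_coe_sort (blk q a) v
    simp_rw [h1]
    exact Finset.prod_fiberwise _ q v
  have hL : mean {w : ∀ a : κ, ∀ j : blk q a, CMPoint (Γ j) | ∃ σ ∈ M i, ∀ a, (fun j : blk q a => (C j).act σ (x i j)) = w a}
      (fun w => ∏ a : κ, ∏ j : blk q a, g j ((w a j).pt : OnePoint (Curve (Γ j)))) =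
      mean (orb C (M i) (x i)) (fun w => ∏ j, g j ((w j).pt : OnePoint (Curve (Γ j)))) := by
    rw [himg, mean_image u hui]
    congr 1
    funext w
    simp_rw [hu]
    exact hprod (fun j => g j ((w j).pt : OnePoint (Curve (Γ j))))
  rw [hL, hprod (fun j => ∫ y, g j (y : OnePoint (Curve (Γ j))) ∂(m j))] at hmain
  rw [Real.dist_eq]
  exact lt_of_le_of_lt hmain hε'n

end Pool.Agent.Run7.h762.EQ
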