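import Pool.Agent.Run7.h762.EQ.J7

/-!
# The reduction of the equidistribution to the classes of coordinates with the same CM field
-/

set_option autoImplicit false
set_option linter.style.haveILetI false
set_option linter.deprecated false

open MeasureTheory Filter Topology
open scoped UpperHalfPlane MatrixGroups ENNReal

namespace Pool.Agent.Run7.h762.EQ

variable {Qb : Type} [Field Qb] [Algebra ℚ Qb]
variable {ι : Type} {Γ : ι → Subgroup SL(2, ℤ)} {F : IntermediateField ℚ Qb} {m : ∀ j, Measure (Curve (Γ j))}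

/-- `J` is the set of all the coordinates of `x` whose CM field is equal to the CM field of one coordinate -/
def IsClass (Qb : Type) [Field Qb] [Algebra ℚ Qb] (J : Finset ι) (x : ∀ j, CMPoint (Γ j)) : Prop :=
  ∃ j, ∀ l, l ∈ J ↔ quadField Qb (disc (x l)) = quadField Qb (disc (x j))

lemma StrictSeq.comp {x : ℕ → ∀ j, CMPoint (Γ j)} (hx : StrictSeq x) {ψ : ℕ → ℕ} (hψ : Tendsto ψ atTop atTop) : StrictSeq (fun i => x (ψ i)) := by
  intro Z hZ hne
  have h1 : ∀ᶠ i in atTop, (fun j => (x i j).pt) ∉ Z := by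
    rw [← Nat.cofinite_eq_atTop, Filter.eventually_cofinite]
    simpa using hx Z hZ hne
  have h2 := hψ.eventually h1
  rw [← Nat.cofinite_eq_atTop, Filter.eventually_cofinite] at h2
  simpa using h2

variable [IsAlgClosure ℚ Qb] [Fintype ι] [DecidableEq ι]

/-- equidistribution for a strict sequence, given it for the classes of at least two coordinates which occur infinitely often; general
form with a condition `Q J` on the discriminants of the coordinates in `J` -/
theorem reduction' (hF : F.fixingSubgroup.index ≠ 0) (hm : ∀ j, IsProbabilityMeasure (m j)) (hΓ : ∀ j, (Γ j).FiniteIndex)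
    (C : ∀ j, Model (Γ j) F (m j)) (hC : HeckeRational C) (x : ℕ → ∀ j, CMPoint (Γ j)) (hx : StrictSeq x)
    (Q : ∀ J : Finset ι, (∀ j : J, CMPoint (Γ j)) → Prop)
    (hQd : ∀ (J : Finset ι) (y y' : ∀ j : J, CMPoint (Γ j)), (∀ j, disc (y j) = disc (y' j)) → Q J y → Q J y')
    (hQx : ∀ᶠ i in atTop, ∀ J, IsClass Qb J (x i) → Q J (fun j : J => x i j))
    (hblock : ∀ J : Finset ι, 2 ≤ J.card → (∃ᶠ i in atTop, IsClass Qb J (x i)) → PowEq (fun j : J => C j) (Q J))
    (k : ℕ) (E : Subgroup (Qb ≃ₐ[ℚ] Qb)) (hE1 : E.Normal) (hE2 : E.index ≠ 0) (M : ℕ → Subgroup (Qb ≃ₐ[ℚ] Qb))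
    (hM1 : ∀ i, M i ≤ F.fixingSubgroup)
    (hM2 : ∀ i, ∀ b ∈ E, (∀ j, b ∈ (quadField Qb (disc (x i j))).fixingSubgroup) → b ^ (2 ^ k) ∈ M i) :
    Equidistributed C x M := by
  classical
  intro f hf hfs
  apply tendsto_of_subseq_tendsto
  intro ns hns
  obtain ⟨pat, hpat⟩ : ∃ pat : ℕ → Set (ι × ι), ∀ i p, p ∈ pat i ↔ quadField Qb (disc (x (ns i) p.1)) = quadField Qb (disc (x (ns i) p.2)) :=
    ⟨fun i => {p | quadField Qb (disc (x (ns i) p.1)) = quadField Qb (disc (x (ns i) p.2))}, fun _ _ => Iff.rfl⟩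
  have hfreq : ∃ P, ∃ᶠ i in atTop, pat i = P := by
    by_contra hcon
    push Not at hcon
    have h1 : ∀ P, ∀ᶠ i in atTop, ¬ pat i = P := by
      intro P
      exact hcon P
    have h2 : ∀ᶠ i in atTop, ∀ P, ¬ pat i = P := eventually_all.2 h1
    obtain ⟨i, hi⟩ := h2.exists
    exact hi (pat i) rfl
  obtain ⟨P, hP⟩ := hfreq
  obtain ⟨φ, hφ, hφP'⟩ := Filter.extraction_of_frequently_atTop (hP.and_eventually (hns.eventually hQx))
  have hφP : ∀ i, pat (φ i) = P := fun i => (hφP' i).1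
  refine ⟨φ, ?_⟩
  have hψ : Tendsto (fun i => ns (φ i)) atTop atTop := hns.comp hφ.tendsto_atTop
  let s : Setoid ι := ⟨fun j l => quadField Qb (disc (x (ns (φ 0)) j)) = quadField Qb (disc (x (ns (φ 0)) l)),
    ⟨fun _ => rfl, fun h => h.symm, fun h h' => h.trans h'⟩⟩
  obtain ⟨q, hq⟩ : ∃ q : ι → Quotient s, q = Quotient.mk s := ⟨_, rfl⟩
  have hqs : Function.Surjective q := by rw [hq]; exact Quotient.mk_surjective
  have hpat2 : ∀ i j l, q j = q l ↔ quadField Qb (disc (x (ns (φ i)) j)) = quadField Qb (disc (x (ns (φ i)) l)) := by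
    intro i j l
    have h1 : q j = q l ↔ quadField Qb (disc (x (ns (φ 0)) j)) = quadField Qb (disc (x (ns (φ 0)) l)) := by
      rw [hq]
      exact Quotient.eq
    rw [h1, ← hpat (φ 0) (j, l), hφP 0, ← hφP i, hpat]
  haveI : Fintype (Quotient s) := Fintype.ofFinite _
  have hclass : ∀ a i, IsClass Qb (blk q a) (x (ns (φ i))) := by
    intro a i
    obtain ⟨j, hj⟩ := hqs a
    refine ⟨j, fun l => ?_⟩
    rw [mem_blk, ← hj, hpat2 i]
  have hmain := core_blocks q hqs hF hm hΓ C hC (fun a => Q (blk q a)) (by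
    intro a ha
    apply hblock _ ha
    have h1 : ∃ᶠ i in atTop, IsClass Qb (blk q a) (x (ns (φ i))) := by
      apply Filter.Eventually.frequently
      apply Eventually.of_forall
      exact hclass a
    exact hψ.frequently h1) (fun i => x (ns (φ i))) (hx.comp hψ) (by
      rintro a i y ⟨σ, hσ, hy⟩
      apply hQd (blk q a) (fun j : blk q a => x (ns (φ i)) j) y
      · intro j
        rw [← hy j, (C j).disc_act σ hσ]
      · exact (hφP' i).2 _ (hclass a i)) hpat2 k E hE1 hE2 (fun i => M (ns (φ i))) (fun i => hM1 _)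
    (fun i b hb hb2 => hM2 _ b hb hb2) f hf hfs
  exact hmain

/-- equidistribution for a strict sequence, given it for the classes of at least two coordinates which occur infinitely often -/
theorem reduction (hF : F.fixingSubgroup.index ≠ 0) (hm : ∀ j, IsProbabilityMeasure (m j)) (hΓ : ∀ j, (Γ j).FiniteIndex)
    (C : ∀ j, Model (Γ j) F (m j)) (hC : HeckeRational C) (x : ℕ → ∀ j, CMPoint (Γ j)) (hx : StrictSeq x)
    (hblock : ∀ J : Finset ι, 2 ≤ J.card → (∃ᶠ i in atTop, IsClass Qb J (x i)) → PowEq (fun j : J => C j) (SameField Qb))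
    (k : ℕ) (E : Subgroup (Qb ≃ₐ[ℚ] Qb)) (hE1 : E.Normal) (hE2 : E.index ≠ 0) (M : ℕ → Subgroup (Qb ≃ₐ[ℚ] Qb))
    (hM1 : ∀ i, M i ≤ F.fixingSubgroup)
    (hM2 : ∀ i, ∀ b ∈ E, (∀ j, b ∈ (quadField Qb (disc (x i j))).fixingSubgroup) → b ^ (2 ^ k) ∈ M i) :
    Equidistributed C x M := by
  refine reduction' hF hm hΓ C hC x hx (fun J => SameField Qb) ?_ ?_ hblock k E hE1 hE2 M hM1 hM2
  · intro J y y' hyy h j l
    rw [← hyy j, ← hyy l]
    exact h j l
  · apply Eventually.of_forall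
    rintro i J ⟨j, hj⟩ l l'
    rw [(hj l).1 l.2, (hj l').1 l'.2]

end Pool.Agent.Run7.h762.EQ
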