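import Pool.Agent.Run7.h762.EQ.J3
import Pool.Agent.Run7.h762.EQ.D

/-!
# Commuting actions: quotients, powers, the stabilizer of some coordinates
-/

set_option autoImplicit false
set_option linter.style.haveILetI false
set_option linter.deprecated false

open Finset

namespace Pool.Agent.Run7.h762.EQ

/-- representatives modulo squares give representatives modulo `2 ^ k`-th powers -/
lemma reps_pow (A : Type*) [CommGroup A] (T : Finset A) (hT : ∀ a, ∃ t ∈ T, ∃ b, a = t * b ^ 2) (k : ℕ) :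
    ∃ T' : Finset A, T'.card ≤ T.card ^ k ∧ ∀ a, ∃ t ∈ T', ∃ b, a = t * b ^ (2 ^ k) := by
  classical
  induction k with
  | zero => exact ⟨{1}, by simp, fun a => ⟨1, by simp, a, by simp⟩⟩
  | succ k ih =>
    obtain ⟨T', h1, h2⟩ := ih
    refine ⟨(T' ×ˢ T).image (fun p => p.1 * p.2 ^ (2 ^ k)), ?_, ?_⟩
    · refine card_image_le.trans ?_
      rw [card_product, pow_succ]
      exact Nat.mul_le_mul_right _ h1
    · intro a
      obtain ⟨t, ht, b, hb⟩ := h2 a
      obtain ⟨s, hs, c, hc⟩ := hT b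
      refine ⟨t * s ^ (2 ^ k), mem_image.2 ⟨(t, s), mem_product.2 ⟨ht, hs⟩, rfl⟩, c, ?_⟩
      rw [hb, hc, mul_pow, ← pow_mul, mul_assoc]
      congr 3
      ring

/-- the same for a subgroup, without loss -/
lemma reps_sub (Q : Type*) [CommGroup Q] [Finite Q] (T : Finset Q) (hT : ∀ a, ∃ t ∈ T, ∃ b, a = t * b ^ 2) (A : Subgroup Q) (k : ℕ) :
    ∃ T' : Finset A, T'.card ≤ T.card ^ k ∧ ∀ a : A, ∃ t ∈ T', ∃ b : A, a = t * b ^ (2 ^ k) := by
  classical
  have h1 : (powMonoidHom 2 : A →* A).range.index ≤ T.card := by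
    rw [card_ker_eq]
    refine le_trans ?_ (card_ker_le Q T hT)
    let f : (powMonoidHom 2 : A →* A).ker → (powMonoidHom 2 : Q →* Q).ker := fun x => ⟨(x.1 : Q), by
      have h3 : x.1 ^ 2 = 1 := x.2
      have h4 : ((x.1 : Q)) ^ 2 = 1 := by exact_mod_cast congrArg Subtype.val h3
      exact h4⟩
    apply Nat.card_le_card_of_injective f
    intro x y hxy
    apply Subtype.ext
    apply Subtype.ext
    exact congrArg (fun z : (powMonoidHom 2 : Q →* Q).ker => (z : Q)) hxy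
  haveI := Fintype.ofFinite (A ⧸ (powMonoidHom 2 : A →* A).range)
  have h2 := reps_pow A (univ.image (fun q : A ⧸ (powMonoidHom 2 : A →* A).range => q.out)) (by
    intro a
    refine ⟨(QuotientGroup.mk a : A ⧸ (powMonoidHom 2 : A →* A).range).out, mem_image_of_mem _ (mem_univ _), ?_⟩
    have h3 : (QuotientGroup.mk (QuotientGroup.mk a : A ⧸ (powMonoidHom 2 : A →* A).range).out : A ⧸ (powMonoidHom 2 : A →* A).range) =
        QuotientGroup.mk a := Quotient.out_eq' _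
    rw [QuotientGroup.eq] at h3
    obtain ⟨b, hb⟩ := h3
    refine ⟨b, ?_⟩
    rw [powMonoidHom_apply] at hb
    rw [hb, mul_inv_cancel_left]) k
  obtain ⟨T', h3, h4⟩ := h2
  refine ⟨T', h3.trans (Nat.pow_le_pow_left ?_ k), h4⟩
  refine card_image_le.trans ?_
  rw [card_univ, ← Nat.card_eq_fintype_card]
  exact h1

section action

variable {G : Type*} [Group G] {Z : Type*}

/-- a commuting action on one point factors through a finite abelian group -/
lemma exists_quot (B : Subgroup G) (b : G → Z → Z) (y : Z) (h1 : ∀ z, b 1 z = z)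
    (hmul : ∀ σ ∈ B, ∀ τ ∈ B, ∀ z, b (σ * τ) z = b σ (b τ z))
    (hcomm : ∀ σ ∈ B, ∀ τ ∈ B, b (σ * τ) y = b (τ * σ) y)
    (hfin : {z | ∃ σ ∈ B, b σ y = z}.Finite) :
    ∃ (N : Subgroup B) (_ : N.Normal), (∀ u v : B ⧸ N, u * v = v * u) ∧ Finite (B ⧸ N) ∧
      ∀ σ τ : B, QuotientGroup.mk' N σ = QuotientGroup.mk' N τ ↔ b σ y = b τ y := by
  classical
  let N : Subgroup B :=
    { carrier := {σ | b σ y = y}
      one_mem' := by
        show b ((1 : B) : G) y = y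
        rw [OneMemClass.coe_one, h1]
      mul_mem' := by
        intro σ τ hσ hτ
        have hσ' : b σ y = y := hσ
        have hτ' : b τ y = y := hτ
        show b ((σ * τ : B) : G) y = y
        rw [Subgroup.coe_mul, hmul _ σ.2 _ τ.2, hτ', hσ']
      inv_mem' := by
        intro σ hσ
        have hσ' : b σ y = y := hσ
        show b ((σ⁻¹ : B) : G) y = y
        rw [InvMemClass.coe_inv]
        calc b (σ : G)⁻¹ y = b (σ : G)⁻¹ (b σ y) := by rw [hσ']
          _ = y := by rw [← hmul _ (B.inv_mem σ.2) _ σ.2, inv_mul_cancel, h1] }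
  have hN : ∀ (σ : B), σ ∈ N ↔ b σ y = y := fun σ => Iff.rfl
  have heq : ∀ (σ τ : B), σ⁻¹ * τ ∈ N ↔ b σ y = b τ y := by
    intro σ τ
    rw [hN, Subgroup.coe_mul, InvMemClass.coe_inv, hmul _ (B.inv_mem σ.2) _ τ.2]
    constructor
    · intro h
      have h2 := congrArg (b σ) h
      rw [← hmul _ σ.2 _ (B.inv_mem σ.2), mul_inv_cancel, h1] at h2
      exact h2.symm
    · intro h
      rw [← h, ← hmul _ (B.inv_mem σ.2) _ σ.2, inv_mul_cancel, h1]
  have hnorm : N.Normal := by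
    constructor
    intro σ hσ g
    rw [hN] at hσ ⊢
    have h2 := hcomm (g * σ : B) (g * σ : B).2 (g⁻¹ : B) (g⁻¹ : B).2
    have h3 : ((g * σ * g⁻¹ : B) : G) = ((g * σ : B) : G) * ((g⁻¹ : B) : G) := Subgroup.coe_mul _ _ _
    have h4 : ((g⁻¹ : B) : G) * ((g * σ : B) : G) = σ := by
      rw [← Subgroup.coe_mul, inv_mul_cancel_left]
    rw [h3, h2, h4, hσ]
  refine ⟨N, hnorm, ?_, ?_, ?_⟩
  · intro u v
    induction u using QuotientGroup.induction_on with
    | H u =>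
      induction v using QuotientGroup.induction_on with
      | H v =>
        have h2 : ((u * v : B) : B ⧸ N) = ((v * u : B) : B ⧸ N) := by
          rw [QuotientGroup.eq, heq, Subgroup.coe_mul, Subgroup.coe_mul]
          exact hcomm _ u.2 _ v.2
        exact h2
  · haveI : Finite {z | ∃ σ ∈ B, b σ y = z} := hfin.to_subtype
    let f : B ⧸ N → {z | ∃ σ ∈ B, b σ y = z} := fun q => ⟨b q.out y, ⟨q.out, q.out.2, rfl⟩⟩
    apply Finite.of_injective f
    intro p q hpq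
    have h2 : b p.out y = b q.out y := congrArg Subtype.val hpq
    rw [← heq, ← QuotientGroup.eq] at h2
    have hp : (QuotientGroup.mk p.out : B ⧸ N) = p := Quotient.out_eq' p
    have hq : (QuotientGroup.mk q.out : B ⧸ N) = q := Quotient.out_eq' q
    rw [← hp, ← hq, h2]
  · intro σ τ
    rw [QuotientGroup.mk'_apply, QuotientGroup.mk'_apply, QuotientGroup.eq, heq]

/-- representatives of a subgroup `St` modulo its `2 ^ k`-th powers, for a commuting action -/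
lemma reps_act (B St : Subgroup G) (hSt : St ≤ B) (b : G → Z → Z) (y : Z) (h1 : ∀ z, b 1 z = z)
    (hmul : ∀ σ ∈ B, ∀ τ ∈ B, ∀ z, b (σ * τ) z = b σ (b τ z))
    (hcomm : ∀ σ ∈ B, ∀ τ ∈ B, b (σ * τ) y = b (τ * σ) y)
    (hfin : {z | ∃ σ ∈ B, b σ y = z}.Finite) (T : Finset G) (hTB : ∀ t ∈ T, t ∈ B)
    (hT : ∀ σ ∈ B, ∃ t ∈ T, ∃ c ∈ B, b σ y = b (t * c ^ 2) y) (k : ℕ) :
    ∃ T' : Finset G, T'.card ≤ T.card ^ k ∧ (∀ t ∈ T', t ∈ St) ∧ ∀ σ ∈ St, ∃ t ∈ T', ∃ c ∈ St, b σ y = b (t * c ^ (2 ^ k)) y := by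
  classical
  obtain ⟨N, hN, hc, hf, hφ⟩ := exists_quot B b y h1 hmul hcomm hfin
  letI : CommGroup (B ⧸ N) := { (inferInstance : Group (B ⧸ N)) with mul_comm := hc }
  haveI := hf
  obtain ⟨φ, hφd⟩ : ∃ φ : B →* B ⧸ N, φ = QuotientGroup.mk' N := ⟨_, rfl⟩
  have hφ' : ∀ σ τ : B, φ σ = φ τ ↔ b σ y = b τ y := by rw [hφd]; exact hφ
  have hφs : Function.Surjective φ := by rw [hφd]; exact QuotientGroup.mk'_surjective N
  obtain ⟨T2, hT2⟩ : ∃ T2 : Finset (B ⧸ N), T2 = (T.attach.image (fun t => (⟨t.1, hTB t.1 t.2⟩ : B))).image φ := ⟨_, rfl⟩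
  have hkey : ∀ a, ∃ t ∈ T2, ∃ b, a = t * b ^ 2 := by
    intro a
    obtain ⟨σ, rfl⟩ := hφs a
    obtain ⟨t, ht, c, hc2, h2⟩ := hT σ σ.2
    refine ⟨φ ⟨t, hTB t ht⟩, ?_, φ ⟨c, hc2⟩, ?_⟩
    · rw [hT2]
      exact mem_image_of_mem _ (mem_image.2 ⟨⟨t, ht⟩, mem_attach _ _, rfl⟩)
    · rw [← map_pow, ← map_mul, hφ']
      exact h2
  obtain ⟨T', h2, h3⟩ := reps_sub (B ⧸ N) T2 hkey ((St.subgroupOf B).map φ) k
  have hcard : T'.card ≤ T.card ^ k := by
    refine h2.trans (Nat.pow_le_pow_left ?_ k)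
    rw [hT2]
    refine card_image_le.trans (card_image_le.trans ?_)
    rw [card_attach]
  have hlift : ∀ u : (St.subgroupOf B).map φ, ∃ σ : B, (σ : G) ∈ St ∧ φ σ = u := by
    rintro ⟨u, hu⟩
    obtain ⟨σ, hσ, h⟩ := hu
    exact ⟨σ, Subgroup.mem_subgroupOf.1 hσ, h⟩
  choose r hr1 hr2 using hlift
  refine ⟨T'.image (fun u => (r u : G)), card_image_le.trans hcard, ?_, ?_⟩
  · intro t ht
    obtain ⟨u, -, rfl⟩ := mem_image.1 ht
    exact hr1 u
  · intro σ hσ
    have hσB : σ ∈ B := hSt hσ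
    obtain ⟨t, ht, c, h4⟩ := h3 ⟨φ ⟨σ, hσB⟩, ⟨⟨σ, hσB⟩, Subgroup.mem_subgroupOf.2 hσ, rfl⟩⟩
    refine ⟨r t, mem_image_of_mem _ ht, r c, hr1 c, ?_⟩
    have h5 := congrArg Subtype.val h4
    have h6 : φ ⟨σ, hσB⟩ = φ (r t * r c ^ (2 ^ k)) := by
      rw [map_mul, map_pow, hr2, hr2]
      exact h5
    rw [hφ'] at h6
    exact h6

end action

end Pool.Agent.Run7.h762.EQ
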