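import Pool.Agent.Run7.h762.EQ.L1
import Pool.Agent.Run7.h762.EQ.J5

/-!
# Commuting actions: integration over one coordinate while the smaller coordinates are fixed
-/

set_option autoImplicit false
set_option linter.style.haveILetI false
set_option linter.deprecated false

open Finset

namespace Pool.Agent.Run7.h762.EQ

lemma mean_congr' {α : Type*} {s : Set α} (hs : s.Finite) (f g : α → ℝ) (h : ∀ y ∈ s, f y = g y) : mean s f = mean s g := by
  rw [mean_eq hs, mean_eq hs, sum_congr rfl (fun y hy => h y (by simpa using hy))]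

/-- the mean of a function of `π x`, if all the fibres of `π` have the same number of elements -/
lemma mean_fib {α β : Type*} {s : Set α} (hs : s.Finite) (π : α → β)
    (hπ : ∀ u ∈ s, ∀ v ∈ s, ∃ φ : α → α, (∀ x ∈ s, π x = π u → φ x ∈ s ∧ π (φ x) = π v) ∧ Set.InjOn φ s) (g : β → ℝ) :
    mean s (fun x => g (π x)) = mean (π '' s) g := by
  classical
  obtain ⟨t, ht⟩ : ∃ t : Finset α, t = hs.toFinset := ⟨_, rfl⟩
  have hmem : ∀ y, y ∈ t ↔ y ∈ s := by intro y; rw [ht]; simp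
  have himg : (hs.image π).toFinset = t.image π := by
    ext z
    simp [hmem]
  have hle : ∀ u ∈ t, ∀ v ∈ t, (t.filter (fun x => π x = π u)).card ≤ (t.filter (fun x => π x = π v)).card := by
    intro u hu v hv
    obtain ⟨φ, h1, h2⟩ := hπ u ((hmem u).1 hu) v ((hmem v).1 hv)
    apply card_le_card_of_injOn φ
    · intro x hx
      have hx' := mem_filter.1 hx
      obtain ⟨h3, h4⟩ := h1 x ((hmem x).1 hx'.1) hx'.2
      exact mem_filter.2 ⟨(hmem _).2 h3, h4⟩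
    · intro x hx y hy hxy
      exact h2 ((hmem x).1 (mem_filter.1 hx).1) ((hmem y).1 (mem_filter.1 hy).1) hxy
  rw [mean_eq hs, mean_eq (hs.image π), himg, ← ht]
  rcases t.eq_empty_or_nonempty with h0 | ⟨u, hu⟩
  · simp [h0]
  obtain ⟨N, hN⟩ : ∃ N, N = (t.filter (fun x => π x = π u)).card := ⟨_, rfl⟩
  have hNpos : 0 < N := by
    rw [hN]
    exact card_pos.2 ⟨u, mem_filter.2 ⟨hu, rfl⟩⟩
  have hfib : ∀ z ∈ t.image π, (t.filter (fun x => π x = z)).card = N := by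
    intro z hz
    obtain ⟨v, hv, rfl⟩ := mem_image.1 hz
    rw [hN]
    exact le_antisymm (hle v hv u hu) (hle u hu v hv)
  have h1 : ∑ x ∈ t, g (π x) = N * ∑ z ∈ t.image π, g z := by
    rw [← sum_fiberwise_of_maps_to (fun x hx => mem_image_of_mem π hx), mul_sum]
    apply sum_congr rfl
    intro z hz
    rw [sum_congr rfl (fun x hx => by rw [(mem_filter.1 hx).2] : ∀ x ∈ t.filter (fun x => π x = z), g (π x) = g z), sum_const,
      nsmul_eq_mul, hfib z hz]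
  have h2 : t.card = (t.image π).card * N := by
    rw [card_eq_sum_card_image π t, sum_congr rfl hfib, sum_const, smul_eq_mul]
  have h3 : (0 : ℝ) < N := by exact_mod_cast hNpos
  have h4 : (0 : ℝ) < (t.image π).card := by
    exact_mod_cast card_pos.2 ⟨π u, mem_image_of_mem _ hu⟩
  rw [h1, h2]
  push_cast
  field_simp

section group

variable {G : Type*} [Group G] {ι : Type*} {S : ι → Type*}

/-- a group acting on several sets, such that the actions of the elements of `B` commute -/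
structure Com (H B : Subgroup G) (a : ∀ j, G → S j → S j) (O : ∀ j, Set (S j)) : Prop where
  BH : B ≤ H
  one : ∀ j y, a j 1 y = y
  mul : ∀ j, ∀ σ ∈ H, ∀ τ ∈ H, ∀ y, a j (σ * τ) y = a j σ (a j τ y)
  stab : ∀ j, ∀ σ ∈ H, ∀ y ∈ O j, a j σ y ∈ O j
  comm : ∀ j, ∀ σ ∈ B, ∀ τ ∈ B, ∀ y ∈ O j, a j (σ * τ) y = a j (τ * σ) y

variable {H B : Subgroup G} {a : ∀ j, G → S j → S j} {O : ∀ j, Set (S j)}

lemma Com.inv_act (h : Com H B a O) (j : ι) {u : G} (hu : u ∈ H) (y : S j) : a j u⁻¹ (a j u y) = y := by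
  rw [← h.mul j _ (H.inv_mem hu) _ hu, inv_mul_cancel, h.one]

lemma Com.act_inj (h : Com H B a O) (j : ι) {u : G} (hu : u ∈ H) {y z : S j} (hyz : a j u y = a j u z) : y = z := by
  rw [← h.inv_act j hu y, hyz, h.inv_act j hu z]

lemma Com.mul_pow (h : Com H B a O) (j : ι) {u v : G} (hu : u ∈ B) (hv : v ∈ B) (k : ℕ) :
    ∀ y ∈ O j, a j ((u * v) ^ k) y = a j (u ^ k * v ^ k) y := by
  induction k with
  | zero => intro y _; simp
  | succ k ih =>
    intro y hy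
    have huv : u * v ∈ B := B.mul_mem hu hv
    have hp : ∀ {w : G}, w ∈ B → ∀ m : ℕ, w ^ m ∈ B := fun hw m => B.pow_mem hw m
    have hH : ∀ {w : G}, w ∈ B → w ∈ H := fun hw => h.BH hw
    have hvy : a j v y ∈ O j := h.stab j v (hH hv) y hy
    rw [pow_succ, h.mul j _ (hH (hp huv k)) _ (hH huv), ih _ (h.stab j _ (hH huv) y hy),
      ← h.mul j _ (hH (B.mul_mem (hp hu k) (hp hv k))) _ (hH huv)]
    have e1 : u ^ k * v ^ k * (u * v) = u ^ k * ((v ^ k * u) * v) := by group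
    have e2 : u ^ (k + 1) * v ^ (k + 1) = u ^ k * ((u * v ^ k) * v) := by
      rw [pow_succ, pow_succ]; group
    rw [e1, e2, h.mul j _ (hH (hp hu k)) _ (hH (B.mul_mem (B.mul_mem (hp hv k) hu) hv)),
      h.mul j _ (hH (B.mul_mem (hp hv k) hu)) _ (hH hv), h.comm j _ (hp hv k) _ hu _ hvy,
      ← h.mul j _ (hH (B.mul_mem hu (hp hv k))) _ (hH hv),
      ← h.mul j _ (hH (hp hu k)) _ (hH (B.mul_mem (B.mul_mem hu (hp hv k)) hv))]

lemma Com.pow_fix (h : Com H B a O) (j : ι) {u : G} (hu : u ∈ B) {y : S j} (hy : a j u y = y) (k : ℕ) : a j (u ^ k) y = y := by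
  induction k with
  | zero => rw [pow_zero, h.one]
  | succ k ih => rw [pow_succ, h.mul j _ (h.BH (B.pow_mem hu k)) _ (h.BH hu), hy, ih]

/-- the elements of `B` which fix the coordinates in `V` -/
def Com.St (h : Com H B a O) (V : Finset ι) (w : ∀ j, S j) : Subgroup G where
  carrier := {b | b ∈ B ∧ ∀ j ∈ V, a j b (w j) = w j}
  one_mem' := ⟨B.one_mem, fun j _ => h.one j _⟩
  mul_mem' := by
    rintro σ τ ⟨h1, h2⟩ ⟨h3, h4⟩
    refine ⟨B.mul_mem h1 h3, fun j hj => ?_⟩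
    rw [h.mul j _ (h.BH h1) _ (h.BH h3), h4 j hj, h2 j hj]
  inv_mem' := by
    rintro σ ⟨h1, h2⟩
    refine ⟨B.inv_mem h1, fun j hj => ?_⟩
    have := h.inv_act j (h.BH h1) (w j)
    rwa [h2 j hj] at this

lemma Com.mem_St (h : Com H B a O) (V : Finset ι) (w : ∀ j, S j) (b : G) : b ∈ h.St V w ↔ b ∈ B ∧ ∀ j ∈ V, a j b (w j) = w j := Iff.rfl

/-- the elements which act on the coordinate `q` as a power of an element of `St` -/
def Com.P (h : Com H B a O) (V : Finset ι) (w : ∀ j, S j) (q : ι) (hw : w q ∈ O q) (k : ℕ) : Subgroup G where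
  carrier := {σ | σ ∈ B ∧ ∃ b ∈ h.St V w, a q σ (w q) = a q (b ^ k) (w q)}
  one_mem' := ⟨B.one_mem, 1, Subgroup.one_mem _, by simp⟩
  mul_mem' := by
    rintro σ ρ ⟨hσ, b, hb, h1⟩ ⟨hρ, c, hc, h2⟩
    refine ⟨B.mul_mem hσ hρ, c * b, Subgroup.mul_mem _ hc hb, ?_⟩
    have hbk : b ^ k ∈ B := B.pow_mem hb.1 k
    have hck : c ^ k ∈ B := B.pow_mem hc.1 k
    rw [h.mul_pow q hc.1 hb.1 k _ hw, h.mul q _ (h.BH hσ) _ (h.BH hρ), h2, ← h.mul q _ (h.BH hσ) _ (h.BH hck),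
      h.comm q _ hσ _ hck _ hw, h.mul q _ (h.BH hck) _ (h.BH hσ), h1, ← h.mul q _ (h.BH hck) _ (h.BH hbk)]
  inv_mem' := by
    rintro σ ⟨hσ, b, hb, h1⟩
    have hbk : b ^ k ∈ B := B.pow_mem hb.1 k
    have hbi : b⁻¹ ∈ h.St V w := Subgroup.inv_mem _ hb
    refine ⟨B.inv_mem hσ, b⁻¹, hbi, ?_⟩
    have hσi := B.inv_mem hσ
    have hbki : (b ^ k)⁻¹ ∈ B := B.inv_mem hbk
    rw [inv_pow]
    calc a q σ⁻¹ (w q) = a q σ⁻¹ (a q (b ^ k)⁻¹ (a q (b ^ k) (w q))) := by rw [h.inv_act q (h.BH hbk)]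
      _ = a q σ⁻¹ (a q (b ^ k)⁻¹ (a q σ (w q))) := by rw [h1]
      _ = a q ((b ^ k)⁻¹ * σ⁻¹) (a q σ (w q)) := by
          rw [← h.mul q _ (h.BH hσi) _ (h.BH hbki), h.comm q _ hσi _ hbki _ (h.stab q σ (h.BH hσ) _ hw)]
      _ = a q (b ^ k)⁻¹ (w q) := by rw [h.mul q _ (h.BH hbki) _ (h.BH hσi), h.inv_act q (h.BH hσ)]

lemma Com.mem_P (h : Com H B a O) (V : Finset ι) (w : ∀ j, S j) (q : ι) (hw : w q ∈ O q) (k : ℕ) (σ : G) :
    σ ∈ h.P V w q hw k ↔ σ ∈ B ∧ ∃ b ∈ h.St V w, a q σ (w q) = a q (b ^ k) (w q) := Iff.rfl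

/-- the index of these groups -/
lemma Com.P_index (h : Com H B a O) (hB : B.index ≠ 0) (V : Finset ι) (w : ∀ j, S j) (hw : ∀ j, w j ∈ O j) (q : ι)
    (hfin : ∀ j, (O j).Finite) (T : Finset G) (hTB : ∀ t ∈ T, t ∈ B) (hT : ∀ σ ∈ B, ∃ t ∈ T, ∃ c ∈ B, a q σ (w q) = a q (t * c ^ 2) (w q))
    (k : ℕ) : (h.P V w q (hw q) (2 ^ k)).index ≠ 0 ∧
      (h.P V w q (hw q) (2 ^ k)).index ≤ T.card ^ k * ((∏ j ∈ V, (O j).ncard) * B.index) := by
  classical
  have hStB : h.St V w ≤ B := fun b hb => hb.1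
  -- the stabilizer
  have h1 : (h.St V w).relIndex B ≠ 0 ∧ (h.St V w).relIndex B ≤ ∏ j ∈ V, (O j).ncard := by
    haveI : ∀ j, Finite (O j) := fun j => (hfin j).to_subtype
    let f : B ⧸ (h.St V w).subgroupOf B → ∀ j : V, O j := fun p j => ⟨a j p.out (w j), h.stab j _ (h.BH p.out.2) _ (hw j)⟩
    have hf : Function.Injective f := by
      intro p p' hpp
      have hp : (QuotientGroup.mk p.out : B ⧸ (h.St V w).subgroupOf B) = p := Quotient.out_eq' p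
      have hp' : (QuotientGroup.mk p'.out : B ⧸ (h.St V w).subgroupOf B) = p' := Quotient.out_eq' p'
      rw [← hp, ← hp', QuotientGroup.eq, Subgroup.mem_subgroupOf, Subgroup.coe_mul, InvMemClass.coe_inv, Com.mem_St]
      refine ⟨B.mul_mem (B.inv_mem p.out.2) p'.out.2, fun j hj => ?_⟩
      have h2 : a j p.out (w j) = a j p'.out (w j) := congrArg Subtype.val (congrFun hpp ⟨j, hj⟩)
      rw [h.mul j _ (h.BH (B.inv_mem p.out.2)) _ (h.BH p'.out.2), ← h2, h.inv_act j (h.BH p.out.2)]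
    have hfin2 : Finite (B ⧸ (h.St V w).subgroupOf B) := Finite.of_injective f hf
    have hrel : (h.St V w).relIndex B = Nat.card (B ⧸ (h.St V w).subgroupOf B) := rfl
    refine ⟨by rw [hrel]; exact Nat.card_pos.ne', ?_⟩
    rw [hrel]
    refine (Nat.card_le_card_of_injective f hf).trans ?_
    rw [Nat.card_pi, Finset.prod_coe_sort V (fun j => Nat.card (O j))]
    exact le_of_eq (prod_congr rfl (fun j _ => rfl))
  -- the powers
  obtain ⟨T', hT1, hT2, hT3⟩ := reps_act B (h.St V w) hStB (a q) (w q) (h.one q)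
    (fun σ hσ τ hτ z => h.mul q σ (h.BH hσ) τ (h.BH hτ) z) (fun σ hσ τ hτ => h.comm q σ hσ τ hτ _ (hw q))
    ((hfin q).subset (by rintro z ⟨σ, hσ, rfl⟩; exact h.stab q σ (h.BH hσ) _ (hw q))) T hTB hT k
  have h2 := relIndex_le (P := h.P V w q (hw q) (2 ^ k) ⊓ h.St V w) (B := h.St V w) T' hT2 (by
    intro σ hσ
    obtain ⟨t, ht, c, hc, h3⟩ := hT3 σ hσ
    have htS := hT2 t ht
    refine ⟨t, ht, ⟨⟨B.mul_mem (B.inv_mem htS.1) hσ.1, c, hc, ?_⟩, Subgroup.mul_mem _ (Subgroup.inv_mem _ htS) hσ⟩⟩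
    rw [h.mul q _ (h.BH (B.inv_mem htS.1)) _ (h.BH hσ.1), h3, h.mul q _ (h.BH htS.1) _ (h.BH (B.pow_mem hc.1 _)), h.inv_act q (h.BH htS.1)])
  have h3 := Subgroup.relIndex_mul_relIndex (h.P V w q (hw q) (2 ^ k) ⊓ h.St V w) (h.St V w) B inf_le_right hStB
  have h4 := Subgroup.relIndex_mul_index (show h.P V w q (hw q) (2 ^ k) ⊓ h.St V w ≤ B from inf_le_right.trans hStB)
  have h5 : (h.P V w q (hw q) (2 ^ k) ⊓ h.St V w).index ≠ 0 := by
    rw [← h4, ← h3]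
    exact mul_ne_zero (mul_ne_zero h2.1 h1.1) hB
  have h6 : (h.P V w q (hw q) (2 ^ k) ⊓ h.St V w).index ≤ T.card ^ k * ((∏ j ∈ V, (O j).ncard) * B.index) := by
    rw [← h4, ← h3, mul_assoc]
    exact Nat.mul_le_mul (h2.2.trans hT1) (Nat.mul_le_mul_right _ h1.2)
  have hdvd := Subgroup.index_dvd_of_le (show h.P V w q (hw q) (2 ^ k) ⊓ h.St V w ≤ h.P V w q (hw q) (2 ^ k) from inf_le_left)
  refine ⟨fun h0 => ?_, (Nat.le_of_dvd (Nat.pos_of_ne_zero h5) hdvd).trans h6⟩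
  rw [h0, zero_dvd_iff] at hdvd
  exact h5 hdvd

/-- the index of these groups, from representatives modulo the elements which act on the coordinate `q` as elements of `St` -/
lemma Com.P_index' (h : Com H B a O) (V : Finset ι) (w : ∀ j, S j) (hw : ∀ j, w j ∈ O j) (q : ι)
    (hfin : ∀ j, (O j).Finite) (T : Finset G) (hTB : ∀ t ∈ T, t ∈ B) (hT : ∀ σ ∈ B, ∃ t ∈ T, ∃ c ∈ B, a q σ (w q) = a q (t * c ^ 2) (w q))
    (k : ℕ) (T0 : Finset G) (hT0 : ∀ σ : G, ∃ t ∈ T0, t⁻¹ * σ ∈ B ∧ ∃ b ∈ B, (∀ j ∈ V, a j b (w j) = w j) ∧ a q (t⁻¹ * σ) (w q) = a q b (w q)) :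
    (h.P V w q (hw q) (2 ^ k)).index ≠ 0 ∧ (h.P V w q (hw q) (2 ^ k)).index ≤ T.card ^ k * T0.card := by
  classical
  have hStB : h.St V w ≤ B := fun b hb => hb.1
  obtain ⟨T', hT1, hT2, hT3⟩ := reps_act B (h.St V w) hStB (a q) (w q) (h.one q)
    (fun σ hσ τ hτ z => h.mul q σ (h.BH hσ) τ (h.BH hτ) z) (fun σ hσ τ hτ => h.comm q σ hσ τ hτ _ (hw q))
    ((hfin q).subset (by rintro z ⟨σ, hσ, rfl⟩; exact h.stab q σ (h.BH hσ) _ (hw q))) T hTB hT k
  have h2 := relIndex_le (P := h.P V w q (hw q) (2 ^ k)) (B := ⊤) ((T0 ×ˢ T').image (fun p => p.1 * p.2)) (fun _ _ => Subgroup.mem_top _) (by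
    intro σ _
    obtain ⟨t0, ht0, hτ, b, hb, hbV, h3⟩ := hT0 σ
    obtain ⟨t, ht, c, hc, h4⟩ := hT3 b ⟨hb, hbV⟩
    have htS := hT2 t ht
    refine ⟨t0 * t, mem_image.2 ⟨(t0, t), mem_product.2 ⟨ht0, ht⟩, rfl⟩, ?_⟩
    have e1 : (t0 * t)⁻¹ * σ = t⁻¹ * (t0⁻¹ * σ) := by group
    rw [e1]
    refine ⟨B.mul_mem (B.inv_mem htS.1) hτ, c, hc, ?_⟩
    rw [h.mul q _ (h.BH (B.inv_mem htS.1)) _ (h.BH hτ), h3, h4, h.mul q _ (h.BH htS.1) _ (h.BH (B.pow_mem hc.1 _)),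
      h.inv_act q (h.BH htS.1)])
  rw [Subgroup.relIndex_top_right] at h2
  refine ⟨h2.1, h2.2.trans (card_image_le.trans ?_)⟩
  rw [card_product, mul_comm]
  exact Nat.mul_le_mul_right _ hT1

/-- integration over the coordinate `q`, while the coordinates in `V` are fixed -/
lemma Com.step [Finite ι] (h : Com H B a O) (M : Subgroup G) (hMH : M ≤ H) (k : ℕ) (hM : ∀ b ∈ B, b ^ k ∈ M) (x : ∀ l, S l)
    (hx : ∀ l, x l ∈ O l) (hfin : ∀ j, (O j).Finite) (V : Finset ι) (q : ι) (f : (∀ j, S j) → ℝ)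
    (hf : ∀ w w', (∀ j ∈ V, w j = w' j) → f w = f w') (F0 : ℝ) (hF : ∀ w, |f w| ≤ F0) (g : S q → ℝ) (c ε : ℝ)
    (hmean : ∀ (w : ∀ j, S j) (hw : ∀ l, w l ∈ O l), |mean {z | ∃ σ ∈ h.P V w q (hw q) k, a q σ (w q) = z} g - c| ≤ ε) :
    |mean {w : ∀ l, S l | ∃ σ ∈ M, ∀ l, a l σ (x l) = w l} (fun w => f w * g (w q)) -
      c * mean {w : ∀ l, S l | ∃ σ ∈ M, ∀ l, a l σ (x l) = w l} f| ≤ F0 * ε := by
  classical
  obtain ⟨s, hs⟩ : ∃ s : Set (∀ l, S l), s = {w : ∀ l, S l | ∃ σ ∈ M, ∀ l, a l σ (x l) = w l} := ⟨_, rfl⟩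
  have hsO : ∀ w ∈ s, ∀ l, w l ∈ O l := by
    intro w hw l
    rw [hs] at hw
    obtain ⟨σ, hσ, h1⟩ := hw
    rw [← h1 l]
    exact h.stab l σ (hMH hσ) _ (hx l)
  have hsfin : s.Finite := by
    apply (Set.Finite.pi' hfin).subset
    intro w hw
    exact fun l => hsO w hw l
  have hsne : s.Nonempty := ⟨x, by rw [hs]; exact ⟨1, M.one_mem, fun l => h.one l _⟩⟩
  rw [← hs]
  let R : (∀ l, S l) → (∀ l, S l) → Prop := fun w w' => ∃ b ∈ h.St V w, ∀ j, a j (b ^ k) (w j) = w' j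
  have hpB : ∀ {b : G}, b ∈ B → b ^ k ∈ B := fun hb => B.pow_mem hb k
  have hRV : ∀ w w', R w w' → ∀ j ∈ V, w j = w' j := by
    rintro w w' ⟨b, hb, h1⟩ j hj
    rw [← h1 j, h.pow_fix j hb.1 (hb.2 j hj)]
  have hSt : ∀ w w', (∀ j ∈ V, w j = w' j) → h.St V w = h.St V w' := by
    intro w w' hww
    ext b
    rw [h.mem_St, h.mem_St]
    constructor
    · rintro ⟨h1, h2⟩
      exact ⟨h1, fun j hj => by rw [← hww j hj]; exact h2 j hj⟩
    · rintro ⟨h1, h2⟩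
      exact ⟨h1, fun j hj => by rw [hww j hj]; exact h2 j hj⟩
  have hRmem : ∀ w ∈ s, ∀ w', R w w' → w' ∈ s := by
    rintro w hw w' ⟨b, hb, h1⟩
    rw [hs] at hw ⊢
    obtain ⟨σ, hσ, h2⟩ := hw
    refine ⟨b ^ k * σ, M.mul_mem (hM b hb.1) hσ, fun l => ?_⟩
    rw [h.mul l _ (h.BH (hpB hb.1)) _ (hMH hσ), h2, h1]
  have hRrefl : ∀ w, R w w := fun w => ⟨1, Subgroup.one_mem _, fun j => by rw [one_pow, h.one]⟩
  have hRsymm : ∀ w w', R w w' → R w' w := by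
    rintro w w' hR
    obtain ⟨b, hb, h1⟩ := hR
    refine ⟨b⁻¹, ?_, fun j => ?_⟩
    · rw [← hSt w w' (hRV w w' ⟨b, hb, h1⟩)]
      exact Subgroup.inv_mem _ hb
    · rw [← h1 j, inv_pow, h.inv_act j (h.BH (hpB hb.1))]
  have hRtrans : ∀ w ∈ s, ∀ w' w'', R w w' → R w' w'' → R w w'' := by
    rintro w hw w' w'' ⟨b, hb, h1⟩ ⟨b', hb', h2⟩
    have hb'' : b' ∈ h.St V w := by rwa [hSt w w' (hRV w w' ⟨b, hb, h1⟩)]
    refine ⟨b' * b, Subgroup.mul_mem _ hb'' hb, fun j => ?_⟩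
    rw [h.mul_pow j hb'.1 hb.1 k _ (hsO w hw j), h.mul j _ (h.BH (hpB hb'.1)) _ (h.BH (hpB hb.1)), h1, h2]
  have e1 : mean s (fun w => f w * g (w q)) - c * mean s f = mean s (fun w => f w * g (w q) + (-c) * f w) - 0 := by
    rw [mean_add hsfin, mean_smul hsfin]
    ring
  rw [e1]
  apply mean_classes hsfin hsne R (fun w _ => hRrefl w) (fun w _ w' _ => hRsymm w w') (fun w hw w' _ w'' _ => hRtrans w hw w' w'')
  intro w hw
  have hwO := hsO w hw
  obtain ⟨Cl, hCl⟩ : ∃ Cl : Set (∀ l, S l), Cl = {w' | w' ∈ s ∧ R w w'} := ⟨_, rfl⟩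
  have hClfin : Cl.Finite := by
    rw [hCl]
    exact hsfin.subset (fun w' hw' => hw'.1)
  have hClne : Cl.Nonempty := ⟨w, by rw [hCl]; exact ⟨hw, hRrefl w⟩⟩
  rw [← hCl]
  have hClR : ∀ w', w' ∈ Cl ↔ R w w' := by
    intro w'
    rw [hCl]
    exact ⟨fun h1 => h1.2, fun h1 => ⟨hRmem w hw w' h1, h1⟩⟩
  have e2 : mean Cl (fun w => f w * g (w q) + (-c) * f w) = mean Cl (fun w' => f w * (g (w' q) + (-c))) := by
    apply mean_congr' hClfin
    intro w' hw'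
    have h1 := hf w w' (hRV w w' ((hClR w').1 hw'))
    rw [← h1]
    ring
  have e3 : mean Cl (fun w' => g (w' q)) = mean {z | ∃ σ ∈ h.P V w q (hwO q) k, a q σ (w q) = z} g := by
    have h1 : (fun w' : ∀ l, S l => w' q) '' Cl = {z | ∃ σ ∈ h.P V w q (hwO q) k, a q σ (w q) = z} := by
      ext z
      constructor
      · rintro ⟨w', hw', rfl⟩
        obtain ⟨b, hb, h2⟩ := (hClR w').1 hw'
        exact ⟨b ^ k, ⟨hpB hb.1, b, hb, rfl⟩, h2 q⟩
      · rintro ⟨σ, ⟨hσ, b, hb, h2⟩, h3⟩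
        refine ⟨fun j => a j (b ^ k) (w j), (hClR _).2 ⟨b, hb, fun _ => rfl⟩, ?_⟩
        show a q (b ^ k) (w q) = z
        rw [← h2, h3]
    rw [← h1]
    apply mean_fib hClfin (fun w' : ∀ l, S l => w' q)
    intro u hu v hv
    have huR := (hClR u).1 hu
    have hvR := (hClR v).1 hv
    have hus : u ∈ s := hRmem w hw u huR
    obtain ⟨b, hb, h2⟩ := hRtrans u hus w v (hRsymm w u huR) hvR
    refine ⟨fun y j => a j (b ^ k) (y j), ?_, ?_⟩
    · intro y hy hyu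
      have hyR := (hClR y).1 hy
      have hys : y ∈ s := hRmem w hw y hyR
      constructor
      · apply (hClR _).2
        apply hRtrans w hw y _ hyR
        refine ⟨b, ?_, fun _ => rfl⟩
        have h3 : h.St V u = h.St V y := hSt u y (fun j hj => by
          rw [← hRV w u huR j hj, ← hRV w y hyR j hj])
        rwa [← h3]
      · have hyu' : y q = u q := hyu
        show a q (b ^ k) (y q) = v q
        rw [hyu', h2 q]
    · intro y hy y' hy' hyy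
      funext j
      exact h.act_inj j (h.BH (hpB hb.1)) (congrFun hyy j)
  rw [e2, mean_smul hClfin, mean_add hClfin, mean_const hClfin hClne, e3, sub_zero, abs_mul]
  have h4 := hmean w hwO
  have h5 : mean {z | ∃ σ ∈ h.P V w q (hwO q) k, a q σ (w q) = z} g + -c = mean {z | ∃ σ ∈ h.P V w q (hwO q) k, a q σ (w q) = z} g - c := by ring
  rw [h5]
  exact mul_le_mul (hF w) h4 (abs_nonneg _) ((abs_nonneg _).trans (hF w))

end group

end Pool.Agent.Run7.h762.EQ
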