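import Pool.Agent.Run7.h762.EQ.L2
import Pool.Agent.Run7.h762.EQ.J6

/-!
# The same CM field, discriminants with a small greatest common divisor
-/

set_option autoImplicit false
set_option linter.style.haveILetI false
set_option linter.deprecated false

open MeasureTheory Filter Topology
open scoped UpperHalfPlane MatrixGroups ENNReal

namespace Pool.Agent.Run7.h762.EQ

/-- the greatest common divisor of the discriminants of each two coordinates is at most the `δ`-th power of the larger one of them -/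
def SmallGcd {ι : Type} {Γ : ι → Subgroup SL(2, ℤ)} (δ : ℝ) (x : ∀ j, CMPoint (Γ j)) : Prop :=
  ∀ j l, j ≠ l → (Int.gcd (disc (x j)) (disc (x l)) : ℝ) ≤ (max |(disc (x j) : ℝ)| |(disc (x l) : ℝ)|) ^ δ

/-- Let `E` be normal of finite index in the absolute Galois group. Let `a` be a coordinate, `V` a set of other coordinates, and let the
coordinates of `x` in `V` and `x a` have the same CM field `K`. The elements of `E` which fix `K` and act on `x a` as some element of `E`
which fixes `K` and the coordinates in `V` form a subgroup of index at most `c * ∏ j ∈ V, gcd (D j, D a)`, where `D` are the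
discriminants (it is stated with representatives `T` modulo this subgroup). That is, the intersection of the field generated by
`x a` and of the field generated by the coordinates in `V`, over `K` and the field of `E`, has at most this degree. This is class field
theory: a CM point on a modular curve generates over `K` the ring class field of its conductor `f`, up to a bounded factor (the
level and `E`); the compositum of the ring class fields of `f` and `f'` is the ring class field of `lcm (f, f')`, up to a factor at most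
three, and they intersect in the ring class field of `gcd (f, f')`, up to a bounded factor (see Allombert, Bilu and Pizarro-Madariaga,
CM-points on straight lines, 2015); `D = d * f ^ 2` with the discriminant `d` of `K`, and the class number of the order of discriminant `D` is at
most `c * |D|`. -/
def RingClass {Qb : Type} [Field Qb] [Algebra ℚ Qb] {ι : Type} {Γ : ι → Subgroup SL(2, ℤ)} {F : IntermediateField ℚ Qb}
    {m : ∀ j, Measure (Curve (Γ j))} (C : ∀ j, Model (Γ j) F (m j)) : Prop :=
  ∀ E : Subgroup (Qb ≃ₐ[ℚ] Qb), E.Normal → E.index ≠ 0 → E ≤ F.fixingSubgroup → ∃ c : ℕ, ∀ (V : Finset ι) (a : ι), a ∉ V →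
    ∀ x : ∀ j, CMPoint (Γ j), (∀ j ∈ V, quadField Qb (disc (x j)) = quadField Qb (disc (x a))) →
      ∃ T : Finset (Qb ≃ₐ[ℚ] Qb), T.card ≤ c * ∏ j ∈ V, Int.gcd (disc (x j)) (disc (x a)) ∧
        ∀ σ : Qb ≃ₐ[ℚ] Qb, ∃ t ∈ T, t⁻¹ * σ ∈ E ⊓ (quadField Qb (disc (x a))).fixingSubgroup ∧
          ∃ b ∈ E ⊓ (quadField Qb (disc (x a))).fixingSubgroup, (∀ j ∈ V, (C j).act b (x j) = x j) ∧
            (C a).act (t⁻¹ * σ) (x a) = (C a).act b (x a)

variable {Qb : Type} [Field Qb] [Algebra ℚ Qb] [IsAlgClosure ℚ Qb]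
variable {ι : Type} [Fintype ι] [DecidableEq ι] {Γ : ι → Subgroup SL(2, ℤ)} {F : IntermediateField ℚ Qb} {m : ∀ j, Measure (Curve (Γ j))}

omit [IsAlgClosure ℚ Qb] [Fintype ι] [DecidableEq ι] in
/-- the commuting action on the points with given discriminants -/
lemma com_of_dih (C : ∀ j, Model (Γ j) F (m j)) (E : Subgroup (Qb ≃ₐ[ℚ] Qb)) (hFE : E ≤ F.fixingSubgroup) (hE : ∀ j, Dih (C j) E)
    (D : ι → ℤ) : Com F.fixingSubgroup (E ⊓ ⨅ j, (quadField Qb (D j)).fixingSubgroup) (fun j => (C j).act)
      (fun j => {x : CMPoint (Γ j) | disc x = D j}) where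
  BH := inf_le_left.trans hFE
  one := fun j y => (C j).act_one y
  mul := fun j σ hσ τ hτ y => (C j).act_mul σ hσ τ hτ y
  stab := fun j σ hσ y hy => by
    have hy' : disc y = D j := hy
    show disc ((C j).act σ y) = D j
    rw [(C j).disc_act σ hσ y, hy']
  comm := by
    intro j u hu v hv y hy
    have hy' : disc y = D j := hy
    have huH := hFE hu.1
    have hvH := hFE hv.1
    have huK : u ∈ (quadField Qb (D j)).fixingSubgroup := Subgroup.mem_iInf.1 (Subgroup.mem_inf.1 hu).2 j
    have hvK : v ∈ (quadField Qb (D j)).fixingSubgroup := Subgroup.mem_iInf.1 (Subgroup.mem_inf.1 hv).2 j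
    have hd : disc ((C j).act v y) = D j := by rw [(C j).disc_act v hvH y, hy']
    have h1 := (hE j ((C j).act v y) u ⟨hu.1, by rw [hd]; exact huK⟩ v).1 (by rw [hd]; exact hvK)
    rw [← (C j).act_mul (v * u * v⁻¹) (F.fixingSubgroup.mul_mem (F.fixingSubgroup.mul_mem hvH huH) (F.fixingSubgroup.inv_mem hvH)) v hvH,
      ← (C j).act_mul u huH v hvH, inv_mul_cancel_right] at h1
    exact h1.symm

omit [IsAlgClosure ℚ Qb] in
/-- the theorem for equal CM fields and discriminants with a small greatest common divisor -/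
theorem gcd_block (hF : F.fixingSubgroup.index ≠ 0) (hm : ∀ j, IsProbabilityMeasure (m j)) (C : ∀ j, Model (Γ j) F (m j))
    (η : ℝ) (hη0 : 0 < η) (hη : ∀ j, ∀ g : C(OnePoint (Curve (Γ j)), ℝ), ∀ ε : ℝ, 0 < ε → ∃ B : ℝ,
      ∀ x : CMPoint (Γ j), B ≤ |(disc x : ℝ)| → ∀ M : Subgroup (Qb ≃ₐ[ℚ] Qb), M ≤ F.fixingSubgroup → M.index ≠ 0 →
      (M.index : ℝ) ≤ |(disc x : ℝ)| ^ η →
      |mean {y | ∃ σ ∈ M, (C j).act σ x = y} (fun y => g (y.pt : OnePoint (Curve (Γ j)))) - ∫ y, g (y : OnePoint (Curve (Γ j))) ∂(m j)| ≤ ε)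
    (hring : RingClass C) (δ : ℝ) (hδ0 : 0 < δ) (hδ : δ * Fintype.card ι ≤ η / 2) :
    PowEq C (fun y => SameField Qb y ∧ SmallGcd δ y) := by
  classical
  haveI := hm
  intro k E₁ hE₁1 hE₁2 hE₁3 x M hx hP hM1 hM2 f hf hfs
  obtain ⟨E₀, hE₀1, hE₀2, hE₀3, hE₀4⟩ := exists_common' hF C
  obtain ⟨E, hE⟩ : ∃ E, E = E₁ ⊓ E₀ := ⟨_, rfl⟩
  have hE1 : E.Normal := by
    haveI := hE₁1
    haveI := hE₀1
    rw [hE]
    infer_instance
  have hE2 : E.index ≠ 0 := by rw [hE]; exact Subgroup.index_inf_ne_zero hE₁2 hE₀2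
  have hE3 : E ≤ F.fixingSubgroup := by rw [hE]; exact inf_le_right.trans hE₀3
  have hE4 : ∀ j, Dih (C j) E := by
    intro j z σ hσ τ
    refine hE₀4 j z σ ⟨?_, hσ.2⟩ τ
    have := hσ.1
    rw [hE] at this
    exact this.2
  obtain ⟨e, he⟩ : ∃ e : (∀ j, CMPoint (Γ j)) → ∀ j, Curve (Γ j), e = fun w j => (w j).pt := ⟨_, rfl⟩
  have hei : Function.Injective e := by
    intro w w' h
    funext j
    rw [he] at h
    exact CMPoint.pt_injective (congrFun h j)
  have horb : ∀ i, (orb C (M i) (x i)).Finite := fun i => orb_finite C (hM1 i) (x i)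
  have hgoal : ∀ (f : (∀ j, Curve (Γ j)) → ℝ) i, mean (orb C (M i) (x i)) (fun w => f (fun j => (w j).pt)) = mean (e '' orb C (M i) (x i)) f := by
    intro f i
    rw [mean_image e hei, he]
  simp_rw [hgoal]
  apply tendsto_mean m (fun i => e '' orb C (M i) (x i)) (fun i => (horb i).image e) _ f hf hfs
  intro g
  simp_rw [← hgoal (fun y => ∏ j, g j (y j))]
  rw [Metric.tendsto_nhds]
  intro ε hε
  obtain ⟨n, hn⟩ : ∃ n, n = Fintype.card ι := ⟨_, rfl⟩
  obtain ⟨B, hB⟩ : ∃ B : ℝ, B = 1 + ∑ j, ‖g j‖ := ⟨_, rfl⟩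
  have hB1 : 1 ≤ B := by
    rw [hB]
    have : 0 ≤ ∑ j, ‖g j‖ := Finset.sum_nonneg (fun j _ => norm_nonneg _)
    linarith
  have hgB : ∀ j, ‖g j‖ ≤ B := by
    intro j
    rw [hB]
    have := Finset.single_le_sum (f := fun j => ‖g j‖) (fun j _ => norm_nonneg _) (Finset.mem_univ j)
    linarith
  obtain ⟨ε', hε'⟩ : ∃ ε', ε' = ε / (2 * (n + 1) * B ^ n) := ⟨_, rfl⟩
  have hε'0 : 0 < ε' := by rw [hε']; positivity
  have hε'n : (n : ℝ) * (B ^ n * ε') < ε := by
    rw [hε']
    have h1 : (n : ℝ) * (B ^ n * (ε / (2 * (n + 1) * B ^ n))) = ε * (n / (2 * (n + 1))) := by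
      have : B ^ n ≠ 0 := by positivity
      field_simp
    rw [h1]
    have h2 : (n : ℝ) / (2 * (n + 1)) < 1 := by
      rw [div_lt_one (by positivity)]
      have : (0 : ℝ) ≤ n := Nat.cast_nonneg n
      linarith
    nlinarith
  obtain ⟨cst, hcst⟩ : ∃ cst : ι → ℝ, ∀ j, cst j = ∫ y, g j (y : OnePoint (Curve (Γ j))) ∂(m j) := ⟨_, fun _ => rfl⟩
  have hcB : ∀ j, |cst j| ≤ B := by
    intro j
    rw [hcst]
    have := norm_integral_le_of_norm_le_const (μ := m j) (f := fun y : Curve (Γ j) => g j (y : OnePoint (Curve (Γ j)))) (C := B)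
      (Eventually.of_forall (fun y => ((g j).norm_coe_le_norm _).trans (hgB j)))
    simpa using this
  choose R hR using fun j => hη j (g j) ε' hε'0
  choose c hc using fun j => (C j).genus E hE1 hE2 hE3
  obtain ⟨N, hNr⟩ := hring E hE1 hE2 hE3
  choose R' hR'1 hR' using fun j => genus_small (c j) (Nat.cast_nonneg _) k N (η / 2) (by positivity)
  have hev : ∀ᶠ i in atTop, ∀ j, max (R j) (R' j) ≤ |(disc (x i j) : ℝ)| := by
    rw [eventually_all]
    exact fun j => hx.disc_tendsto (fun j => (C j).finite_disc) j _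
  filter_upwards [hev] with i hi
  obtain ⟨D, hD⟩ : ∃ D : ι → ℤ, ∀ j, D j = disc (x i j) := ⟨_, fun _ => rfl⟩
  have hi' : ∀ j, max (R j) (R' j) ≤ |(D j : ℝ)| := fun j => by rw [hD]; exact hi j
  have hD1 : ∀ j, 1 ≤ |(D j : ℝ)| := fun j => ((hR'1 j).trans (le_max_right _ _)).trans (hi' j)
  have hcom := com_of_dih C E hE3 hE4 D
  obtain ⟨BB, hBB⟩ : ∃ BB, BB = E ⊓ ⨅ j, (quadField Qb (D j)).fixingSubgroup := ⟨_, rfl⟩
  rw [← hBB] at hcom
  have hsame : ∀ q, BB = E ⊓ (quadField Qb (D q)).fixingSubgroup := by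
    intro q
    rw [hBB]
    apply le_antisymm
    · exact inf_le_inf_left _ (iInf_le _ q)
    · apply inf_le_inf_left
      apply le_iInf
      intro j
      have h1 : quadField Qb (D q) = quadField Qb (D j) := by rw [hD, hD]; exact (hP i).1 q j
      rw [h1]
  have hMB : ∀ b ∈ BB, b ^ (2 ^ k) ∈ M i := by
    intro b hb
    rw [hBB] at hb
    have h1 : b ∈ E := (Subgroup.mem_inf.1 hb).1
    rw [hE] at h1
    apply hM2 i b h1.1
    intro j
    have := Subgroup.mem_iInf.1 (Subgroup.mem_inf.1 hb).2 j
    rwa [hD] at this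
  have hfinO : ∀ j, ({y : CMPoint (Γ j) | disc y = D j}).Finite := fun j => (C j).finite_disc (D j)
  have horbeq : orb C (M i) (x i) = {w : ∀ l, CMPoint (Γ l) | ∃ σ ∈ M i, ∀ l, (C l).act σ (x i l) = w l} := rfl
  have hDabs : ∀ j, ((D j).natAbs : ℝ) = |(D j : ℝ)| := fun j => by rw [Nat.cast_natAbs, Int.cast_abs]
  -- induction over the coordinates
  have key : ∀ V : Finset ι, |mean (orb C (M i) (x i)) (fun w => ∏ j ∈ V, g j ((w j).pt : OnePoint (Curve (Γ j)))) - ∏ j ∈ V, cst j| ≤
      V.card * (B ^ V.card * ε') := by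
    intro V
    induction V using Finset.induction_on_max_value (fun j => |(D j : ℝ)|) with
    | empty =>
      simp only [Finset.prod_empty, Finset.card_empty, Nat.cast_zero, zero_mul]
      rw [mean_const (horb i) (orb_nonempty C (M i) (x i)), sub_self, abs_zero]
    | insert a V haV hmax ih =>
      have hstep := hcom.step (M i) (hM1 i) (2 ^ k) hMB (x i) (fun l => (hD l).symm) hfinO V a
        (fun w => ∏ j ∈ V, g j ((w j).pt : OnePoint (Curve (Γ j)))) (by
          intro w w' hww
          exact Finset.prod_congr rfl (fun j hj => by rw [hww j hj])) (B ^ V.card) (by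
          intro w
          rw [Finset.abs_prod]
          calc ∏ j ∈ V, |g j ((w j).pt : OnePoint (Curve (Γ j)))| ≤ ∏ _j ∈ V, B :=
                Finset.prod_le_prod (fun j _ => abs_nonneg _) (fun j _ => ((g j).norm_coe_le_norm _).trans (hgB j))
            _ = B ^ V.card := by rw [Finset.prod_const])
        (fun z => g a (z.pt : OnePoint (Curve (Γ a)))) (cst a) ε' (by
          intro w hw
          rw [hcst]
          have hwa : disc (w a) = D a := hw a
          obtain ⟨T, hT1, hT2, hT3⟩ := hc a (w a)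
          rw [hwa, ← hsame a] at hT2 hT3
          rw [hwa] at hT1
          obtain ⟨T0, hT01, hT02⟩ := hNr V a haV w (by
            intro j hj
            have hwj : disc (w j) = D j := hw j
            rw [hwj, hwa, hD, hD]
            exact (hP i).1 j a)
          rw [hwa, ← hsame a] at hT02
          have hT01' : T0.card ≤ N * ∏ j ∈ V, Int.gcd (D j) (D a) := by
            refine hT01.trans (le_of_eq ?_)
            congr 1
            apply Finset.prod_congr rfl
            intro j _
            have hwj : disc (w j) = D j := hw j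
            rw [hwj, hwa]
          have hidx := hcom.P_index' V w hw a hfinO T hT2 hT3 k T0 hT02
          apply hR a (w a)
          · rw [hwa]
            exact (le_max_left _ _).trans (hi' a)
          · intro σ hσ
            exact hcom.BH ((hcom.mem_P V w a (hw a) (2 ^ k) σ).1 hσ).1
          · exact hidx.1
          · rw [hwa]
            have k1 : R' a ≤ ((D a).natAbs : ℝ) := by
              rw [hDabs]
              exact (le_max_right _ _).trans (hi' a)
            have k2 := hR' a _ k1
            have k4 : (hcom.P V w a (hw a) (2 ^ k)).index ≤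
                ((c a * 2 ^ (D a).natAbs.primeFactors.card) ^ k * N) * ∏ j ∈ V, Int.gcd (D j) (D a) := by
              refine hidx.2.trans ?_
              rw [mul_assoc]
              exact Nat.mul_le_mul (Nat.pow_le_pow_left hT1 k) hT01'
            have k5 : ((hcom.P V w a (hw a) (2 ^ k)).index : ℝ) ≤
                (((c a : ℝ) * 2 ^ (D a).natAbs.primeFactors.card) ^ k * N) * ∏ j ∈ V, (Int.gcd (D j) (D a) : ℝ) := by
              exact_mod_cast k4
            have k6 : ∏ j ∈ V, (Int.gcd (D j) (D a) : ℝ) ≤ |(D a : ℝ)| ^ (η / 2) := by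
              have k7 : ∀ j ∈ V, (Int.gcd (D j) (D a) : ℝ) ≤ |(D a : ℝ)| ^ δ := by
                intro j hj
                have hja : j ≠ a := fun h => haV (h ▸ hj)
                have hjm := hmax j hj
                have h := (hP i).2 j a hja
                rw [← hD, ← hD, max_eq_right hjm] at h
                exact h
              calc ∏ j ∈ V, (Int.gcd (D j) (D a) : ℝ) ≤ ∏ _j ∈ V, |(D a : ℝ)| ^ δ := Finset.prod_le_prod (fun j _ => Nat.cast_nonneg _) k7
                _ = |(D a : ℝ)| ^ (δ * V.card) := by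
                    rw [Finset.prod_const, ← Real.rpow_natCast, ← Real.rpow_mul (abs_nonneg _)]
                _ ≤ |(D a : ℝ)| ^ (η / 2) := by
                    apply Real.rpow_le_rpow_of_exponent_le (hD1 a)
                    refine le_trans ?_ hδ
                    apply mul_le_mul_of_nonneg_left _ hδ0.le
                    exact_mod_cast Finset.card_le_univ V
            calc ((hcom.P V w a (hw a) (2 ^ k)).index : ℝ)
                ≤ (((c a : ℝ) * 2 ^ (D a).natAbs.primeFactors.card) ^ k * N) * ∏ j ∈ V, (Int.gcd (D j) (D a) : ℝ) := k5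
              _ ≤ |(D a : ℝ)| ^ (η / 2) * |(D a : ℝ)| ^ (η / 2) := by
                  apply mul_le_mul _ k6 (Finset.prod_nonneg (fun j _ => Nat.cast_nonneg _)) (by positivity)
                  rw [← hDabs]
                  exact k2
              _ = |(D a : ℝ)| ^ η := by
                  rw [← Real.rpow_add (by linarith [hD1 a])]
                  congr 1
                  ring)
      rw [← horbeq] at hstep
      have e1 : mean (orb C (M i) (x i)) (fun w => ∏ j ∈ insert a V, g j ((w j).pt : OnePoint (Curve (Γ j)))) =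
          mean (orb C (M i) (x i)) (fun w => (∏ j ∈ V, g j ((w j).pt : OnePoint (Curve (Γ j)))) * g a ((w a).pt : OnePoint (Curve (Γ a)))) := by
        congr 1
        funext w
        rw [Finset.prod_insert haV, mul_comm]
      rw [e1, Finset.prod_insert haV, Finset.card_insert_of_notMem haV]
      obtain ⟨X1, hX1⟩ : ∃ X1, X1 = mean (orb C (M i) (x i)) (fun w => (∏ j ∈ V, g j ((w j).pt : OnePoint (Curve (Γ j)))) * g a ((w a).pt : OnePoint (Curve (Γ a)))) := ⟨_, rfl⟩
      obtain ⟨X2, hX2⟩ : ∃ X2, X2 = mean (orb C (M i) (x i)) (fun w => ∏ j ∈ V, g j ((w j).pt : OnePoint (Curve (Γ j)))) := ⟨_, rfl⟩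
      rw [← hX1]
      rw [← hX1, ← hX2] at hstep
      rw [← hX2] at ih
      have e2 : X1 - cst a * ∏ j ∈ V, cst j = (X1 - cst a * X2) + cst a * (X2 - ∏ j ∈ V, cst j) := by ring
      rw [e2]
      have e3 : (0 : ℝ) ≤ B ^ V.card := by positivity
      calc |(X1 - cst a * X2) + cst a * (X2 - ∏ j ∈ V, cst j)| ≤ |X1 - cst a * X2| + |cst a * (X2 - ∏ j ∈ V, cst j)| := abs_add_le _ _
        _ ≤ B ^ V.card * ε' + B * (V.card * (B ^ V.card * ε')) := by
            rw [abs_mul]
            exact add_le_add hstep (mul_le_mul (hcB a) ih (abs_nonneg _) (by linarith))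
        _ ≤ B * (B ^ V.card * ε') + B * (V.card * (B ^ V.card * ε')) := by
            have : 0 ≤ B ^ V.card * ε' := by positivity
            nlinarith
        _ = ((V.card + 1 : ℕ) : ℝ) * (B ^ (V.card + 1) * ε') := by push_cast; ring
  have hfinal := key Finset.univ
  rw [Finset.card_univ, ← hn] at hfinal
  simp_rw [hcst] at hfinal
  rw [Real.dist_eq]
  exact lt_of_le_of_lt hfinal hε'n

end Pool.Agent.Run7.h762.EQ
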