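import Pool.Agent.Run7.h762.EQ.L5
import Pool.Agent.Run7.h762.EQ.J8

/-!
# Different CM fields or discriminants with a small greatest common divisor
-/

set_option autoImplicit false
set_option linter.style.haveILetI false
set_option linter.deprecated false

open MeasureTheory Filter Topology
open scoped UpperHalfPlane MatrixGroups ENNReal

namespace Pool.Agent.Run7.h762.EQ

variable {Qb : Type} [Field Qb] [Algebra ℚ Qb]
variable {ι : Type} {Γ : ι → Subgroup SL(2, ℤ)} {F : IntermediateField ℚ Qb} {m : ∀ j, Measure (Curve (Γ j))}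

/-- each two coordinates of `x` have different CM fields, or the greatest common divisor of their discriminants is at most the `δ`-th power of
the larger one of them -/
def Independent (Qb : Type) [Field Qb] [Algebra ℚ Qb] (δ : ℝ) (x : ∀ j, CMPoint (Γ j)) : Prop :=
  ∀ j l, j ≠ l → quadField Qb (disc (x j)) ≠ quadField Qb (disc (x l)) ∨
    (Int.gcd (disc (x j)) (disc (x l)) : ℝ) ≤ (max |(disc (x j) : ℝ)| |(disc (x l) : ℝ)|) ^ δ

lemma RingClass.restrict [DecidableEq ι] {C : ∀ j, Model (Γ j) F (m j)} (h : RingClass C) (x0 : ∀ j, CMPoint (Γ j)) (J : Finset ι) :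
    RingClass (fun j : J => C j) := by
  classical
  intro E hE1 hE2 hE3
  obtain ⟨c, hc⟩ := h E hE1 hE2 hE3
  refine ⟨c, fun V a haV y hy => ?_⟩
  obtain ⟨x, hx⟩ : ∃ x : ∀ j, CMPoint (Γ j), ∀ j : J, x j = y j := by
    refine ⟨fun j => if h : j ∈ J then y ⟨j, h⟩ else x0 j, fun j => ?_⟩
    show (if h : (j : ι) ∈ J then y ⟨j, h⟩ else x0 j) = y j
    rw [dif_pos j.2]
  obtain ⟨V', hV'⟩ : ∃ V' : Finset ι, V' = V.map (Function.Embedding.subtype _) := ⟨_, rfl⟩
  have hmem : ∀ j : J, (j : ι) ∈ V' ↔ j ∈ V := by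
    intro j
    rw [hV', Finset.mem_map]
    constructor
    · rintro ⟨l, hl, h1⟩
      have : l = j := Subtype.ext h1
      rwa [← this]
    · intro hj
      exact ⟨j, hj, rfl⟩
  have hmem2 : ∀ j ∈ V', ∃ l ∈ V, (l : ι) = j := by
    intro j hj
    rw [hV', Finset.mem_map] at hj
    exact hj
  obtain ⟨T, hT1, hT2⟩ := hc V' a (fun h1 => haV ((hmem a).1 h1)) x (by
    intro j hj
    obtain ⟨l, hl, rfl⟩ := hmem2 j hj
    rw [hx l, hx a]
    exact hy l hl)
  refine ⟨T, ?_, ?_⟩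
  · refine hT1.trans (le_of_eq ?_)
    rw [hV', Finset.prod_map]
    congr 1
    apply Finset.prod_congr rfl
    intro j _
    show Int.gcd (disc (x (j : ι))) (disc (x a)) = _
    rw [hx j, hx a]
  · intro σ
    obtain ⟨t, ht, h1, b, hb, h2, h3⟩ := hT2 σ
    rw [hx a] at h1 hb h3
    refine ⟨t, ht, h1, b, hb, fun j hj => ?_, h3⟩
    have h4 := h2 j ((hmem j).2 hj)
    rw [hx j] at h4
    exact h4

variable [IsAlgClosure ℚ Qb] [Fintype ι] [DecidableEq ι]

theorem independent (hF : F.fixingSubgroup.index ≠ 0) (hm : ∀ j, IsProbabilityMeasure (m j)) (hΓ : ∀ j, (Γ j).FiniteIndex)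
    (C : ∀ j, Model (Γ j) F (m j)) (hC : HeckeRational C) (hring : RingClass C) :
    ∃ δ : ℝ, 0 < δ ∧ ∀ x : ℕ → ∀ j, CMPoint (Γ j), StrictSeq x → (∀ᶠ i in atTop, Independent Qb δ (x i)) →
      ∀ (k : ℕ) (E : Subgroup (Qb ≃ₐ[ℚ] Qb)), E.Normal → E.index ≠ 0 → ∀ M : ℕ → Subgroup (Qb ≃ₐ[ℚ] Qb),
        (∀ i, M i ≤ F.fixingSubgroup) →
        (∀ i, ∀ b ∈ E, (∀ j, b ∈ (quadField Qb (disc (x i j))).fixingSubgroup) → b ^ (2 ^ k) ∈ M i) → Equidistributed C x M := by
  classical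
  choose η' hη' hduke using fun j => (C j).duke_ext (hm j)
  obtain ⟨η, hη0, hη⟩ : ∃ η, 0 < η ∧ ∀ j, (0 : ℝ) + η < η' j := Pi.exists_forall_pos_add_lt (x := fun _ => (0 : ℝ)) (fun j => hη' j)
  have hdη : ∀ j, ∀ g : C(OnePoint (Curve (Γ j)), ℝ), ∀ ε : ℝ, 0 < ε → ∃ B : ℝ,
      ∀ x : CMPoint (Γ j), B ≤ |(disc x : ℝ)| → ∀ M : Subgroup (Qb ≃ₐ[ℚ] Qb), M ≤ F.fixingSubgroup → M.index ≠ 0 →
      (M.index : ℝ) ≤ |(disc x : ℝ)| ^ η →
      |mean {y | ∃ σ ∈ M, (C j).act σ x = y} (fun y => g (y.pt : OnePoint (Curve (Γ j)))) - ∫ y, g (y : OnePoint (Curve (Γ j))) ∂(m j)| ≤ ε := by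
    intro j g ε hε
    obtain ⟨B, hB⟩ := hduke j g ε hε
    refine ⟨max B 1, fun x hx M hM hM0 hMi => hB x ((le_max_left _ _).trans hx) M hM hM0 (hMi.trans ?_)⟩
    apply Real.rpow_le_rpow_of_exponent_le ((le_max_right _ _).trans hx)
    have := hη j
    linarith
  obtain ⟨δ, hδ⟩ : ∃ δ, δ = η / (2 * (Fintype.card ι + 1)) := ⟨_, rfl⟩
  have hδ0 : 0 < δ := by rw [hδ]; positivity
  have hδn : ∀ J : Finset ι, δ * Fintype.card J ≤ η / 2 := by
    intro J
    have h1 : (Fintype.card J : ℝ) ≤ Fintype.card ι + 1 := by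
      have : Fintype.card J ≤ Fintype.card ι := by
        rw [Fintype.card_coe]
        exact Finset.card_le_univ J
      have h2 : (Fintype.card J : ℝ) ≤ Fintype.card ι := by exact_mod_cast this
      linarith
    calc δ * Fintype.card J ≤ δ * (Fintype.card ι + 1) := mul_le_mul_of_nonneg_left h1 hδ0.le
      _ = η / 2 := by rw [hδ]; field_simp
  refine ⟨δ, hδ0, fun x hx hind k E hE1 hE2 M hM1 hM2 => ?_⟩
  refine reduction' hF hm hΓ C hC x hx (fun J y => SameField Qb y ∧ SmallGcd δ y) ?_ ?_ ?_ k E hE1 hE2 M hM1 hM2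
  · rintro J y y' hyy ⟨h1, h2⟩
    constructor
    · intro j l
      rw [← hyy j, ← hyy l]
      exact h1 j l
    · intro j l hjl
      rw [← hyy j, ← hyy l]
      exact h2 j l hjl
  · filter_upwards [hind] with i hi
    rintro J ⟨j, hj⟩
    have hsame : ∀ l l' : J, quadField Qb (disc (x i l)) = quadField Qb (disc (x i l')) := by
      intro l l'
      rw [(hj l).1 l.2, (hj l').1 l'.2]
    refine ⟨hsame, fun l l' hll => ?_⟩
    have hll' : (l : ι) ≠ l' := fun h => hll (Subtype.ext h)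
    exact (hi l l' hll').resolve_left (fun h => h (hsame l l'))
  · intro J _ _
    exact gcd_block (Γ := fun j : J => Γ j) (m := fun j : J => m j) hF (fun j => hm j) (fun j : J => C j) η hη0 (fun j => hdη j)
      (hring.restrict (x 0) J) δ hδ0 (hδn J)

end Pool.Agent.Run7.h762.EQ
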