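import Pool.Agent.Run7.h762.EQ.L6

/-!
# The refined reduction
-/

set_option autoImplicit false
set_option linter.style.haveILetI false
set_option linter.deprecated false

open MeasureTheory Filter Topology
open scoped UpperHalfPlane MatrixGroups ENNReal

namespace Pool.Agent.Run7.h762.EQ

variable {Qb : Type} [Field Qb] [Algebra ℚ Qb]
variable {ι : Type} {Γ : ι → Subgroup SL(2, ℤ)} {F : IntermediateField ℚ Qb} {m : ∀ j, Measure (Curve (Γ j))}

lemma PowEq.mono [Fintype ι] {C : ∀ j, Model (Γ j) F (m j)} {P P' : (∀ j, CMPoint (Γ j)) → Prop} (h : PowEq C P) (hP : ∀ x, P' x → P x) : PowEq C P' :=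
  fun k E hE1 hE2 hE3 x M hx hPx => h k E hE1 hE2 hE3 x M hx (fun i => hP _ (hPx i))

lemma PowEq.or [Fintype ι] {C : ∀ j, Model (Γ j) F (m j)} {P P' : (∀ j, CMPoint (Γ j)) → Prop} (h : PowEq C P) (h' : PowEq C P') :
    PowEq C (fun x => P x ∨ P' x) := by
  intro k E hE1 hE2 hE3 x M hx hPx hM1 hM2 f hf hfs
  apply tendsto_of_subseq_tendsto
  intro ns hns
  have hfreq : (∃ᶠ i in atTop, P (x (ns i))) ∨ ∃ᶠ i in atTop, P' (x (ns i)) := by
    rw [← Filter.frequently_or_distrib]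
    exact (Eventually.of_forall (fun i => hPx (ns i))).frequently
  rcases hfreq with hf' | hf'
  · obtain ⟨φ, hφ, hφP⟩ := Filter.extraction_of_frequently_atTop hf'
    exact ⟨φ, h k E hE1 hE2 hE3 (fun i => x (ns (φ i))) (fun i => M (ns (φ i))) (hx.comp (hns.comp hφ.tendsto_atTop)) hφP
      (fun i => hM1 _) (fun i => hM2 _) f hf hfs⟩
  · obtain ⟨φ, hφ, hφP⟩ := Filter.extraction_of_frequently_atTop hf'
    exact ⟨φ, h' k E hE1 hE2 hE3 (fun i => x (ns (φ i))) (fun i => M (ns (φ i))) (hx.comp (hns.comp hφ.tendsto_atTop)) hφP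
      (fun i => hM1 _) (fun i => hM2 _) f hf hfs⟩

variable [IsAlgClosure ℚ Qb] [Fintype ι] [DecidableEq ι]

theorem refined (hF : F.fixingSubgroup.index ≠ 0) (hm : ∀ j, IsProbabilityMeasure (m j)) (hΓ : ∀ j, (Γ j).FiniteIndex)
    (C : ∀ j, Model (Γ j) F (m j)) (hC : HeckeRational C) (hring : RingClass C) :
    ∃ δ : ℝ, 0 < δ ∧ ∀ x : ℕ → ∀ j, CMPoint (Γ j), StrictSeq x →
      (∀ J : Finset ι, 2 ≤ J.card → (∃ᶠ i in atTop, IsClass Qb J (x i) ∧ ¬ SmallGcd δ (fun j : J => x i j)) →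
        PowEq (fun j : J => C j) (fun y => SameField Qb y ∧ ¬ SmallGcd δ y)) →
      ∀ (k : ℕ) (E : Subgroup (Qb ≃ₐ[ℚ] Qb)), E.Normal → E.index ≠ 0 → ∀ M : ℕ → Subgroup (Qb ≃ₐ[ℚ] Qb),
        (∀ i, M i ≤ F.fixingSubgroup) →
        (∀ i, ∀ b ∈ E, (∀ j, b ∈ (quadField Qb (disc (x i j))).fixingSubgroup) → b ^ (2 ^ k) ∈ M i) → Equidistributed C x M := by
  classical
  choose η' hη' hduke using fun j => (C j).duke_ext (hm j)
  obtain ⟨η, hη0, hη⟩ : ∃ η, 0 < η ∧ ∀ j, (0 : ℝ) + η < η' j := Pi.exists_forall_pos_add_lt (x := fun _ => (0 : ℝ)) (fun j => hη' j)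
  have hdη : ∀ j, ∀ g : C(OnePoint (Curve (Γ j)), ℝ), ∀ ε : ℝ, 0 < ε → ∃ B : ℝ,
      ∀ x : CMPoint (Γ j), B ≤ |(disc x : ℝ)| → ∀ M : Subgroup (Qb ≃ₐ[ℚ] Qb), M ≤ F.fixingSubgroup → M.index ≠ 0 →
      (M.index : ℝ) ≤ |(disc x : ℝ)| ^ η →
      |mean {y | ∃ σ ∈ M, (C j).act σ x = y} (fun y => g (y.pt : OnePoint (Curve (Γ j)))) - ∫ y, g (y : OnePoint (Curve (Γ j))) ∂(m j)| ≤ ε := by
    intro j g ε hε
    obtain ⟨B, hB⟩ := hduke j g ε hε
    refine ⟨max B 1, fun x hx M hM hM0 hMi => hB x ((le_max_left _ _).trans hx) M hM hM0 (hMi.trans ?_)⟩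
    apply Real.rpow_le_rpow_of_exponent_le ((le_max_right _ _).trans hx)
    have := hη j
    linarith
  obtain ⟨δ, hδ⟩ : ∃ δ, δ = η / (2 * (Fintype.card ι + 1)) := ⟨_, rfl⟩
  have hδ0 : 0 < δ := by rw [hδ]; positivity
  have hδn : ∀ J : Finset ι, δ * Fintype.card J ≤ η / 2 := by
    intro J
    have h1 : (Fintype.card J : ℝ) ≤ Fintype.card ι + 1 := by
      have : Fintype.card J ≤ Fintype.card ι := by
        rw [Fintype.card_coe]
        exact Finset.card_le_univ J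
      have h2 : (Fintype.card J : ℝ) ≤ Fintype.card ι := by exact_mod_cast this
      linarith
    calc δ * Fintype.card J ≤ δ * (Fintype.card ι + 1) := mul_le_mul_of_nonneg_left h1 hδ0.le
      _ = η / 2 := by rw [hδ]; field_simp
  refine ⟨δ, hδ0, fun x hx hblock k E hE1 hE2 M hM1 hM2 => ?_⟩
  have hgcd : ∀ J : Finset ι, PowEq (fun j : J => C j) (fun y => SameField Qb y ∧ SmallGcd δ y) := fun J =>
    gcd_block (Γ := fun j : J => Γ j) (m := fun j : J => m j) hF (fun j => hm j) (fun j : J => C j) η hη0 (fun j => hdη j)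
      (hring.restrict (x 0) J) δ hδ0 (hδn J)
  refine reduction' hF hm hΓ C hC x hx
    (fun J y => SameField Qb y ∧ ((¬ ∃ᶠ i in atTop, IsClass Qb J (x i) ∧ ¬ SmallGcd δ (fun j : J => x i j)) → SmallGcd δ y)) ?_ ?_ ?_
    k E hE1 hE2 M hM1 hM2
  · rintro J y y' hyy ⟨h1, h2⟩
    constructor
    · intro j l
      rw [← hyy j, ← hyy l]
      exact h1 j l
    · intro h3 j l hjl
      rw [← hyy j, ← hyy l]
      exact h2 h3 j l hjl
  · rw [eventually_all]
    intro J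
    by_cases hJ : ∃ᶠ i in atTop, IsClass Qb J (x i) ∧ ¬ SmallGcd δ (fun j : J => x i j)
    · apply Eventually.of_forall
      rintro i ⟨j, hj⟩
      refine ⟨fun l l' => ?_, fun h => absurd hJ h⟩
      rw [(hj l).1 l.2, (hj l').1 l'.2]
    · have hJ' := Filter.not_frequently.1 hJ
      filter_upwards [hJ'] with i hi
      rintro ⟨j, hj⟩
      refine ⟨fun l l' => ?_, fun _ => ?_⟩
      · rw [(hj l).1 l.2, (hj l').1 l'.2]
      · by_contra hcon
        exact hi ⟨⟨j, hj⟩, hcon⟩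
  · intro J hJ2 _
    by_cases hJ : ∃ᶠ i in atTop, IsClass Qb J (x i) ∧ ¬ SmallGcd δ (fun j : J => x i j)
    · refine ((hgcd J).or (hblock J hJ2 hJ)).mono ?_
      rintro y ⟨h1, -⟩
      by_cases h2 : SmallGcd δ y
      · exact Or.inl ⟨h1, h2⟩
      · exact Or.inr ⟨h1, h2⟩
    · refine (hgcd J).mono ?_
      rintro y ⟨h1, h2⟩
      exact ⟨h1, h2 hJ⟩

end Pool.Agent.Run7.h762.EQ
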